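import Pool.Agent.Run7.h223.SpI

/-!
# Cofactors with few divisors times squarefree cofactors with small VC dimension
-/

set_option linter.unusedSectionVars false

open Finset
open scoped Nat Pointwise

namespace Run7.h223.Sp

open Pool.Agent.Run7.h84.MG

lemma sum_inv_cubes (V : ℕ) :
    ∑ v ∈ range (V + 1), (1 : ℝ) / ((v : ℝ) + 1) ^ 3 ≤ 5 / 4 - 1 / (2 * ((V : ℝ) + 1) * (V + 2)) := by
  induction V with
  | zero => norm_num
  | succ V ih =>
    rw [sum_range_succ]
    push_cast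
    have hV : (0 : ℝ) ≤ V := Nat.cast_nonneg V
    have h1 : (1 : ℝ) / ((V : ℝ) + 1 + 1) ^ 3 ≤
        1 / (2 * ((V : ℝ) + 1) * (V + 2)) - 1 / (2 * ((V : ℝ) + 1 + 1) * (V + 1 + 2)) := by
      have e : 1 / (2 * ((V : ℝ) + 1) * (V + 2)) - 1 / (2 * ((V : ℝ) + 1 + 1) * (V + 1 + 2)) =
          1 / (((V : ℝ) + 1) * (V + 2) * (V + 3)) := by
        field_simp
        ring
      rw [e]
      apply one_div_le_one_div_of_le (by positivity)
      nlinarith
    linarith

lemma sum_inv_cubes' (V : ℕ) :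
    ∑ v ∈ range (V + 1), (1 : ℝ) / ((v : ℝ) + 1) ^ 3 ≤ 5 / 4 := by
  have := sum_inv_cubes V
  have h : (0 : ℝ) ≤ 1 / (2 * ((V : ℝ) + 1) * (V + 2)) := by positivity
  linarith

/-- few patterns of numbers with few divisors -/
lemma few_divisors_patterns (X : Finset ℤ) (b : ℤ → ℕ) (D : ℝ) (hD0 : 0 ≤ D) (V : ℕ)
    (hb : ∀ a ∈ X, b a ≠ 0)
    (hD : ∀ a ∈ X, ((b a).divisors.card : ℝ) ≤ D) (hV : ∀ a ∈ X, ∀ p, (b a).factorization p ≤ V)
    (S : Finset ℕ) (hS : ∀ p ∈ S, p.Prime) :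
    ((X.image fun a => part S (b a)).card : ℝ) ≤ D ^ 3 * (5 / 4) ^ S.card := by
  classical
  let w : ℤ → {p // p ∈ S} → ℕ := fun a p => (b a).factorization p
  have h1 : (X.image fun a => part S (b a)).card ≤ (X.image w).card := by
    apply card_image_le_of
    intro a _ c _ h
    rw [part_eq_iff hS]
    intro p hp
    exact congrFun h ⟨p, hp⟩
  have h2 : X.image w ⊆ Fintype.piFinset fun _ : {p // p ∈ S} => range (V + 1) := by
    intro y hy
    rw [mem_image] at hy
    obtain ⟨a, ha, rfl⟩ := hy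
    rw [Fintype.mem_piFinset]
    intro p
    rw [mem_range]
    have := hV a ha p
    simp only [w]
    omega
  have h3 : ∀ y ∈ X.image w, (1 : ℝ) ≤ D ^ 3 * ∏ p, (1 : ℝ) / ((y p : ℝ) + 1) ^ 3 := by
    intro y hy
    rw [mem_image] at hy
    obtain ⟨a, ha, rfl⟩ := hy
    have h4 : (∏ p : {p // p ∈ S}, ((b a).factorization p + 1)) ≤ (b a).divisors.card := by
      rw [Nat.card_divisors (hb a ha)]
      rw [show ∏ p : {p // p ∈ S}, ((b a).factorization p + 1) =
        ∏ p ∈ S, ((b a).factorization p + 1) from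
          prod_coe_sort S fun p => (b a).factorization p + 1]
      rw [← prod_filter_mul_prod_filter_not S (fun p => p ∈ (b a).primeFactors)]
      rw [prod_eq_one (s := S.filter fun p => ¬ p ∈ (b a).primeFactors) fun p hp => by
        rw [mem_filter] at hp
        have h5 := hp.2
        rw [← Nat.support_factorization, Finsupp.notMem_support_iff] at h5
        rw [h5, zero_add], mul_one]
      apply prod_le_prod_of_subset_of_one_le'
      · intro p hp
        rw [mem_filter] at hp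
        exact hp.2
      · intro p _ _
        omega
    have h5 : (∏ p : {p // p ∈ S}, (((w a p : ℕ) : ℝ) + 1)) ≤ D := by
      refine le_trans ?_ (hD a ha)
      exact_mod_cast h4
    have h6 : (0 : ℝ) < ∏ p : {p // p ∈ S}, (((w a p : ℕ) : ℝ) + 1) :=
      prod_pos fun p _ => by positivity
    have h7 : ∏ p : {p // p ∈ S}, (1 : ℝ) / (((w a p : ℕ) : ℝ) + 1) ^ 3 =
        1 / (∏ p : {p // p ∈ S}, (((w a p : ℕ) : ℝ) + 1)) ^ 3 := by
      rw [prod_div_distrib, prod_const_one, prod_pow]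
    rw [h7, mul_one_div, one_le_div (by positivity)]
    exact pow_le_pow_left₀ h6.le h5 3
  calc ((X.image fun a => part S (b a)).card : ℝ) ≤ ((X.image w).card : ℝ) := by exact_mod_cast h1
    _ = ∑ _y ∈ X.image w, (1 : ℝ) := by rw [sum_const, nsmul_eq_mul, mul_one]
    _ ≤ ∑ y ∈ X.image w, D ^ 3 * ∏ p, (1 : ℝ) / ((y p : ℝ) + 1) ^ 3 := sum_le_sum h3
    _ ≤ ∑ y ∈ Fintype.piFinset fun _ : {p // p ∈ S} => range (V + 1),
          D ^ 3 * ∏ p, (1 : ℝ) / ((y p : ℝ) + 1) ^ 3 := by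
        apply sum_le_sum_of_subset_of_nonneg h2
        intro y _ _
        apply mul_nonneg (by positivity)
        exact prod_nonneg fun p _ => by positivity
    _ = D ^ 3 * ∏ p : {p // p ∈ S}, ∑ v ∈ range (V + 1), (1 : ℝ) / ((v : ℝ) + 1) ^ 3 := by
        rw [← mul_sum, prod_univ_sum (fun _ : {p // p ∈ S} => range (V + 1))
          fun _ (v : ℕ) => (1 : ℝ) / ((v : ℝ) + 1) ^ 3]
    _ ≤ _ := by
        rw [prod_const, card_univ, Fintype.card_coe]
        refine mul_le_mul_of_nonneg_left ?_ (by positivity)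
        refine pow_le_pow_left₀ ?_ (sum_inv_cubes' V) _
        exact sum_nonneg fun v _ => by positivity

/-- Sauer-Shelah in exponential form -/
lemma sauer (F : Finset (Finset ℕ)) (S : Finset ℕ) (hF : ∀ Y ∈ F, Y ⊆ S) (d : ℕ) (hd : F.vcDim ≤ d) :
    (F.card : ℝ) ≤ 8 ^ d * (9 / 8) ^ S.card := by
  have h1 : F.shatterer ⊆ S.powerset := by
    intro T hT
    rw [mem_shatterer] at hT
    obtain ⟨Y, hY, hTY⟩ := hT.exists_superset
    rw [mem_powerset]
    exact hTY.trans (hF Y hY)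
  have h2 : ∀ T ∈ F.shatterer, (1 : ℝ) ≤ 8 ^ d * ((1 / 8) ^ T.card * 1 ^ (S.card - T.card)) := by
    intro T hT
    rw [mem_shatterer] at hT
    have h3 : T.card ≤ d := hT.card_le_vcDim.trans hd
    rw [one_pow, mul_one, one_div, inv_pow, ← div_eq_mul_inv, one_le_div (by positivity)]
    exact pow_le_pow_right₀ (by norm_num) h3
  calc (F.card : ℝ) ≤ (F.shatterer.card : ℝ) := by exact_mod_cast card_le_card_shatterer F
    _ = ∑ _T ∈ F.shatterer, (1 : ℝ) := by rw [sum_const, nsmul_eq_mul, mul_one]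
    _ ≤ ∑ T ∈ F.shatterer, 8 ^ d * ((1 / 8 : ℝ) ^ T.card * 1 ^ (S.card - T.card)) := sum_le_sum h2
    _ ≤ ∑ T ∈ S.powerset, 8 ^ d * ((1 / 8 : ℝ) ^ T.card * 1 ^ (S.card - T.card)) := by
        apply sum_le_sum_of_subset_of_nonneg h1
        intro T _ _
        positivity
    _ = 8 ^ d * (9 / 8) ^ S.card := by
        rw [← mul_sum, sum_pow_mul_eq_add_pow]
        norm_num

/-- the patterns of squarefree numbers -/
lemma squarefree_patterns (X : Finset ℤ) (m : ℤ → ℕ) (hm : ∀ a ∈ X, Squarefree (m a)) (S : Finset ℕ)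
    (hS : ∀ p ∈ S, p.Prime) (d : ℕ) (hd : (X.image fun a => (m a).primeFactors).vcDim ≤ d) :
    ((X.image fun a => part S (m a)).card : ℝ) ≤ 8 ^ d * (9 / 8) ^ S.card := by
  have h1 : (X.image fun a => part S (m a)).card ≤
      ((X.image fun a => (m a).primeFactors).image fun Y => S ∩ Y).card := by
    rw [image_image]
    apply card_image_le_of
    intro a ha b hb hab
    rw [part_eq_iff hS]
    intro p hp
    rw [fact_squarefree (hm a ha), fact_squarefree (hm b hb)]
    simp only [Function.comp] at hab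
    have h2 : p ∈ S ∩ (m a).primeFactors ↔ p ∈ S ∩ (m b).primeFactors := by rw [hab]
    rw [mem_inter, mem_inter] at h2
    by_cases h3 : p ∈ (m a).primeFactors
    · rw [if_pos h3, if_pos (h2.1 ⟨hp, h3⟩).2]
    · rw [if_neg h3, if_neg fun h4 => h3 (h2.2 ⟨hp, h4⟩).2]
  have h2 : ((X.image fun a => (m a).primeFactors).image fun Y => S ∩ Y).vcDim ≤ d := by
    refine le_trans ?_ hd
    unfold vcDim
    apply Finset.sup_le
    intro T hT
    rw [mem_shatterer] at hT
    have hTS : T ⊆ S := by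
      obtain ⟨Y, hY, hTY⟩ := hT.exists_superset
      rw [mem_image] at hY
      obtain ⟨Z, _, rfl⟩ := hY
      exact hTY.trans inter_subset_left
    apply le_sup (f := card)
    rw [mem_shatterer]
    intro t ht
    obtain ⟨Y, hY, hTY⟩ := hT ht
    rw [mem_image] at hY
    obtain ⟨Z, hZ, rfl⟩ := hY
    refine ⟨Z, hZ, ?_⟩
    rw [← hTY, ← inter_assoc, inter_eq_left.2 hTS]
  have h3 := sauer _ S (fun Y hY => by
    rw [mem_image] at hY
    obtain ⟨Z, _, rfl⟩ := hY
    exact inter_subset_left) d h2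
  exact le_trans (by exact_mod_cast h1) h3

/-- the patterns of the products -/
lemma mixed_patterns (X : Finset ℤ) (b m : ℤ → ℕ) (D : ℝ) (hD0 : 0 ≤ D) (V : ℕ)
    (hb : ∀ a ∈ X, b a ≠ 0)
    (hD : ∀ a ∈ X, ((b a).divisors.card : ℝ) ≤ D) (hV : ∀ a ∈ X, ∀ p, (b a).factorization p ≤ V)
    (hm : ∀ a ∈ X, Squarefree (m a)) (d : ℕ)
    (hd : (X.image fun a => (m a).primeFactors).vcDim ≤ d)
    (S : Finset ℕ) (hS : ∀ p ∈ S, p.Prime)
    (h : 2 ^ S.card ≤ (X.image fun a => part S (b a * m a)).card) :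
    ((X.image fun a => part S (b a * m a)).card : ℝ) ≤ (D ^ 3 * 8 ^ d) ^ 2 := by
  have h1 : (X.image fun a => part S (b a * m a)).card ≤
      (X.image fun a => (part S (b a), part S (m a))).card := by
    apply card_image_le_of
    intro a ha c hc hac
    rw [Prod.mk.injEq, part_eq_iff hS, part_eq_iff hS] at hac
    rw [part_eq_iff hS]
    intro p hp
    rw [Nat.factorization_mul (hb a ha) (hm a ha).ne_zero, Nat.factorization_mul (hb c hc)
      (hm c hc).ne_zero, Finsupp.add_apply, Finsupp.add_apply, hac.1 p hp, hac.2 p hp]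
  have h2 : (X.image fun a => (part S (b a), part S (m a))).card ≤
      (X.image fun a => part S (b a)).card * (X.image fun a => part S (m a)).card := by
    rw [← card_product]
    apply card_le_card
    intro y hy
    rw [mem_image] at hy
    obtain ⟨a, ha, rfl⟩ := hy
    rw [mem_product]
    exact ⟨mem_image_of_mem _ ha, mem_image_of_mem _ ha⟩
  have h3 := few_divisors_patterns X b D hD0 V hb hD hV S hS
  have h4 := squarefree_patterns X m hm S hS d hd
  set P : ℝ := ((X.image fun a => part S (b a * m a)).card : ℝ) with hP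
  set Q : ℝ := D ^ 3 * 8 ^ d with hQ
  set y : ℝ := (45 / 32) ^ S.card with hy
  have hy0 : 0 < y := by positivity
  have hQ0 : 0 ≤ Q := by positivity
  have h5 : P ≤ Q * y := by
    calc P ≤ ((X.image fun a => part S (b a)).card : ℝ) * ((X.image fun a => part S (m a)).card : ℝ) := by
          have h8 := h1.trans h2
          rw [hP]
          exact_mod_cast h8
      _ ≤ (D ^ 3 * (5 / 4) ^ S.card) * (8 ^ d * (9 / 8) ^ S.card) :=
          mul_le_mul h3 h4 (Nat.cast_nonneg _) (by positivity)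
      _ = Q * ((5 / 4) ^ S.card * (9 / 8) ^ S.card) := by rw [hQ]; ring
      _ = Q * y := by
          rw [hy, ← mul_pow]
          norm_num
  have h6 : y * y ≤ P := by
    calc y * y = (2025 / 1024 : ℝ) ^ S.card := by
          rw [hy, ← mul_pow]
          norm_num
      _ ≤ 2 ^ S.card := pow_le_pow_left₀ (by norm_num) (by norm_num) _
      _ ≤ P := by
          rw [hP]
          exact_mod_cast h
  have h7 : y ≤ Q := by
    have := h6.trans h5
    exact le_of_mul_le_mul_right this hy0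
  calc P ≤ Q * y := h5
    _ ≤ Q * Q := mul_le_mul_of_nonneg_left h7 hQ0
    _ = Q ^ 2 := by ring

open Classical in
/-- cofactors with few divisors times squarefree cofactors of small VC dimension -/
theorem mixed (k : ℕ) (hk : 1 ≤ k) (ε : ℝ) (hε : 0 < ε) :
    ∃ δ : ℝ, 0 < δ ∧ ∀ (N r : ℕ) (t : Fin r → ℚ), 16 ≤ N →
      (∀ i, 0 < t i) → (r : ℝ) * Real.log (Real.log N) ≤ δ * Real.log N →
      ∀ A A' : Finset ℤ, A' ⊆ A → (N : ℝ) ^ (1 - δ) ≤ A'.card → ∀ b m : ℤ → ℕ,
      (∀ a ∈ A', b a ≠ 0 ∧ Squarefree (m a)) →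
      (∀ a ∈ A', ∃ e : Fin r → ℤ, |(a : ℚ)| = (∏ i, t i ^ e i) * (b a * m a)) →
      (∀ a ∈ A', ((b a).divisors.card : ℝ) ≤ (N : ℝ) ^ δ) →
      (∀ a ∈ A', ∀ p, (((b a).factorization p : ℝ) + 1) ^ r ≤ (N : ℝ) ^ δ) →
      ((A'.image fun a => (m a).primeFactors).vcDim : ℝ) ≤ δ * Real.log N →
      (N : ℝ) ^ ((k : ℝ) - ε) ≤
        4 ^ k * (((Fintype.piFinset fun _ : Fin k => A).image fun f => ∏ i, f i).card : ℝ) ∨
      ∀ B : Finset ℤ, B.Nonempty → (N : ℝ) ^ ((k : ℝ) - ε) * (B.card : ℝ) ^ (1 - ε) ≤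
        4 ^ k *
          ((((Fintype.piFinset fun _ : Fin k => A).image fun f => ∑ i, f i) + B).card : ℝ) := by
  obtain ⟨δ', hδ', h⟩ := part2v k hk ε hε
  refine ⟨δ' / 12, by positivity, ?_⟩
  set δ := δ' / 12 with hδd
  have hδ : 0 < δ := by positivity
  have hδδ : 12 * δ = δ' := by rw [hδd]; ring
  intro N r t hN ht hr A A' hA' hcard b m hbm hrep hdiv hval hvc
  have hN16 : (16 : ℝ) ≤ N := by exact_mod_cast hN
  have hN0 : (0 : ℝ) < N := by linarith
  have hN1 : (1 : ℝ) ≤ N := by linarith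
  have hℓe : Real.exp 1 ≤ Real.log N := log16.trans (Real.log_le_log (by norm_num) hN16)
  have hℓ0 : 0 < Real.log N := (Real.exp_pos 1).trans_le hℓe
  have hL : 1 ≤ Real.log (Real.log N) := by
    rw [Real.le_log_iff_exp_le hℓ0]
    exact hℓe
  have hrδ : (r : ℝ) ≤ δ * Real.log N := by
    have : (r : ℝ) * 1 ≤ r * Real.log (Real.log N) := mul_le_mul_of_nonneg_left hL (Nat.cast_nonneg r)
    linarith
  have hpow : ∀ m : ℕ, (m : ℝ) ≤ δ * Real.log N → (2 : ℝ) ^ m ≤ (N : ℝ) ^ δ := by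
    intro m hm
    have h2 : (2 : ℝ) ^ m = Real.exp (Real.log 2 * m) := by
      rw [Real.exp_mul, Real.exp_log (by norm_num), Real.rpow_natCast]
    rw [h2, Real.rpow_def_of_pos hN0, Real.exp_le_exp]
    have h3 : Real.log 2 ≤ 1 := by linarith [Real.log_two_lt_d9]
    have h4 : (0 : ℝ) ≤ m := Nat.cast_nonneg m
    nlinarith
  have hNδ : 1 ≤ (N : ℝ) ^ δ := Real.one_le_rpow hN1 hδ.le
  obtain ⟨V, hV, hVr⟩ := maxV r A' b ((N : ℝ) ^ δ) hNδ hval
  refine h δ' hδ' le_rfl N r t hN ht ?_ A A' hA' ?_ (fun a => b a * m a) (V + 1) ?_ ?_ ?_ ?_ ?_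
  · refine hr.trans (mul_le_mul_of_nonneg_right ?_ hℓ0.le)
    linarith
  · refine le_trans ?_ hcard
    apply Real.rpow_le_rpow_of_exponent_le hN1
    linarith
  · intro a ha
    exact mul_ne_zero (hbm a ha).1 (hbm a ha).2.ne_zero
  · intro a ha
    obtain ⟨e, he⟩ := hrep a ha
    refine ⟨e, ?_⟩
    rw [he]
    push_cast
    ring
  · intro a ha p
    rw [Nat.factorization_mul (hbm a ha).1 (hbm a ha).2.ne_zero, Finsupp.add_apply]
    exact Nat.add_le_add (hV a ha p) ((hbm a ha).2.natFactorization_le_one p)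
  · calc (((V + 1 : ℕ) : ℝ) + 1) ^ r ≤ (2 * ((V : ℝ) + 1)) ^ r := by
          refine pow_le_pow_left₀ (by positivity) ?_ r
          push_cast
          have : (0 : ℝ) ≤ V := Nat.cast_nonneg V
          linarith
      _ = 2 ^ r * ((V : ℝ) + 1) ^ r := mul_pow _ _ _
      _ ≤ (N : ℝ) ^ δ * (N : ℝ) ^ δ := mul_le_mul (hpow r hrδ) hVr (by positivity) (by positivity)
      _ = (N : ℝ) ^ (2 * δ) := by rw [← Real.rpow_add hN0]; congr 1; ring
      _ ≤ (N : ℝ) ^ δ' := Real.rpow_le_rpow_of_exponent_le hN1 (by linarith)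
  · intro S hS h2
    have h3 := mixed_patterns A' b m ((N : ℝ) ^ δ) (by positivity) V (fun a ha => (hbm a ha).1) hdiv hV
      (fun a ha => (hbm a ha).2) _ le_rfl S hS h2
    set d := (A'.image fun a => (m a).primeFactors).vcDim with hd
    refine h3.trans ?_
    have h4 : (8 : ℝ) ^ d ≤ ((N : ℝ) ^ δ) ^ 3 := by
      have h5 := hpow d hvc
      calc (8 : ℝ) ^ d = ((2 : ℝ) ^ d) ^ 3 := by
            rw [← pow_mul, mul_comm, pow_mul]
            norm_num
        _ ≤ _ := pow_le_pow_left₀ (by positivity) h5 3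
    calc (((N : ℝ) ^ δ) ^ 3 * 8 ^ d) ^ 2 ≤ (((N : ℝ) ^ δ) ^ 3 * ((N : ℝ) ^ δ) ^ 3) ^ 2 := by
          refine pow_le_pow_left₀ (by positivity) ?_ 2
          exact mul_le_mul_of_nonneg_left h4 (by positivity)
      _ = ((N : ℝ) ^ δ) ^ 12 := by ring
      _ = (N : ℝ) ^ δ' := by
          rw [← Real.rpow_natCast, ← Real.rpow_mul hN0.le]
          congr 1
          push_cast
          linarith

end Run7.h223.Sp
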