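import Pool.Agent.Run7.h223.SpR

/-! Robust versions for products of integers and sums of subset sums. -/

set_option linter.unusedSectionVars false

open Finset
open scoped Classical Nat

namespace Run7.h223.Sp

variable {ι κ : Type} [Fintype ι] [Fintype κ]

/-- **Products of squarefree integers and large shattered sets.** -/
theorem squarefree_productsR [dκ : DecidableEq κ] (A : κ → Finset ℕ)
    (hA : ∀ j, ∀ a ∈ A j, Squarefree a) (d : κ → ℕ) :
    (∏ j, ((A j).card - (((A j).image Nat.primeFactors).shatterer.filter
      fun S => d j < S.card).card)) * ∏ j, (d j)! ≤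
      (∑ j, d j)! * ((Fintype.piFinset A).image fun x => ∏ j, x j).card := by
  have e2 : dκ = fun a b => Classical.propDecidable (a = b) := Subsingleton.elim _ _
  subst e2
  set P : Finset ℕ := primesOf A with hP
  have hinj : ∀ j, Set.InjOn (tr P) (A j : Set ℕ) := by
    intro j a ha b hb hab
    rw [mem_coe] at ha hb
    have h1 : a.primeFactors = b.primeFactors := by
      ext p
      constructor
      · intro hp
        have h2 : (⟨p, mem_primesOf ha hp⟩ : {p // p ∈ P}) ∈ tr P a := by
          unfold tr
          rw [mem_filter]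
          exact ⟨mem_univ _, hp⟩
        rw [hab] at h2
        unfold tr at h2
        rw [mem_filter] at h2
        exact h2.2
      · intro hp
        have h2 : (⟨p, mem_primesOf hb hp⟩ : {p // p ∈ P}) ∈ tr P b := by
          unfold tr
          rw [mem_filter]
          exact ⟨mem_univ _, hp⟩
        rw [← hab] at h2
        unfold tr at h2
        rw [mem_filter] at h2
        exact h2.2
    rw [← Nat.prod_primeFactors_of_squarefree (hA j a ha),
      ← Nat.prod_primeFactors_of_squarefree (hA j b hb), h1]
  have h := familiesR (fun j => (A j).image (tr P)) d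
  have h1 : ∀ j, ((A j).image (tr P)).card = (A j).card := fun j => card_image_of_injOn (hinj j)
  have h0 : ∏ j, ((A j).card - (((A j).image Nat.primeFactors).shatterer.filter
      fun S => d j < S.card).card) ≤
      ∏ j, (((A j).image (tr P)).card - (((A j).image (tr P)).shatterer.filter
        fun S => d j < S.card).card) := by
    apply prod_le_prod'
    intro j _
    rw [h1 j]
    exact Nat.sub_le_sub_left (shattered_tr_le P (A j) (d j)) _
  refine ((Nat.mul_le_mul_right _ h0).trans h).trans (Nat.mul_le_mul_left _ ?_)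
  have h2 : (Fintype.piFinset fun j => (A j).image (tr P)).image mult ⊆
      ((Fintype.piFinset A).image fun x => ∏ j, x j).image
        fun z => fun p : {p // p ∈ P} => z.factorization (p : ℕ) := by
    intro y hy
    rw [mem_image] at hy
    obtain ⟨X, hX, rfl⟩ := hy
    rw [Fintype.mem_piFinset] at hX
    have h3 : ∀ j, ∃ a ∈ A j, tr P a = X j := fun j => by
      have := hX j
      rwa [mem_image] at this
    choose x hx hxX using h3
    rw [image_image, mem_image]
    refine ⟨x, by rw [Fintype.mem_piFinset]; exact hx, ?_⟩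
    funext p
    simp only [Function.comp]
    rw [Nat.factorization_prod fun j _ => (hA j (x j) (hx j)).ne_zero]
    rw [Finsupp.finsetSum_apply]
    unfold mult
    rw [card_filter]
    apply sum_congr rfl
    intro j _
    rw [fact_squarefree (hA j (x j) (hx j)), ← hxX j]
    unfold tr
    simp
  exact (card_le_card h2).trans card_image_le

/-- **Subset sums of dissociated sets and large shattered sets.** -/
theorem dissociatedR {G : Type} [AddCommMonoid G] [DecidableEq G] [dι : DecidableEq ι]
    [dκ : DecidableEq κ] (g : ι → G)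
    (hg : ∀ m m' : ι → ℕ, (∀ l, m l ≤ Fintype.card κ) → (∀ l, m' l ≤ Fintype.card κ) →
      ∑ l, m l • g l = ∑ l, m' l • g l → m = m')
    (F : κ → Finset (Finset ι)) (d : κ → ℕ) :
    (∏ j, ((F j).card - ((F j).shatterer.filter fun S => d j < S.card).card)) * ∏ j, (d j)! ≤
      (∑ j, d j)! * ((Fintype.piFinset F).image fun X => ∑ j, ∑ l ∈ X j, g l).card := by
  have e1 : dι = fun a b => Classical.propDecidable (a = b) := Subsingleton.elim _ _
  have e2 : dκ = fun a b => Classical.propDecidable (a = b) := Subsingleton.elim _ _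
  subst e1
  subst e2
  refine (familiesR0 F d).trans (Nat.mul_le_mul_left _ ?_)
  have h1 : ∀ X : κ → Finset ι, ∑ j, ∑ l ∈ X j, g l = ∑ l, mult X l • g l := by
    intro X
    unfold mult
    have h2 : ∀ j, ∑ l ∈ X j, g l = ∑ l, if l ∈ X j then g l else 0 := fun j => by
      rw [← sum_filter]
      congr 1
      ext l
      simp
    simp only [h2]
    rw [sum_comm]
    apply sum_congr rfl
    intro l _
    rw [← sum_filter, sum_const]
  apply card_image_le_of
  intro X _ Y _ hXY
  rw [h1, h1] at hXY
  apply hg _ _ _ _ hXY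
  · intro l
    unfold mult
    exact (card_le_univ _)
  · intro l
    unfold mult
    exact (card_le_univ _)

/-- squarefree integers with few products shatter many large sets of primes -/
theorem counterexamples (k : ℕ) (ε : ℝ) (B : Finset ℤ) (hBn : B.Nonempty)
    (hB : ∀ b ∈ B, Squarefree b)
    (hfew : (4 : ℝ) ^ k * (((Fintype.piFinset fun _ : Fin k => B).image fun x => ∏ j, x j).card : ℝ) <
      (B.card : ℝ) ^ ((k : ℝ) - ε)) (d : ℕ) (hd : (k : ℝ) ^ (k * d) ≤ (B.card : ℝ) ^ ε) :
    B.card < 4 * ((B.image fun b => b.natAbs.primeFactors).shatterer.filter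
      fun S => d < S.card).card := by
  by_contra hcon
  push Not at hcon
  set s := ((B.image fun b => b.natAbs.primeFactors).shatterer.filter fun S => d < S.card).card with hs
  set A := B.image Int.natAbs with hA
  have h0 : B.card ≤ 2 * A.card := card_natAbs B
  have h1 := squarefree_productsR (fun _ : Fin k => A)
    (by
      intro j a ha
      rw [hA, mem_image] at ha
      obtain ⟨b, hb, rfl⟩ := ha
      exact Int.squarefree_natAbs.2 (hB b hb)) (fun _ => d)
  have h2 : (A.image Nat.primeFactors) = B.image fun b => b.natAbs.primeFactors := by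
    rw [hA, image_image]
    rfl
  simp only [h2, prod_const, card_univ, Fintype.card_fin, sum_const, smul_eq_mul] at h1
  rw [← hs] at h1
  have h3 : B.card ≤ 4 * (A.card - s) := by omega
  have h4 := factorial_mul_le k d
  set Q := ((Fintype.piFinset fun _ : Fin k => B).image fun x => ∏ j, x j).card with hQ
  have h5 : ((Fintype.piFinset fun _ : Fin k => A).image fun x => ∏ j, x j).card ≤ Q :=
    card_products_natAbs k B
  have h6 : (A.card - s) ^ k * (d)! ^ k ≤ (k ^ (k * d) * Q) * (d)! ^ k := by
    calc (A.card - s) ^ k * (d)! ^ k ≤ (k * d)! *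
          ((Fintype.piFinset fun _ : Fin k => A).image fun x => ∏ j, x j).card := h1
      _ ≤ (k ^ (k * d) * (d)! ^ k) * Q := Nat.mul_le_mul h4 h5
      _ = _ := by ring
  have h7 : (A.card - s) ^ k ≤ k ^ (k * d) * Q :=
    Nat.le_of_mul_le_mul_right h6 (pow_pos (Nat.factorial_pos d) k)
  have h8 : B.card ^ k ≤ 4 ^ k * (k ^ (k * d) * Q) := by
    calc B.card ^ k ≤ (4 * (A.card - s)) ^ k := Nat.pow_le_pow_left h3 k
      _ = 4 ^ k * (A.card - s) ^ k := mul_pow _ _ _
      _ ≤ _ := Nat.mul_le_mul_left _ h7
  have hB0 : (0 : ℝ) < B.card := by exact_mod_cast card_pos.2 hBn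
  have h9 : (B.card : ℝ) ^ k ≤ 4 ^ k * ((k : ℝ) ^ (k * d) * Q) := by exact_mod_cast h8
  have h10 : (0 : ℝ) < (B.card : ℝ) ^ ε := Real.rpow_pos_of_pos hB0 ε
  rw [Real.rpow_sub hB0, Real.rpow_natCast, lt_div_iff₀ h10] at hfew
  have h11 : (B.card : ℝ) ^ k ≤ 4 ^ k * ((B.card : ℝ) ^ ε * Q) := by
    refine h9.trans ?_
    gcongr
  have h12 : (4 : ℝ) ^ k * ((B.card : ℝ) ^ ε * Q) = 4 ^ k * Q * (B.card : ℝ) ^ ε := by ring
  linarith

end Run7.h223.Sp
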