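import Mathlib

set_option autoImplicit false

/-! Union-closed families of breadth at most two: an element in two thirds of the nonempty members. -/

namespace Run7.h223.B2
open Finset

variable {α : Type*} [DecidableEq α]

lemma mem_sp (F : Finset (Finset α)) (P : Finset α → Prop) [DecidablePred P] (x : α) :
    x ∈ (F.filter P).sup id ↔ ∃ A ∈ F, P A ∧ x ∈ A := by
  rw [Finset.mem_sup]
  constructor
  · rintro ⟨A, hA, hx⟩
    rw [mem_filter] at hA
    exact ⟨A, hA.1, hA.2, hx⟩
  · rintro ⟨A, hA, hP, hx⟩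
    exact ⟨A, mem_filter.2 ⟨hA, hP⟩, hx⟩

lemma sub_sp (F : Finset (Finset α)) (P : Finset α → Prop) [DecidablePred P] (A : Finset α) (hA : A ∈ F) (hP : P A) :
    A ⊆ (F.filter P).sup id := fun _ hx => (mem_sp F P _).2 ⟨A, hA, hP, hx⟩

lemma sp_mem (F : Finset (Finset α)) (hU : ∀ X ∈ F, ∀ Y ∈ F, X ∪ Y ∈ F) (P : Finset α → Prop) [DecidablePred P]
    (A : Finset α) (hA : A ∈ F) (hP : P A) : (F.filter P).sup id ∈ F := by
  have h1 : SupClosed (F : Set (Finset α)) := fun X hX Y hY => hU X hX Y hY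
  exact h1.finsetSup_mem ⟨A, mem_filter.2 ⟨hA, hP⟩⟩ (fun i hi => (mem_filter.1 hi).1)

/-- Let every nonempty member meet `{s, t}`. Then, in breadth two, some such `w` in place of `s` lies in at least
half of the members containing `t`. -/
lemma lemA (F : Finset (Finset α)) (hU : ∀ X ∈ F, ∀ Y ∈ F, X ∪ Y ∈ F)
    (hB : ∀ X ∈ F, ∀ Y ∈ F, ∀ Z ∈ F, X ⊆ Y ∪ Z ∨ Y ⊆ X ∪ Z ∨ Z ⊆ X ∪ Y) (s t : α)
    (hs : ∀ A ∈ F, A.Nonempty → s ∈ A ∨ t ∈ A) (hne : ∃ A ∈ F, A.Nonempty ∧ t ∉ A) :
    ∃ w, (∀ A ∈ F, A.Nonempty → w ∈ A ∨ t ∈ A) ∧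
      (F.filter (fun A => t ∈ A)).card ≤ 2 * (F.filter (fun A => t ∈ A ∧ w ∈ A)).card := by
  classical
  by_contra hcon
  push Not at hcon
  obtain ⟨W, hW⟩ : ∃ W : α → Prop, W = fun w => ∀ A ∈ F, A.Nonempty → w ∈ A ∨ t ∈ A := ⟨_, rfl⟩
  obtain ⟨g, hg⟩ : ∃ g : α × α → ℕ, g = fun z => (F.filter (fun A => t ∈ A ∧ z.1 ∉ A ∧ z.2 ∉ A)).card := ⟨_, rfl⟩
  obtain ⟨⟨p, q⟩, ⟨hp, hq⟩, hmin⟩ := WellFounded.has_min (measure g).wf {z : α × α | W z.1 ∧ W z.2}
    ⟨(s, s), by rw [hW]; exact ⟨hs, hs⟩⟩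
  simp only at hp hq
  have hmin' : ∀ a b, W a → W b → g (p, q) ≤ g (a, b) := fun a b ha hb => not_lt.1 (hmin (a, b) ⟨ha, hb⟩)
  -- three members with private points
  have hB3 : ∀ X ∈ F, ∀ Y ∈ F, ∀ Z ∈ F, ∀ x y z, x ∈ X → x ∉ Y → x ∉ Z → y ∈ Y → y ∉ X → y ∉ Z → z ∈ Z → z ∉ X →
      z ∉ Y → False := by
    intro X hX Y hY Z hZ x y z h1 h2 h3 h4 h5 h6 h7 h8 h9
    rcases hB X hX Y hY Z hZ with h | h | h
    · have := h h1; rw [mem_union] at this; tauto
    · have := h h4; rw [mem_union] at this; tauto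
    · have := h h7; rw [mem_union] at this; tauto
  obtain ⟨A0, hA0⟩ : ∃ A0, A0 = (F.filter (fun C => p ∉ C ∧ q ∉ C)).sup id := ⟨_, rfl⟩
  -- strictness
  have hstrict : ∀ a b r, W a → W b → r ∈ A0 → t ∈ A0 → A0 ∈ F → p ∉ A0 → q ∉ A0 →
      (∀ A ∈ F, a ∉ A → b ∉ A → p ∉ A ∧ q ∉ A ∧ r ∉ A) → False := by
    intro a b r ha hb hr ht hF hp0 hq0 h
    have h1 := hmin' a b ha hb
    have h2 : g (a, b) < g (p, q) := by
      rw [hg]
      apply card_lt_card
      rw [ssubset_iff_of_subset]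
      · refine ⟨A0, mem_filter.2 ⟨hF, ht, hp0, hq0⟩, fun hc => ?_⟩
        rw [mem_filter] at hc
        exact (h A0 hF hc.2.2.1 hc.2.2.2).2.2 hr
      · intro A hA
        rw [mem_filter] at hA ⊢
        have := h A hA.1 hA.2.2.1 hA.2.2.2
        exact ⟨hA.1, hA.2.1, this.1, this.2.1⟩
    omega
  obtain ⟨G, hG⟩ : ∃ G, G = F.filter (fun A => t ∈ A ∧ p ∉ A ∧ q ∉ A) := ⟨_, rfl⟩
  obtain ⟨H, hH⟩ : ∃ H, H = F.filter (fun A => t ∈ A ∧ p ∈ A ∧ q ∈ A) := ⟨_, rfl⟩
  have hGH : G.card ≤ H.card := by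
    have hsub : G ⊆ H.image (fun B => (F.filter (fun C => C ⊆ B ∧ p ∉ C ∧ q ∉ C)).sup id) := by
      intro A hA
      rw [hG, mem_filter] at hA
      obtain ⟨hAF, htA, hpA, hqA⟩ := hA
      have hA0F : A0 ∈ F := by rw [hA0]; exact sp_mem F hU _ A hAF ⟨hpA, hqA⟩
      have hAA0 : A ⊆ A0 := by rw [hA0]; exact sub_sp F _ A hAF ⟨hpA, hqA⟩
      have hp0 : p ∉ A0 := by
        rw [hA0, mem_sp]
        rintro ⟨C, _, h1, h2⟩
        exact h1.1 h2
      have hq0 : q ∉ A0 := by
        rw [hA0, mem_sp]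
        rintro ⟨C, _, h1, h2⟩
        exact h1.2 h2
      have ht0 : t ∈ A0 := hAA0 htA
      rw [mem_image]
      by_cases hAe : A = A0
      · obtain ⟨A1, hA1, hA1n, htA1⟩ := hne
        refine ⟨(F.filter (fun _ => True)).sup id, ?_, ?_⟩
        · rw [hH, mem_filter]
          refine ⟨sp_mem F hU _ A hAF trivial, (mem_sp F _ _).2 ⟨A, hAF, trivial, htA⟩, (mem_sp F _ _).2 ⟨A1, hA1, trivial, ?_⟩,
            (mem_sp F _ _).2 ⟨A1, hA1, trivial, ?_⟩⟩
          · rw [hW] at hp
            exact (hp A1 hA1 hA1n).resolve_right htA1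
          · rw [hW] at hq
            exact (hq A1 hA1 hA1n).resolve_right htA1
        · rw [hAe, hA0]
          congr 1
          apply filter_congr
          intro C hC
          constructor
          · exact fun h => h.2
          · exact fun h => ⟨sub_sp F _ C hC trivial, h⟩
      · have hne2 : (A0 \ A).Nonempty := by
          rw [sdiff_nonempty]
          exact fun h => hAe (hAA0.antisymm h)
        obtain ⟨c, hc⟩ : ∃ c : α → Finset α, c = fun r => (F.filter (fun C => p ∉ C ∧ q ∉ C ∧ r ∉ C)).sup id := ⟨_, rfl⟩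
        obtain ⟨r, hr, hrmin⟩ := exists_min_image (A0 \ A) (fun r => (c r).card) hne2
        rw [mem_sdiff] at hr
        have hcF : ∀ r, r ∉ A → c r ∈ F := fun r hr => by rw [hc]; exact sp_mem F hU _ A hAF ⟨hpA, hqA, hr⟩
        have hAc : ∀ r, r ∉ A → A ⊆ c r := fun r hr => by rw [hc]; exact sub_sp F _ A hAF ⟨hpA, hqA, hr⟩
        have hcp : ∀ r, p ∉ c r ∧ q ∉ c r ∧ r ∉ c r := by
          intro r
          rw [hc]
          simp only [mem_sp]
          exact ⟨fun ⟨C, _, h1, h2⟩ => h1.1 h2, fun ⟨C, _, h1, h2⟩ => h1.2.1 h2, fun ⟨C, _, h1, h2⟩ => h1.2.2 h2⟩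
        have hcA0 : ∀ r, r ∉ A → c r ⊆ A0 := by
          intro r hr
          rw [hA0]
          exact sub_sp F _ (c r) (hcF r hr) ⟨(hcp r).1, (hcp r).2.1⟩
        have hcsub : ∀ r, ∀ C ∈ F, p ∉ C → q ∉ C → r ∉ C → C ⊆ c r := by
          intro r C hC h1 h2 h3
          rw [hc]
          exact sub_sp F _ C hC ⟨h1, h2, h3⟩
        have hrc : c r = A := by
          by_contra hne3
          have hss : (c r \ A).Nonempty := by
            rw [sdiff_nonempty]
            exact fun h => hne3 (h.antisymm (hAc r hr.2))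
          obtain ⟨u, hu⟩ := hss
          rw [mem_sdiff] at hu
          have hu0 : u ∈ A0 \ A := mem_sdiff.2 ⟨hcA0 r hr.2 hu.1, hu.2⟩
          have hru : r ∈ c u := by
            by_contra hcon2
            have h1 : c u ⊆ c r := hcsub r (c u) (hcF u hu.2) (hcp u).1 (hcp u).2.1 hcon2
            have h2 : c u ⊂ c r := (ssubset_iff_of_subset h1).2 ⟨u, hu.1, (hcp u).2.2⟩
            have h3 := card_lt_card h2
            have h4 := hrmin u hu0
            omega
          -- every member containing `p` meets `{r, u}`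
          have hpru : ∀ P ∈ F, p ∈ P → r ∈ P ∨ u ∈ P := by
            intro P hP hpP
            by_contra hcon2
            rw [not_or] at hcon2
            exact hB3 (c u) (hcF u hu.2) (c r) (hcF r hr.2) P hP r u p hru (hcp r).2.2 hcon2.1 hu.1 (hcp u).2.2 hcon2.2
              hpP (hcp u).1 (hcp r).1
          have htr : ∀ C ∈ F, C.Nonempty → r ∈ C ∨ u ∈ C ∨ t ∈ C := by
            intro C hC hCn
            rw [hW] at hp
            rcases hp C hC hCn with h | h
            · rcases hpru C hC h with h | h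
              · exact Or.inl h
              · exact Or.inr (Or.inl h)
            · exact Or.inr (Or.inr h)
          have hor : W r ∨ W u := by
            by_contra hcon2
            rw [not_or] at hcon2
            obtain ⟨h1, h2⟩ := hcon2
            rw [hW] at h1 h2
            push Not at h1 h2
            obtain ⟨R, hR, hRn, hrR, htR⟩ := h1
            obtain ⟨V, hV, hVn, huV, htV⟩ := h2
            have h3 : u ∈ R := by
              rcases htr R hR hRn with h | h | h
              · exact absurd h hrR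
              · exact h
              · exact absurd h htR
            have h4 : r ∈ V := by
              rcases htr V hV hVn with h | h | h
              · exact h
              · exact absurd h huV
              · exact absurd h htV
            exact hB3 R hR V hV A hAF u r t h3 huV hu.2 h4 hrR hr.2 htA htR htV
          rcases hor with hWr | hWu
          · -- `c u` contains `r` and avoids `p`, `q`
            by_cases h1 : ∀ C ∈ F, p ∈ C → q ∈ C ∨ r ∈ C
            · refine hstrict q r r hq hWr hr.1 ht0 hA0F hp0 hq0 (fun C hC hq1 hr1 => ⟨fun hp1 => ?_, hq1, hr1⟩)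
              rcases h1 C hC hp1 with h | h
              · exact hq1 h
              · exact hr1 h
            · by_cases h2 : ∀ C ∈ F, q ∈ C → p ∈ C ∨ r ∈ C
              · refine hstrict p r r hp hWr hr.1 ht0 hA0F hp0 hq0 (fun C hC hp1 hr1 => ⟨hp1, fun hq1 => ?_, hr1⟩)
                rcases h2 C hC hq1 with h | h
                · exact hp1 h
                · exact hr1 h
              · push Not at h1 h2
                obtain ⟨P, hP, hpP, hqP, hrP⟩ := h1
                obtain ⟨Q, hQ, hqQ, hpQ, hrQ⟩ := h2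
                exact hB3 P hP Q hQ (c u) (hcF u hu.2) p q r hpP hpQ (hcp u).1 hqQ hqP (hcp u).2.1 hru hrP hrQ
          · by_cases h1 : ∀ C ∈ F, p ∈ C → q ∈ C ∨ u ∈ C
            · refine hstrict q u u hq hWu (mem_sdiff.1 hu0).1 ht0 hA0F hp0 hq0 (fun C hC hq1 hr1 => ⟨fun hp1 => ?_, hq1, hr1⟩)
              rcases h1 C hC hp1 with h | h
              · exact hq1 h
              · exact hr1 h
            · by_cases h2 : ∀ C ∈ F, q ∈ C → p ∈ C ∨ u ∈ C
              · refine hstrict p u u hp hWu (mem_sdiff.1 hu0).1 ht0 hA0F hp0 hq0 (fun C hC hp1 hr1 => ⟨hp1, fun hq1 => ?_, hr1⟩)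
                rcases h2 C hC hq1 with h | h
                · exact hp1 h
                · exact hr1 h
              · push Not at h1 h2
                obtain ⟨P, hP, hpP, hqP, hrP⟩ := h1
                obtain ⟨Q, hQ, hqQ, hpQ, hrQ⟩ := h2
                exact hB3 P hP Q hQ (c r) (hcF r hr.2) p q u hpP hpQ (hcp r).1 hqQ hqP (hcp r).2.1 hu.1 hrP hrQ
        -- the member assigned to `A`
        obtain ⟨B, hBd⟩ : ∃ B, B = (F.filter (fun C => r ∉ C)).sup id := ⟨_, rfl⟩
        have hrB : r ∉ B := by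
          rw [hBd, mem_sp]
          rintro ⟨C, _, h1, h2⟩
          exact h1 h2
        have hAB : A ⊆ B := by rw [hBd]; exact sub_sp F _ A hAF hr.2
        have hBF : B ∈ F := by rw [hBd]; exact sp_mem F hU _ A hAF hr.2
        have hWr : ∀ a, W a → a ∉ B → W r := by
          intro a ha haB
          rw [hW] at ha ⊢
          intro C hC hCn
          by_cases h1 : r ∈ C
          · exact Or.inl h1
          · right
            have h2 : C ⊆ B := by rw [hBd]; exact sub_sp F _ C hC h1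
            exact (ha C hC hCn).resolve_left (fun h => haB (h2 h))
        have hpB : p ∈ B := by
          by_contra hpB
          refine hstrict r q r (hWr p hp hpB) hq hr.1 ht0 hA0F hp0 hq0 (fun C hC h1 h2 => ⟨fun h3 => ?_, h2, h1⟩)
          have h4 : C ⊆ B := by rw [hBd]; exact sub_sp F _ C hC h1
          exact hpB (h4 h3)
        have hqB : q ∈ B := by
          by_contra hqB
          refine hstrict p r r hp (hWr q hq hqB) hr.1 ht0 hA0F hp0 hq0 (fun C hC h1 h2 => ⟨h1, fun h3 => ?_, h2⟩)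
          have h4 : C ⊆ B := by rw [hBd]; exact sub_sp F _ C hC h2
          exact hqB (h4 h3)
        refine ⟨B, ?_, ?_⟩
        · rw [hH, mem_filter]
          exact ⟨hBF, hAB htA, hpB, hqB⟩
        · apply Subset.antisymm
          · intro x hx
            rw [mem_sp] at hx
            obtain ⟨C, hC, ⟨hCB, hpC, hqC⟩, hxC⟩ := hx
            have h1 := hcsub r C hC hpC hqC (fun h => hrB (hCB h))
            rw [hrc] at h1
            exact h1 hxC
          · exact sub_sp F _ A hAF ⟨hAB, hpA, hqA⟩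
    exact (card_le_card hsub).trans card_image_le
  -- counting
  have hp2 := hcon p (by rw [hW] at hp; exact hp)
  have hq2 := hcon q (by rw [hW] at hq; exact hq)
  have h1 : (F.filter (fun A => t ∈ A)).card = G.card + (F.filter (fun A => t ∈ A ∧ (p ∈ A ∨ q ∈ A))).card := by
    rw [hG, ← card_union_of_disjoint]
    · congr 1
      ext A
      simp only [mem_union, mem_filter]
      tauto
    · rw [disjoint_filter]
      tauto
  have h2 : (F.filter (fun A => t ∈ A ∧ (p ∈ A ∨ q ∈ A))).card + H.card =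
      (F.filter (fun A => t ∈ A ∧ p ∈ A)).card + (F.filter (fun A => t ∈ A ∧ q ∈ A)).card := by
    rw [hH, ← card_union_add_card_inter (F.filter (fun A => t ∈ A ∧ p ∈ A))]
    congr 2
    · ext A
      simp only [mem_union, mem_filter]
      tauto
    · ext A
      simp only [mem_inter, mem_filter]
      tauto
  omega

/-- the main result -/
theorem two_thirds (F : Finset (Finset α)) (hU : ∀ X ∈ F, ∀ Y ∈ F, X ∪ Y ∈ F)
    (hB : ∀ X ∈ F, ∀ Y ∈ F, ∀ Z ∈ F, X ⊆ Y ∪ Z ∨ Y ⊆ X ∪ Z ∨ Z ⊆ X ∪ Y) (hne : ∃ A ∈ F, A.Nonempty) :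
    ∃ x, 2 * (F.filter (fun A => A.Nonempty)).card ≤ 3 * (F.filter (fun A => x ∈ A)).card := by
  classical
  -- a minimal transversal
  obtain ⟨T, hT, hTmin⟩ : ∃ T : Finset α, (∀ A ∈ F, A.Nonempty → ∃ x ∈ T, x ∈ A) ∧
      ∀ T' : Finset α, (∀ A ∈ F, A.Nonempty → ∃ x ∈ T', x ∈ A) → T.card ≤ T'.card := by
    have h1 : ∃ n : ℕ, ∃ T : Finset α, (∀ A ∈ F, A.Nonempty → ∃ x ∈ T, x ∈ A) ∧ T.card = n :=
      ⟨_, F.sup id, fun A hA ⟨x, hx⟩ => ⟨x, by rw [Finset.mem_sup]; exact ⟨A, hA, hx⟩, hx⟩, rfl⟩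
    obtain ⟨T, hT, hc⟩ := Nat.find_spec h1
    refine ⟨T, hT, fun T' hT' => ?_⟩
    rw [hc]
    exact Nat.find_min' h1 ⟨T', hT', rfl⟩
  have hpriv : ∀ x ∈ T, ∃ A ∈ F, x ∈ A ∧ ∀ y ∈ T, y ≠ x → y ∉ A := by
    intro x hx
    by_contra hcon
    push Not at hcon
    have h1 := hTmin (T.erase x) (by
      intro A hA hAn
      obtain ⟨y, hy, hyA⟩ := hT A hA hAn
      by_cases hyx : y = x
      · subst hyx
        obtain ⟨z, hz, hzy, hzA⟩ := hcon A hA hyA
        exact ⟨z, mem_erase.2 ⟨hzy, hz⟩, hzA⟩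
      · exact ⟨y, mem_erase.2 ⟨hyx, hy⟩, hyA⟩)
    rw [card_erase_of_mem hx] at h1
    have := card_pos.2 ⟨x, hx⟩
    omega
  have hT2 : T.card ≤ 2 := by
    by_contra hcon
    have h3 : 2 < T.card := by omega
    obtain ⟨x, hx, y, hy, z, hz, hxy, hxz, hyz⟩ := two_lt_card.1 h3
    obtain ⟨X, hX, hxX, hX2⟩ := hpriv x hx
    obtain ⟨Y, hY, hyY, hY2⟩ := hpriv y hy
    obtain ⟨Z, hZ, hzZ, hZ2⟩ := hpriv z hz
    rcases hB X hX Y hY Z hZ with h | h | h
    · have := h hxX
      rw [mem_union] at this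
      rcases this with h | h
      · exact hY2 x hx hxy h
      · exact hZ2 x hx hxz h
    · have := h hyY
      rw [mem_union] at this
      rcases this with h | h
      · exact hX2 y hy hxy.symm h
      · exact hZ2 y hy hyz h
    · have := h hzZ
      rw [mem_union] at this
      rcases this with h | h
      · exact hX2 z hz hxz.symm h
      · exact hY2 z hz hyz.symm h
  have hTn : T.Nonempty := by
    obtain ⟨A, hA, hAn⟩ := hne
    obtain ⟨x, hx, _⟩ := hT A hA hAn
    exact ⟨x, hx⟩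
  obtain ⟨s, t, hst⟩ : ∃ s t, ∀ A ∈ F, A.Nonempty → s ∈ A ∨ t ∈ A := by
    obtain ⟨s, hs⟩ := hTn
    by_cases h1 : ∃ t ∈ T, t ≠ s
    · obtain ⟨t, ht, hts⟩ := h1
      have hTe : T = {s, t} := by
        symm
        apply eq_of_subset_of_card_le
        · intro x hx
          rw [mem_insert, mem_singleton] at hx
          rcases hx with rfl | rfl
          · exact hs
          · exact ht
        · rw [card_pair hts.symm]
          exact hT2
      refine ⟨s, t, fun A hA hAn => ?_⟩
      obtain ⟨x, hx, hxA⟩ := hT A hA hAn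
      rw [hTe, mem_insert, mem_singleton] at hx
      rcases hx with rfl | rfl
      · exact Or.inl hxA
      · exact Or.inr hxA
    · push Not at h1
      refine ⟨s, s, fun A hA hAn => ?_⟩
      obtain ⟨x, hx, hxA⟩ := hT A hA hAn
      rw [h1 x hx] at hxA
      exact Or.inl hxA
  by_cases hall : ∃ A ∈ F, A.Nonempty ∧ t ∉ A
  · obtain ⟨w, hw, hwc⟩ := lemA F hU hB s t hst hall
    have h1 : (F.filter (fun A => w ∈ A)).card ≥ (F.filter (fun A => t ∈ A ∧ w ∈ A)).card +
        (F.filter (fun A => A.Nonempty ∧ t ∉ A)).card := by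
      rw [ge_iff_le, ← card_union_of_disjoint]
      · apply card_le_card
        intro A hA
        rw [mem_union, mem_filter, mem_filter] at hA
        rw [mem_filter]
        rcases hA with h | h
        · exact ⟨h.1, h.2.2⟩
        · exact ⟨h.1, (hw A h.1 h.2.1).resolve_right h.2.2⟩
      · rw [disjoint_filter]
        tauto
    have h2 : (F.filter (fun A => A.Nonempty)).card = (F.filter (fun A => t ∈ A)).card +
        (F.filter (fun A => A.Nonempty ∧ t ∉ A)).card := by
      rw [← card_union_of_disjoint]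
      · congr 1
        ext A
        simp only [mem_union, mem_filter]
        constructor
        · rintro ⟨h1, h2⟩
          by_cases h3 : t ∈ A
          · exact Or.inl ⟨h1, h3⟩
          · exact Or.inr ⟨h1, h2, h3⟩
        · rintro (⟨h1, h2⟩ | ⟨h1, h2, _⟩)
          · exact ⟨h1, ⟨t, h2⟩⟩
          · exact ⟨h1, h2⟩
      · rw [disjoint_filter]
        tauto
    by_cases h3 : 2 * (F.filter (fun A => A.Nonempty)).card ≤ 3 * (F.filter (fun A => t ∈ A)).card
    · exact ⟨t, h3⟩
    · exact ⟨w, by omega⟩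
  · push Not at hall
    refine ⟨t, ?_⟩
    have h1 : (F.filter (fun A => A.Nonempty)).card ≤ (F.filter (fun A => t ∈ A)).card := by
      apply card_le_card
      intro A hA
      rw [mem_filter] at hA ⊢
      exact ⟨hA.1, hall A hA.1 hA.2⟩
    omega

end Run7.h223.B2
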