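import Pool.Agent.Run7.h223.B2

set_option autoImplicit false

/-!
# Poonen's strict inequality for union-closed families of breadth two: the small cases
-/

namespace Run7.h223.B2P

open Finset

variable {α : Type*} [DecidableEq α]


omit [DecidableEq α] in
lemma eq_powerset {F : Finset (Finset α)} {T : Finset α} (h : F ⊆ T.powerset) (hc : 2 ^ T.card ≤ F.card) :
    F = T.powerset :=
  Finset.eq_of_subset_of_card_le h (by rw [Finset.card_powerset]; exact hc)

lemma sup_mem {F : Finset (Finset α)} (hF : ∀ X ∈ F, ∀ Y ∈ F, X ∪ Y ∈ F) (hne : F.Nonempty) : F.sup id ∈ F := by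
  have : F.sup' hne id ∈ F := Finset.sup'_mem (s := (F : Set (Finset α)))
    (fun X hX Y hY => hF X hX Y hY) F hne id (fun X hX => hX)
  rwa [Finset.sup'_eq_sup] at this

theorem strict (F : Finset (Finset α)) (hne : F.Nonempty) (hF : ∀ X ∈ F, ∀ Y ∈ F, X ∪ Y ∈ F)
    (hsep : ∀ x ∈ F.sup id, ∀ y ∈ F.sup id, x ≠ y → ∃ S ∈ F, ¬ (x ∈ S ↔ y ∈ S))
    (hpow : F ≠ (F.sup id).powerset)
    (hB : ∀ X ∈ F, ∀ Y ∈ F, ∀ Z ∈ F, X ⊆ Y ∪ Z ∨ Y ⊆ X ∪ Z ∨ Z ⊆ X ∪ Y) :
    ∃ x ∈ F.sup id, F.card < 2 * (F.filter (fun A => x ∈ A)).card := by
  classical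
  set T := F.sup id with hT
  have hTF : T ∈ F := sup_mem hF hne
  have hsub : ∀ X ∈ F, X ⊆ T := fun X hX => Finset.le_sup (f := id) hX
  have hFT : F ⊆ T.powerset := fun X hX => Finset.mem_powerset.mpr (hsub X hX)
  have hfreq : ∀ x : α, 0 < (F.filter (fun A => x ∈ A)).card → x ∈ T := by
    intro x hx
    obtain ⟨S, hS⟩ := Finset.card_pos.mp hx
    rw [Finset.mem_filter] at hS
    exact hsub S hS.1 hS.2
  by_cases hex : ∃ A ∈ F, A.Nonempty
  swap
  · exfalso
    have hTe : T = ∅ := by
      by_contra h
      exact hex ⟨T, hTF, Finset.nonempty_iff_ne_empty.mpr h⟩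
    apply hpow
    apply eq_powerset hFT
    rw [hTe]
    simpa using hne.card_pos
  obtain ⟨x, hx⟩ := B2.two_thirds F hF hB hex
  by_contra hcon
  push Not at hcon
  have hle : ∀ y : α, 2 * (F.filter (fun A => y ∈ A)).card ≤ F.card := by
    intro y
    rcases Nat.eq_zero_or_pos (F.filter (fun A => y ∈ A)).card with h | h
    · rw [h]; omega
    · exact hcon y (hfreq y h)
  have hTne : T.Nonempty := by
    obtain ⟨A, hA, hAn⟩ := hex
    exact hAn.mono (hsub A hA)
  have hcard : F.card ≤ (F.filter (fun A => A.Nonempty)).card + 1 := by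
    have h1 : F ⊆ insert ∅ (F.filter (fun A => A.Nonempty)) := by
      intro X hX
      rcases X.eq_empty_or_nonempty with h | h
      · rw [h]; exact Finset.mem_insert_self _ _
      · exact Finset.mem_insert_of_mem (Finset.mem_filter.mpr ⟨hX, h⟩)
    exact (Finset.card_le_card h1).trans (Finset.card_insert_le _ _)
  have hempty : ∅ ∈ F := by
    by_contra h
    have h1 : F.filter (fun A => A.Nonempty) = F := by
      apply Finset.filter_true_of_mem
      intro X hX
      rw [Finset.nonempty_iff_ne_empty]
      rintro rfl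
      exact h hX
    rw [h1] at hx
    have := hle x
    have := hne.card_pos
    omega
  have hx2 := hle x
  have hm : F.card = 2 ∨ F.card = 4 := by
    have h2 : 1 < F.card := by
      rw [Finset.one_lt_card]
      exact ⟨∅, hempty, T, hTF, (Finset.nonempty_iff_ne_empty.mp hTne).symm⟩
    omega
  rcases hm with hm | hm
  · -- two members
    have hFeq : F = {∅, T} := by
      symm
      apply Finset.eq_of_subset_of_card_le
      · intro X hX
        rw [Finset.mem_insert, Finset.mem_singleton] at hX
        rcases hX with rfl | rfl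
        · exact hempty
        · exact hTF
      · rw [hm, Finset.card_pair (Finset.nonempty_iff_ne_empty.mp hTne).symm]
    apply hpow
    apply eq_powerset hFT
    have : T.card ≤ 1 := by
      rw [Finset.card_le_one]
      intro a ha b hb
      by_contra hab
      obtain ⟨S, hS, h⟩ := hsep a ha b hb hab
      rw [hFeq, Finset.mem_insert, Finset.mem_singleton] at hS
      rcases hS with rfl | rfl
      · exact h (by simp)
      · exact h (by simp [ha, hb])
    calc 2 ^ T.card ≤ 2 ^ 1 := Nat.pow_le_pow_right (by norm_num) this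
      _ = F.card := by simp [hm]
  · -- four members
    have hT0 : T ≠ ∅ := Finset.nonempty_iff_ne_empty.mp hTne
    obtain ⟨A, hA⟩ : (F \ {∅, T}).Nonempty := by
      rw [← Finset.card_pos]
      have := Finset.le_card_sdiff {∅, T} F
      have h2 : ({∅, T} : Finset (Finset α)).card = 2 := Finset.card_pair hT0.symm
      omega
    rw [Finset.mem_sdiff, Finset.mem_insert, Finset.mem_singleton, not_or] at hA
    obtain ⟨hAF, hA0, hAT⟩ := hA
    obtain ⟨B, hB'⟩ : (F \ {∅, T, A}).Nonempty := by
      rw [← Finset.card_pos]
      have := Finset.le_card_sdiff {∅, T, A} F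
      have h3 : ({∅, T, A} : Finset (Finset α)).card ≤ 3 := Finset.card_le_three
      omega
    rw [Finset.mem_sdiff, Finset.mem_insert, Finset.mem_insert, Finset.mem_singleton, not_or, not_or] at hB'
    obtain ⟨hBF, hB0, hBT, hBA⟩ := hB'
    have hsub4 : ({∅, T, A, B} : Finset (Finset α)) ⊆ F := by
      intro X hX
      simp only [Finset.mem_insert, Finset.mem_singleton] at hX
      rcases hX with rfl | rfl | rfl | rfl
      · exact hempty
      · exact hTF
      · exact hAF
      · exact hBF
    have hc4 : ({∅, T, A, B} : Finset (Finset α)).card = 4 := by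
      rw [Finset.card_insert_of_notMem, Finset.card_insert_of_notMem, Finset.card_pair (Ne.symm hBA)]
      · simp [Ne.symm hAT, Ne.symm hBT]
      · simp [hT0.symm, Ne.symm hA0, Ne.symm hB0]
    have hFeq : ({∅, T, A, B} : Finset (Finset α)) = F :=
      Finset.eq_of_subset_of_card_le hsub4 (by rw [hm, hc4])
    have hdisj : ∀ y, y ∈ A → y ∉ B := by
      intro y hyA hyB
      have h3 : ({T, A, B} : Finset (Finset α)) ⊆ F.filter (fun X => y ∈ X) := by
        intro X hX
        simp only [Finset.mem_insert, Finset.mem_singleton] at hX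
        rw [Finset.mem_filter]
        rcases hX with rfl | rfl | rfl
        · exact ⟨hTF, hsub A hAF hyA⟩
        · exact ⟨hAF, hyA⟩
        · exact ⟨hBF, hyB⟩
      have h4 := Finset.card_le_card h3
      have h5 : ({T, A, B} : Finset (Finset α)).card = 3 := by
        rw [Finset.card_insert_of_notMem, Finset.card_pair (Ne.symm hBA)]
        simp [Ne.symm hAT, Ne.symm hBT]
      have := hle y
      omega
    have hAn : A.Nonempty := Finset.nonempty_iff_ne_empty.mpr hA0
    have hBn : B.Nonempty := Finset.nonempty_iff_ne_empty.mpr hB0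
    have hABT : A ∪ B = T := by
      have h := hF A hAF B hBF
      rw [← hFeq] at h
      simp only [Finset.mem_insert, Finset.mem_singleton] at h
      obtain ⟨a, ha⟩ := hAn
      obtain ⟨b, hb⟩ := hBn
      rcases h with h | h | h | h
      · exfalso
        have : a ∈ A ∪ B := Finset.mem_union_left _ ha
        rw [h] at this
        exact absurd this (Finset.notMem_empty a)
      · exact h
      · exfalso
        have : b ∈ A ∪ B := Finset.mem_union_right _ hb
        rw [h] at this
        exact hdisj b this hb
      · exfalso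
        have : a ∈ A ∪ B := Finset.mem_union_left _ ha
        rw [h] at this
        exact hdisj a ha this
    have hA1 : A.card ≤ 1 := by
      rw [Finset.card_le_one]
      intro a ha b hb
      by_contra hab
      obtain ⟨S, hS, h⟩ := hsep a (hsub A hAF ha) b (hsub A hAF hb) hab
      rw [← hFeq] at hS
      simp only [Finset.mem_insert, Finset.mem_singleton] at hS
      rcases hS with rfl | rfl | rfl | rfl
      · exact h (by simp)
      · exact h (by simp [hsub A hAF ha, hsub A hAF hb])
      · exact h (by simp [ha, hb])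
      · exact h (by simp [hdisj a ha, hdisj b hb])
    have hB1 : B.card ≤ 1 := by
      rw [Finset.card_le_one]
      intro a ha b hb
      by_contra hab
      obtain ⟨S, hS, h⟩ := hsep a (hsub B hBF ha) b (hsub B hBF hb) hab
      rw [← hFeq] at hS
      simp only [Finset.mem_insert, Finset.mem_singleton] at hS
      rcases hS with rfl | rfl | rfl | rfl
      · exact h (by simp)
      · exact h (by simp [hsub B hBF ha, hsub B hBF hb])
      · exact h ⟨fun h1 => absurd ha (hdisj a h1), fun h1 => absurd hb (hdisj b h1)⟩
      · exact h (by simp [ha, hb])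
    apply hpow
    apply eq_powerset hFT
    have : T.card ≤ 2 := by
      rw [← hABT]
      exact (Finset.card_union_le A B).trans (by omega)
    calc 2 ^ T.card ≤ 2 ^ 2 := Nat.pow_le_pow_right (by norm_num) this
      _ = F.card := by simp [hm]

end Run7.h223.B2P
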