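import Mathlib

/-! Compression of finite sets of vectors and their coordinatewise sums. -/

set_option linter.unusedSectionVars false

open Finset
open scoped Classical Pointwise

namespace Run7.h223.Sp

variable {ι κ : Type} [Fintype ι] [Fintype κ]

/-- the vectors obtained from tuples of vectors: the sum at the coordinates in `S`, zero elsewhere -/
noncomputable def comb (S : Finset ι) (x : κ → ι → ℕ) : ι → ℕ := fun l => if l ∈ S then ∑ j, x j l else 0

noncomputable def img (S : Finset ι) (A : κ → Finset (ι → ℕ)) : Finset (ι → ℕ) :=
  (Fintype.piFinset A).image (comb S)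

/-- the base point of a fibre -/
noncomputable def base (i : ι) (x : ι → ℕ) : ι → ℕ := Function.update x i 0

/-- the values in the fibre over `b` -/
noncomputable def fibre (i : ι) (A : Finset (ι → ℕ)) (b : ι → ℕ) : Finset ℕ :=
  (A.filter fun x => base i x = base i b).image fun x => x i

/-- compression in the direction `i` -/
noncomputable def cmp (i : ι) (A : Finset (ι → ℕ)) : Finset (ι → ℕ) :=
  A.biUnion fun b => (range (fibre i A b).card).image fun t => Function.update b i t

lemma base_update (i : ι) (x : ι → ℕ) (t : ℕ) : base i (Function.update x i t) = base i x := by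
  unfold base
  simp

lemma base_eq_iff (i : ι) (x y : ι → ℕ) : base i x = base i y ↔ ∀ l, l ≠ i → x l = y l := by
  constructor
  · intro h l hl
    have := congrFun h l
    unfold base at this
    rwa [Function.update_of_ne hl, Function.update_of_ne hl] at this
  · intro h
    funext l
    unfold base
    by_cases hl : l = i
    · subst hl; simp
    · rw [Function.update_of_ne hl, Function.update_of_ne hl, h l hl]

lemma update_eq_of_base (i : ι) (x y : ι → ℕ) (h : base i x = base i y) :
    Function.update x i (y i) = y := by
  rw [base_eq_iff] at h
  funext l
  by_cases hl : l = i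
  · subst hl; simp
  · rw [Function.update_of_ne hl, h l hl]

lemma mem_fibre (i : ι) (A : Finset (ι → ℕ)) (b : ι → ℕ) (t : ℕ) :
    t ∈ fibre i A b ↔ Function.update b i t ∈ A := by
  unfold fibre
  rw [mem_image]
  constructor
  · rintro ⟨x, hx, rfl⟩
    rw [mem_filter] at hx
    rw [update_eq_of_base i b x hx.2.symm]
    exact hx.1
  · intro h
    refine ⟨Function.update b i t, ?_, by simp⟩
    rw [mem_filter]
    exact ⟨h, base_update i b t⟩

lemma fibre_congr (i : ι) (A : Finset (ι → ℕ)) {b c : ι → ℕ} (h : base i b = base i c) :
    fibre i A b = fibre i A c := by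
  unfold fibre
  rw [h]

lemma mem_cmp (i : ι) (A : Finset (ι → ℕ)) (x : ι → ℕ) :
    x ∈ cmp i A ↔ x i < (fibre i A x).card := by
  unfold cmp
  rw [mem_biUnion]
  constructor
  · rintro ⟨b, hb, hx⟩
    rw [mem_image] at hx
    obtain ⟨t, ht, rfl⟩ := hx
    rw [mem_range] at ht
    rw [fibre_congr i A (base_update i b t)]
    simpa using ht
  · intro h
    have hne : (fibre i A x).Nonempty := card_pos.1 (by omega)
    obtain ⟨t, ht⟩ := hne
    rw [mem_fibre] at ht
    refine ⟨_, ht, ?_⟩
    rw [mem_image]
    refine ⟨x i, ?_, ?_⟩
    · rw [mem_range, fibre_congr i A (base_update i x t)]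
      exact h
    · simp

/-- the number of the vectors with a given base -/
lemma card_base_fibre (i : ι) (A : Finset (ι → ℕ)) (b : ι → ℕ) :
    (A.filter fun x => base i x = base i b).card = (fibre i A b).card := by
  unfold fibre
  rw [card_image_of_injOn]
  intro x hx y hy hxy
  rw [mem_coe, mem_filter] at hx hy
  simp only at hxy
  have h : base i x = base i y := hx.2.trans hy.2.symm
  rw [← update_eq_of_base i x y h, ← hxy]
  simp

lemma fibre_cmp (i : ι) (A : Finset (ι → ℕ)) (b : ι → ℕ) :
    fibre i (cmp i A) b = range (fibre i A b).card := by
  ext t
  rw [mem_fibre, mem_cmp, fibre_congr i A (base_update i b t), mem_range]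
  simp

lemma card_cmp (i : ι) (A : Finset (ι → ℕ)) : (cmp i A).card = A.card := by
  have key : ∀ X : Finset (ι → ℕ), ∀ T : Finset (ι → ℕ), (∀ x ∈ X, base i x ∈ T) →
      X.card = ∑ b ∈ T, (X.filter fun x => base i x = b).card := fun X T hT =>
    card_eq_sum_card_fiberwise hT
  set T := (A.image (base i)) ∪ ((cmp i A).image (base i))
  rw [key A T (fun x hx => mem_union_left _ (mem_image_of_mem _ hx)),
    key (cmp i A) T (fun x hx => mem_union_right _ (mem_image_of_mem _ hx))]
  apply sum_congr rfl
  intro b hb
  have hbb : b = base i b := by
    rw [mem_union, mem_image, mem_image] at hb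
    rcases hb with ⟨y, _, rfl⟩ | ⟨y, _, rfl⟩
    · exact (base_update i y 0).symm
    · exact (base_update i y 0).symm
  rw [hbb]
  rw [card_base_fibre, card_base_fibre, fibre_cmp, card_range]

/-- sums of finite sets of natural numbers -/
lemma card_sums (T : κ → Finset ℕ) (hT : ∀ j, (T j).Nonempty) :
    ∑ j, ((T j).card - 1) + 1 ≤ ((Fintype.piFinset T).image fun t => ∑ j, t j).card := by
  have key : ∀ s : Finset κ, ∑ j ∈ s, ((T j).card - 1) + 1 ≤
      ((Fintype.piFinset T).image fun t => ∑ j ∈ s, t j).card := by
    intro s
    induction s using Finset.induction_on with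
    | empty =>
      simp only [sum_empty, zero_add]
      rw [Nat.one_le_iff_ne_zero, Ne, card_eq_zero, ← Ne, ← nonempty_iff_ne_empty]
      apply Nonempty.image
      rw [Fintype.piFinset_nonempty]
      exact hT
    | insert a s ha ih =>
      have h1 : T a + (Fintype.piFinset T).image (fun t => ∑ j ∈ s, t j) ⊆
          (Fintype.piFinset T).image fun t => ∑ j ∈ insert a s, t j := by
        intro v hv
        rw [mem_add] at hv
        obtain ⟨u, hu, w, hw, rfl⟩ := hv
        rw [mem_image] at hw
        obtain ⟨t, ht, rfl⟩ := hw
        rw [mem_image]
        refine ⟨Function.update t a u, ?_, ?_⟩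
        · rw [Fintype.mem_piFinset] at ht ⊢
          intro j
          by_cases hj : j = a
          · subst hj; simpa using hu
          · rw [Function.update_of_ne hj]; exact ht j
        · rw [sum_insert ha]
          congr 1
          · simp
          · apply sum_congr rfl
            intro j hj
            rw [Function.update_of_ne]
            rintro rfl
            exact ha hj
      have h2 := cauchy_davenport_add_of_linearOrder_isCancelAdd (hT a)
        (show ((Fintype.piFinset T).image (fun t => ∑ j ∈ s, t j)).Nonempty by
          apply Nonempty.image
          rw [Fintype.piFinset_nonempty]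
          exact hT)
      have h3 := card_le_card h1
      have h4 : 0 < (T a).card := card_pos.2 (hT a)
      rw [sum_insert ha]
      omega
  exact key univ

/-- compression does not increase the number of the coordinatewise sums -/
lemma card_img_cmp (i : ι) (S : Finset ι) (A : κ → Finset (ι → ℕ)) :
    (img S fun j => cmp i (A j)).card ≤ (img S A).card := by
  by_cases hi : i ∈ S
  · have key : ∀ X : Finset (ι → ℕ), ∀ T : Finset (ι → ℕ), (∀ x ∈ X, base i x ∈ T) →
        X.card = ∑ b ∈ T, (X.filter fun x => base i x = b).card := fun X T hT =>
      card_eq_sum_card_fiberwise hT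
    set T := ((img S A).image (base i)) ∪ ((img S fun j => cmp i (A j)).image (base i))
    rw [key (img S A) T (fun x hx => mem_union_left _ (mem_image_of_mem _ hx)),
      key (img S fun j => cmp i (A j)) T (fun x hx => mem_union_right _ (mem_image_of_mem _ hx))]
    apply sum_le_sum
    intro b hb
    set L := (img S fun j => cmp i (A j)).filter fun x => base i x = b with hL
    by_cases hne : L.Nonempty
    · obtain ⟨z, hz, hmax⟩ := exists_max_image L (fun x => x i) hne
      have h1 : L.card ≤ z i + 1 := by
        calc L.card = (L.image fun x => x i).card := by
              rw [card_image_of_injOn]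
              intro x hx y hy hxy
              rw [mem_coe, hL, mem_filter] at hx hy
              simp only at hxy
              have h : base i x = base i y := hx.2.trans hy.2.symm
              rw [← update_eq_of_base i x y h, ← hxy]
              simp
          _ ≤ (range (z i + 1)).card := by
              apply card_le_card
              intro t ht
              rw [mem_image] at ht
              obtain ⟨x, hx, rfl⟩ := ht
              rw [mem_range]
              have := hmax x hx
              omega
          _ = _ := card_range _
      refine h1.trans ?_
      rw [hL, mem_filter] at hz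
      obtain ⟨hz1, hz2⟩ := hz
      unfold img at hz1
      rw [mem_image] at hz1
      obtain ⟨x, hx, rfl⟩ := hz1
      rw [Fintype.mem_piFinset] at hx
      have hx' : ∀ j, x j i < (fibre i (A j) (x j)).card := fun j => (mem_cmp i (A j) (x j)).1 (hx j)
      have h2 := card_sums (fun j => fibre i (A j) (x j)) (fun j => card_pos.1 (by have := hx' j; omega))
      have h3 : comb S x i = ∑ j, x j i := by
        unfold comb
        rw [if_pos hi]
      have h4 : ∑ j, x j i ≤ ∑ j, ((fibre i (A j) (x j)).card - 1) := by
        apply sum_le_sum
        intro j _
        have := hx' j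
        omega
      rw [h3]
      refine (Nat.add_le_add_right h4 1).trans (h2.trans ?_)
      apply card_le_card_of_injOn (fun v => Function.update b i v)
      · intro v hv
        rw [mem_coe, mem_image] at hv
        obtain ⟨t, ht, rfl⟩ := hv
        rw [Fintype.mem_piFinset] at ht
        rw [mem_coe, mem_filter]
        constructor
        · unfold img
          rw [mem_image]
          refine ⟨fun j => Function.update (x j) i (t j), ?_, ?_⟩
          · rw [Fintype.mem_piFinset]
            intro j
            exact (mem_fibre i (A j) (x j) (t j)).1 (ht j)
          · funext l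
            by_cases hl : l = i
            · subst hl
              unfold comb
              rw [if_pos hi]
              simp
            · have h5 : b l = comb S x l := by
                rw [← hz2]
                unfold base
                rw [Function.update_of_ne hl]
              change comb S (fun j => Function.update (x j) i (t j)) l = Function.update b i (∑ j, t j) l
              rw [Function.update_of_ne hl, h5]
              unfold comb
              split_ifs with hlS
              · apply sum_congr rfl
                intro j _
                exact Function.update_of_ne hl _ _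
              · rfl
        · rw [base_update, ← hz2]
          exact base_update i _ 0
      · intro v _ w _ hvw
        have := congrFun hvw i
        simpa using this
    · rw [not_nonempty_iff_eq_empty] at hne
      rw [hne]
      simp
  · apply card_le_card
    intro z hz
    unfold img at hz ⊢
    rw [mem_image] at hz ⊢
    obtain ⟨x, hx, rfl⟩ := hz
    rw [Fintype.mem_piFinset] at hx
    have h1 : ∀ j, ∃ y ∈ A j, base i y = base i (x j) := by
      intro j
      have h2 := (mem_cmp i (A j) (x j)).1 (hx j)
      have hne : (fibre i (A j) (x j)).Nonempty := card_pos.1 (by omega)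
      obtain ⟨t, ht⟩ := hne
      rw [mem_fibre] at ht
      exact ⟨_, ht, base_update i _ _⟩
    choose y hy hyb using h1
    refine ⟨y, ?_, ?_⟩
    · rw [Fintype.mem_piFinset]
      exact hy
    · funext l
      unfold comb
      split_ifs with hl
      · apply sum_congr rfl
        intro j _
        have hli : l ≠ i := by
          rintro rfl
          exact hi hl
        exact (base_eq_iff i (y j) (x j)).1 (hyb j) l hli
      · rfl

/-- closed downwards in the direction `i` -/
def Low (i : ι) (A : Finset (ι → ℕ)) : Prop := ∀ x ∈ A, ∀ t, t ≤ x i → Function.update x i t ∈ A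

lemma low_cmp (i : ι) (A : Finset (ι → ℕ)) : Low i (cmp i A) := by
  intro x hx t ht
  rw [mem_cmp] at hx ⊢
  rw [fibre_congr i A (base_update i x t)]
  simp only [Function.update_self]
  omega

lemma low_cmp_of (i l : ι) (A : Finset (ι → ℕ)) (h : Low i A) : Low i (cmp l A) := by
  by_cases hil : i = l
  · subst hil; exact low_cmp i A
  · intro x hx t ht
    rw [mem_cmp] at hx ⊢
    have h1 : fibre l A x ⊆ fibre l A (Function.update x i t) := by
      intro v hv
      rw [mem_fibre] at hv ⊢
      have h2 := h _ hv t (by rw [Function.update_of_ne hil]; exact ht)
      rwa [Function.update_comm (Ne.symm hil)] at h2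
    rw [Function.update_of_ne (Ne.symm hil)]
    exact lt_of_lt_of_le hx (card_le_card h1)

/-- full compression -/
lemma exists_low (s : Finset ι) : ∃ D : Finset (ι → ℕ) → Finset (ι → ℕ),
    (∀ A, (D A).card = A.card) ∧ (∀ A, ∀ i ∈ s, Low i (D A)) ∧
    (∀ (κ : Type) [Fintype κ] (S : Finset ι) (A : κ → Finset (ι → ℕ)),
      (img S fun j => D (A j)).card ≤ (img S A).card) := by
  induction s using Finset.induction_on with
  | empty =>
    refine ⟨id, fun A => rfl, ?_, fun κ _ S A => le_rfl⟩
    intro A i hi
    simp at hi
  | insert a s ha ih =>
    obtain ⟨D, h1, h2, h3⟩ := ih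
    refine ⟨fun A => cmp a (D A), fun A => by rw [card_cmp, h1], ?_, ?_⟩
    · intro A i hi
      rw [mem_insert] at hi
      rcases hi with rfl | hi
      · exact low_cmp _ _
      · exact low_cmp_of i a _ (h2 A i hi)
    · intro κ _ S A
      exact (card_img_cmp a S fun j => D (A j)).trans (h3 κ S A)

lemma mem_of_le {D : Finset (ι → ℕ)} (hD : ∀ i, Low i D) {x y : ι → ℕ} (hx : x ∈ D) (hy : y ≤ x) :
    y ∈ D := by
  have key : ∀ s : Finset ι, (fun l => if l ∈ s then y l else x l) ∈ D := by
    intro s
    induction s using Finset.induction_on with
    | empty => simpa using hx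
    | insert a s ha ih =>
      have h1 := hD a _ ih (y a) (by rw [if_neg ha]; exact hy a)
      convert h1 using 1
      funext l
      by_cases hl : l = a
      · subst hl; simp
      · rw [Function.update_of_ne hl]
        simp [hl]
  have := key univ
  simpa using this

end Run7.h223.Sp
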