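import Pool.Agent.Run7.h223.SpA

set_option linter.unusedSectionVars false

open Finset
open scoped Classical

namespace Run7.h223.Sp

variable {ι κ : Type} [Fintype ι] [Fintype κ]

/-- the patterns of the vectors in `A` on the set `S` of coordinates -/
noncomputable def pats (S : Finset ι) (A : Finset (ι → ℕ)) : Finset (ι → ℕ) :=
  A.image fun x l => if l ∈ S then x l else 0

lemma pats_eq [Unique κ] (S : Finset ι) (A : Finset (ι → ℕ)) : pats S A = img S (fun _ : κ => A) := by
  ext z
  unfold pats img
  rw [mem_image, mem_image]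
  constructor
  · rintro ⟨x, hx, rfl⟩
    refine ⟨fun _ => x, by rw [Fintype.mem_piFinset]; intro _; exact hx, ?_⟩
    funext l
    unfold comb
    simp
  · rintro ⟨x, hx, rfl⟩
    rw [Fintype.mem_piFinset] at hx
    refine ⟨x default, hx default, ?_⟩
    funext l
    unfold comb
    simp

lemma comb_univ (x : κ → ι → ℕ) : comb univ x = ∑ j, x j := by
  funext l
  unfold comb
  simp

/-- the size of a box -/
noncomputable def box (x : ι → ℕ) : ℕ := ∏ l, (x l + 1)

lemma card_Icc_zero (x : ι → ℕ) : (Icc 0 x).card = box x := by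
  rw [Pi.card_Icc]
  unfold box
  apply prod_congr rfl
  intro l _
  simp

lemma sum_add_one_le_prod (s : Finset κ) (a : κ → ℕ) : ∑ j ∈ s, a j + 1 ≤ ∏ j ∈ s, (a j + 1) := by
  induction s using Finset.induction_on with
  | empty => simp
  | insert b s hb ih =>
    rw [sum_insert hb, prod_insert hb]
    calc a b + ∑ j ∈ s, a j + 1 ≤ (a b + 1) * (∑ j ∈ s, a j + 1) := by ring_nf; nlinarith [Nat.zero_le (a b * ∑ j ∈ s, a j)]
      _ ≤ _ := Nat.mul_le_mul_left _ ih

lemma box_sum_le (x : κ → ι → ℕ) : box (∑ j, x j) ≤ ∏ j, box (x j) := by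
  unfold box
  rw [prod_comm]
  apply prod_le_prod'
  intro l _
  rw [Finset.sum_apply]
  exact sum_add_one_le_prod univ fun j => x j l

/-- boxes in closed-down sets are bounded by the numbers of patterns -/
lemma box_le {A D : Finset (ι → ℕ)} (hD : ∀ i, Low i D)
    (hp : ∀ S, (pats S D).card ≤ (pats S A).card) {M : ℕ}
    (hM : ∀ S : Finset ι, 2 ^ S.card ≤ (pats S A).card → (pats S A).card ≤ M)
    {x : ι → ℕ} (hx : x ∈ D) : box x ≤ M := by
  set S : Finset ι := univ.filter fun l => x l ≠ 0 with hS
  have h1 : box x ≤ (pats S D).card := by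
    rw [← card_Icc_zero]
    unfold pats
    rw [← card_image_of_injOn (f := fun (y : ι → ℕ) l => if l ∈ S then y l else 0) (s := Icc 0 x)]
    · apply card_le_card
      apply image_subset_image
      intro y hy
      rw [mem_Icc] at hy
      exact mem_of_le hD hx hy.2
    · intro y hy z hz h
      rw [mem_coe, mem_Icc] at hy hz
      funext l
      have h2 := congrFun h l
      simp only at h2
      by_cases hl : l ∈ S
      · rwa [if_pos hl, if_pos hl] at h2
      · have h3 : x l = 0 := by
          by_contra hne
          exact hl (by rw [hS, mem_filter]; exact ⟨mem_univ _, hne⟩)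
        have h4 : y l ≤ x l := hy.2 l
        have h5 : z l ≤ x l := hz.2 l
        omega
  have h2 : 2 ^ S.card ≤ box x := by
    unfold box
    calc 2 ^ S.card = ∏ _l ∈ S, 2 := by rw [prod_const]
      _ ≤ ∏ l ∈ S, (x l + 1) := by
          apply prod_le_prod'
          intro l hl
          rw [hS, mem_filter] at hl
          omega
      _ ≤ _ := by
          apply prod_le_prod_of_subset_of_one_le' (subset_univ _)
          intro l _ _
          omega
  exact (h1.trans (hp S)).trans (hM S (h2.trans (h1.trans (hp S))))

/-- the main inequality for vectors -/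
theorem vectors [Nonempty κ] (A : κ → Finset (ι → ℕ)) (M : κ → ℕ)
    (hM : ∀ j, ∀ S : Finset ι, 2 ^ S.card ≤ (pats S (A j)).card → (pats S (A j)).card ≤ M j) :
    ∏ j, (A j).card ≤ (∏ j, M j) ^ (Fintype.card κ - 1) *
      ((Fintype.piFinset A).image fun x => ∑ j, x j).card := by
  obtain ⟨D, hcard, hlow, himg⟩ := exists_low (univ : Finset ι)
  have hpats : ∀ j S, (pats S (D (A j))).card ≤ (pats S (A j)).card := by
    intro j S
    rw [pats_eq (κ := Unit), pats_eq (κ := Unit)]
    exact himg Unit S fun _ => A j
  have hbox : ∀ j, ∀ x ∈ D (A j), box x ≤ M j := fun j x hx =>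
    box_le (fun i => hlow (A j) i (mem_univ i)) (hpats j) (hM j) hx
  have h1 : ((Fintype.piFinset fun j => D (A j)).image fun x => ∑ j, x j).card
      ≤ ((Fintype.piFinset A).image fun x => ∑ j, x j).card := by
    have := himg κ univ A
    unfold img at this
    have e : (comb univ : (κ → ι → ℕ) → ι → ℕ) = fun x => ∑ j, x j := by
      funext x
      exact comb_univ x
    rwa [e] at this
  obtain ⟨j0⟩ := ‹Nonempty κ›
  have h2 : (Fintype.piFinset fun j => D (A j)).card ≤ (∏ j, M j) ^ (Fintype.card κ - 1) *
      ((Fintype.piFinset fun j => D (A j)).image fun x => ∑ j, x j).card := by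
    apply card_le_mul_card_image
    intro z hz
    rw [mem_image] at hz
    obtain ⟨x0, hx0, rfl⟩ := hz
    rw [Fintype.mem_piFinset] at hx0
    have h3 : ((Fintype.piFinset fun j => D (A j)).filter fun x => ∑ j, x j = ∑ j, x0 j).card
        ≤ (Fintype.piFinset fun _ : {j // j ≠ j0} => Icc 0 (∑ j, x0 j)).card := by
      apply card_le_card_of_injOn (fun x (j : {j // j ≠ j0}) => x j.1)
      · intro x hx
        rw [mem_coe, mem_filter] at hx
        rw [mem_coe, Fintype.mem_piFinset]
        intro j
        rw [mem_Icc]
        refine ⟨fun l => Nat.zero_le _, ?_⟩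
        rw [← hx.2]
        intro l
        rw [Finset.sum_apply]
        exact single_le_sum (f := fun c => x c l) (fun _ _ => Nat.zero_le _) (mem_univ j.1)
      · intro x hx y hy hxy
        rw [mem_coe, mem_filter] at hx hy
        have h4 : ∀ j, j ≠ j0 → x j = y j := fun j hj => congrFun hxy ⟨j, hj⟩
        funext j
        by_cases hj : j = j0
        · subst hj
          have h5 : ∑ c, x c = ∑ c, y c := hx.2.trans hy.2.symm
          rw [← add_sum_erase univ x (mem_univ j), ← add_sum_erase univ y (mem_univ j)] at h5
          have h6 : ∑ c ∈ univ.erase j, x c = ∑ c ∈ univ.erase j, y c :=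
            sum_congr rfl fun c hc => h4 c (ne_of_mem_erase hc)
          rw [h6] at h5
          exact add_right_cancel h5
        · exact h4 j hj
    refine h3.trans ?_
    rw [Fintype.card_piFinset, prod_const, card_univ, Fintype.card_subtype_compl,
      Fintype.card_subtype_eq, card_Icc_zero]
    apply Nat.pow_le_pow_left
    calc box (∑ j, x0 j) ≤ ∏ j, box (x0 j) := box_sum_le x0
      _ ≤ _ := by
        apply prod_le_prod'
        intro j _
        exact hbox j _ (hx0 j)
  calc ∏ j, (A j).card = (Fintype.piFinset fun j => D (A j)).card := by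
        rw [Fintype.card_piFinset]
        exact prod_congr rfl fun j _ => (hcard (A j)).symm
    _ ≤ _ := h2
    _ ≤ _ := Nat.mul_le_mul_left _ h1

end Run7.h223.Sp
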