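import Pool.Agent.Run7.h223.SpB

/-! Sums of set families: a sharp inequality in terms of the VC dimensions. -/

set_option linter.unusedSectionVars false

open Finset
open scoped Classical Nat

namespace Run7.h223.Sp

variable {ι κ : Type} [Fintype ι] [Fintype κ]

/-- the number of matrices with given column sums and bounded row sums -/
theorem matrices : ∀ (n : ℕ) (d : κ → ℕ) (z : ι → ℕ), ∑ l, z l = n → ∀ T : Finset (κ → ι → ℕ),
    (∀ x ∈ T, ∑ j, x j = z ∧ ∀ j, ∑ l, x j l ≤ d j) →
    T.card * ∏ j, (d j)! ≤ (∑ j, d j)! := by
  intro n
  induction n with
  | zero =>
    intro d z hz T hT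
    have h1 : T ⊆ {0} := by
      intro x hx
      rw [mem_singleton]
      funext j l
      have h2 := (hT x hx).1
      have h3 : z l = 0 := by
        rw [sum_eq_zero_iff] at hz
        exact hz l (mem_univ l)
      have h4 : ∑ c, x c l = 0 := by
        rw [← h3, ← h2, Finset.sum_apply]
      rw [sum_eq_zero_iff] at h4
      exact h4 j (mem_univ j)
    have h2 : T.card ≤ 1 := by
      simpa using card_le_card h1
    calc T.card * ∏ j, (d j)! ≤ 1 * ∏ j, (d j)! := Nat.mul_le_mul_right _ h2
      _ = ∏ j, (d j)! := one_mul _
      _ ≤ (∑ j, d j)! := Nat.le_of_dvd (Nat.factorial_pos _) (Nat.prod_factorial_dvd_factorial_sum univ d)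
  | succ n ih =>
    intro d z hz T hT
    obtain ⟨l, hl⟩ : ∃ l, z l ≠ 0 := by
      by_contra hcon
      push Not at hcon
      rw [sum_eq_zero fun l _ => hcon l] at hz
      omega
    set P : ℕ := ∏ j, (d j)! with hP
    set N : ℕ := ∑ j, d j with hN
    have hcover : T ⊆ univ.biUnion fun j : κ => T.filter fun x => x j l ≠ 0 := by
      intro x hx
      rw [mem_biUnion]
      have h2 : ∑ c, x c l ≠ 0 := by
        rw [← Finset.sum_apply, (hT x hx).1]
        exact hl
      obtain ⟨j, hj1, hj2⟩ := exists_ne_zero_of_sum_ne_zero h2
      exact ⟨j, mem_univ j, by rw [mem_filter]; exact ⟨hx, hj2⟩⟩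
    have hpart : ∀ j : κ, (T.filter fun x => x j l ≠ 0).card * P ≤ d j * (N - 1)! := by
      intro j
      rcases (T.filter fun x => x j l ≠ 0).eq_empty_or_nonempty with he | ⟨x0, hx0⟩
      · rw [he]; simp
      · rw [mem_filter] at hx0
        have hdj : 1 ≤ d j := by
          have h3 := (hT x0 hx0.1).2 j
          have h4 := single_le_sum (f := fun l => x0 j l) (fun _ _ => Nat.zero_le _) (mem_univ l)
          have h5 : x0 j l ≤ ∑ l, x0 j l := h4
          omega
        let e : (κ → ι → ℕ) → κ → ι → ℕ := fun x =>
          Function.update x j (Function.update (x j) l (x j l - 1))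
        have he : ∀ x ∈ T.filter (fun x => x j l ≠ 0), ∀ c m,
            x c m = e x c m + if c = j ∧ m = l then 1 else 0 := by
          intro x hx c m
          rw [mem_filter] at hx
          by_cases hc : c = j
          · subst hc
            by_cases hm : m = l
            · subst hm
              simp only [e, Function.update_self, and_self, if_true]
              omega
            · simp [e, hm]
          · simp [e, hc]
        have hinj : Set.InjOn e (T.filter fun x => x j l ≠ 0 : Finset (κ → ι → ℕ)) := by
          intro x hx y hy hxy
          funext c m
          rw [he x hx c m, he y hy c m, hxy]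
        rw [← card_image_of_injOn hinj]
        have h5 := ih (Function.update d j (d j - 1)) (Function.update z l (z l - 1)) ?_
          ((T.filter fun x => x j l ≠ 0).image e) ?_
        · have h6 : ∑ c, Function.update d j (d j - 1) c = N - 1 := by
            rw [hN, sum_update_of_mem (mem_univ j), sum_eq_sum_sdiff_singleton_add (mem_univ j) d]
            omega
          have h7 : P = d j * ∏ c, (Function.update d j (d j - 1) c)! := by
            rw [hP, ← mul_prod_erase univ (fun c => (d c)!) (mem_univ j),
              ← mul_prod_erase univ (fun c => (Function.update d j (d j - 1) c)!) (mem_univ j)]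
            rw [Function.update_self, ← mul_assoc, Nat.mul_factorial_pred (by omega)]
            congr 1
            apply prod_congr rfl
            intro c hc
            rw [Function.update_of_ne (ne_of_mem_erase hc)]
          rw [h6] at h5
          rw [h7]
          calc _ = d j * (((T.filter fun x => x j l ≠ 0).image e).card *
                ∏ c, (Function.update d j (d j - 1) c)!) := by ring
            _ ≤ _ := Nat.mul_le_mul_left _ h5
        · rw [sum_update_of_mem (mem_univ l)]
          rw [sum_eq_sum_sdiff_singleton_add (mem_univ l) z] at hz
          omega
        · intro y hy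
          rw [mem_image] at hy
          obtain ⟨x, hx, rfl⟩ := hy
          have hxT := hT x (mem_filter.1 hx).1
          constructor
          · funext m
            have h8 : ∑ c, x c m = z m := by rw [← Finset.sum_apply, hxT.1]
            have h9 : ∑ c, x c m = ∑ c, e x c m + if m = l then 1 else 0 := by
              rw [sum_congr rfl fun c _ => he x hx c m, sum_add_distrib]
              congr 1
              by_cases hm : m = l
              · simp [hm]
              · simp [hm]
            rw [Finset.sum_apply]
            by_cases hm : m = l
            · subst hm
              rw [Function.update_self]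
              rw [if_pos rfl] at h9
              omega
            · rw [Function.update_of_ne hm]
              rw [if_neg hm] at h9
              omega
          · intro c
            have h8 : ∑ m, x c m = ∑ m, e x c m + if c = j then 1 else 0 := by
              rw [sum_congr rfl fun m _ => he x hx c m, sum_add_distrib]
              congr 1
              by_cases hc : c = j
              · simp [hc]
              · simp [hc]
            have h9 := hxT.2 c
            by_cases hc : c = j
            · subst hc
              rw [Function.update_self]
              rw [if_pos rfl] at h8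
              omega
            · rw [Function.update_of_ne hc]
              rw [if_neg hc] at h8
              omega
    rcases T.eq_empty_or_nonempty with hTe | ⟨x0, hx0⟩
    · rw [hTe]; simp
    · have hN1 : 1 ≤ N := by
        have h10 := hT x0 hx0
        have h11 : ∑ l, z l ≤ N := by
          calc ∑ l, z l = ∑ l, ∑ j, x0 j l := by
                apply sum_congr rfl
                intro l _
                rw [← h10.1, Finset.sum_apply]
            _ = ∑ j, ∑ l, x0 j l := sum_comm
            _ ≤ ∑ j, d j := sum_le_sum fun j _ => h10.2 j
        omega
      calc T.card * P ≤ (∑ j : κ, (T.filter fun x => x j l ≠ 0).card) * P :=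
            Nat.mul_le_mul_right _ ((card_le_card hcover).trans card_biUnion_le)
        _ = ∑ j : κ, (T.filter fun x => x j l ≠ 0).card * P := sum_mul _ _ _
        _ ≤ ∑ j, d j * (N - 1)! := sum_le_sum fun j _ => hpart j
        _ = N * (N - 1)! := by rw [← sum_mul]
        _ = N ! := Nat.mul_factorial_pred (by omega)

end Run7.h223.Sp
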