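import Pool.Agent.Run7.h223.SpC

/-! Sums of set families: a sharp inequality in terms of the VC dimensions. -/

set_option linter.unusedSectionVars false

open Finset
open scoped Classical Nat

namespace Run7.h223.Sp

variable {ι κ : Type} [Fintype ι] [Fintype κ]

/-- in a closed-down set, the box below an element is seen on its support -/
lemma box_le_pats {D : Finset (ι → ℕ)} (hD : ∀ i, Low i D) {x : ι → ℕ} (hx : x ∈ D) :
    box x ≤ (pats (univ.filter fun l => x l ≠ 0) D).card := by
  set S : Finset ι := univ.filter fun l => x l ≠ 0 with hS
  rw [← card_Icc_zero]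
  unfold pats
  rw [← card_image_of_injOn (f := fun (y : ι → ℕ) l => if l ∈ S then y l else 0) (s := Icc 0 x)]
  · apply card_le_card
    apply image_subset_image
    intro y hy
    rw [mem_Icc] at hy
    exact mem_of_le hD hx hy.2
  · intro y hy z hz h
    rw [mem_coe, mem_Icc] at hy hz
    funext l
    have h2 := congrFun h l
    simp only at h2
    by_cases hl : l ∈ S
    · rwa [if_pos hl, if_pos hl] at h2
    · have h3 : x l = 0 := by
        by_contra hne
        exact hl (by rw [hS, mem_filter]; exact ⟨mem_univ _, hne⟩)
      have h4 : y l ≤ x l := hy.2 l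
      have h5 : z l ≤ x l := hz.2 l
      omega

/-- the indicator vector of a set -/
noncomputable def ind (X : Finset ι) : ι → ℕ := fun l => if l ∈ X then 1 else 0

lemma ind_injective : Function.Injective (ind : Finset ι → ι → ℕ) := by
  intro X Y h
  ext l
  have := congrFun h l
  unfold ind at this
  by_cases h1 : l ∈ X <;> by_cases h2 : l ∈ Y <;> simp_all

lemma card_pats_ind (F : Finset (Finset ι)) (S : Finset ι) :
    (pats S (F.image ind)).card = (F.image fun X => S ∩ X).card := by
  unfold pats
  rw [image_image]
  have : ((fun (x : ι → ℕ) l => if l ∈ S then x l else 0) ∘ ind) = fun X : Finset ι => ind (S ∩ X) := by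
    funext X l
    simp only [Function.comp, ind, mem_inter]
    by_cases h1 : l ∈ S <;> by_cases h2 : l ∈ X <;> simp [h1, h2]
  rw [this]
  have h2 : F.image (fun X => ind (S ∩ X)) = (F.image fun X => S ∩ X).image ind := by
    rw [image_image]
    rfl
  rw [h2, card_image_of_injective _ ind_injective]

lemma card_traces_le (F : Finset (Finset ι)) (S : Finset ι) :
    (F.image fun X => S ∩ X).card ≤ 2 ^ S.card := by
  rw [← card_powerset]
  apply card_le_card
  intro Y hY
  rw [mem_image] at hY
  obtain ⟨X, _, rfl⟩ := hY
  rw [mem_powerset]
  exact inter_subset_left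

lemma shatters_of_card {F : Finset (Finset ι)} {S : Finset ι}
    (h : 2 ^ S.card ≤ (F.image fun X => S ∩ X).card) : F.Shatters S := by
  rw [shatters_iff]
  apply eq_of_subset_of_card_le
  · intro Y hY
    rw [mem_image] at hY
    obtain ⟨X, _, rfl⟩ := hY
    rw [mem_powerset]
    exact inter_subset_left
  · rw [card_powerset]
    exact h

/-- the multiplicity function of a tuple of sets -/
noncomputable def mult (X : κ → Finset ι) : ι → ℕ := fun l => (univ.filter fun j => l ∈ X j).card

lemma mult_eq (X : κ → Finset ι) : mult X = ∑ j, ind (X j) := by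
  funext l
  rw [Finset.sum_apply]
  unfold mult ind
  rw [card_filter]

/-- **Sums of set families and VC dimension.** -/
theorem families (F : κ → Finset (Finset ι)) (d : κ → ℕ) (hd : ∀ j, (F j).vcDim ≤ d j) :
    (∏ j, (F j).card) * ∏ j, (d j)! ≤
      (∑ j, d j)! * ((Fintype.piFinset F).image mult).card := by
  obtain ⟨D, hcard, hlow, himg⟩ := exists_low (univ : Finset ι)
  set A : κ → Finset (ι → ℕ) := fun j => (F j).image ind with hA
  have hpats : ∀ j S, (pats S (D (A j))).card ≤ (F j |>.image fun X => S ∩ X).card := by
    intro j S
    rw [← card_pats_ind, pats_eq (κ := Unit), pats_eq (κ := Unit)]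
    exact himg Unit S fun _ => A j
  have hdeg : ∀ j, ∀ x ∈ D (A j), ∑ l, x l ≤ d j := by
    intro j x hx
    have hle1 : ∀ l, x l ≤ 1 := by
      intro l
      have h1 : ((Icc 0 (x l)).image fun t => Function.update (0 : ι → ℕ) l t) ⊆ pats {l} (D (A j)) := by
        intro y hy
        rw [mem_image] at hy
        obtain ⟨t, ht, rfl⟩ := hy
        rw [mem_Icc] at ht
        unfold pats
        rw [mem_image]
        refine ⟨Function.update (0 : ι → ℕ) l t, mem_of_le (fun i => hlow (A j) i (mem_univ i)) hx ?_, ?_⟩
        · intro m
          by_cases hm : m = l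
          · subst hm
            rw [Function.update_self]
            exact ht.2
          · rw [Function.update_of_ne hm]
            exact Nat.zero_le _
        · funext m
          by_cases hm : m = l
          · subst hm; simp
          · rw [if_neg (by simpa using hm), Function.update_of_ne hm]
            rfl
      have h2 := (card_le_card h1).trans ((hpats j {l}).trans (card_traces_le _ _))
      rw [card_image_of_injective _ (Function.update_injective (0 : ι → ℕ) l)] at h2
      simp at h2
      omega
    have h3 := box_le_pats (fun i => hlow (A j) i (mem_univ i)) hx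
    set S : Finset ι := univ.filter fun l => x l ≠ 0 with hS
    have h4 : 2 ^ S.card ≤ box x := by
      unfold box
      calc 2 ^ S.card = ∏ _l ∈ S, 2 := by rw [prod_const]
        _ ≤ ∏ l ∈ S, (x l + 1) := by
            apply prod_le_prod'
            intro l hl
            rw [hS, mem_filter] at hl
            omega
        _ ≤ _ := by
            apply prod_le_prod_of_subset_of_one_le' (subset_univ _)
            intro l _ _
            omega
    have h5 : (F j).Shatters S := shatters_of_card (h4.trans (h3.trans (hpats j S)))
    have h6 : ∑ l, x l = S.card := by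
      rw [hS, card_filter]
      apply sum_congr rfl
      intro l _
      have := hle1 l
      by_cases h7 : x l = 0
      · simp [h7]
      · rw [if_pos h7]; omega
    rw [h6]
    exact h5.card_le_vcDim.trans (hd j)
  have h1 : ((Fintype.piFinset fun j => D (A j)).image fun x => ∑ j, x j).card
      ≤ ((Fintype.piFinset F).image mult).card := by
    have h2 := himg κ univ A
    unfold img at h2
    have e : (comb univ : (κ → ι → ℕ) → ι → ℕ) = fun x => ∑ j, x j := by
      funext x
      exact comb_univ x
    rw [e] at h2
    refine h2.trans (card_le_card ?_)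
    intro z hz
    rw [mem_image] at hz
    obtain ⟨x, hx, rfl⟩ := hz
    rw [Fintype.mem_piFinset] at hx
    have h3 : ∀ j, ∃ X ∈ F j, ind X = x j := fun j => by
      have := hx j
      rwa [hA, mem_image] at this
    choose X hX hXx using h3
    rw [mem_image]
    refine ⟨X, by rw [Fintype.mem_piFinset]; exact hX, ?_⟩
    rw [mult_eq]
    exact sum_congr rfl fun j _ => hXx j
  have h2 : (Fintype.piFinset fun j => D (A j)).card * ∏ j, (d j)! ≤
      (∑ j, d j)! * ((Fintype.piFinset fun j => D (A j)).image fun x => ∑ j, x j).card := by
    rw [card_eq_sum_card_image (fun x => ∑ j, x j) (Fintype.piFinset fun j => D (A j)), sum_mul,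
      mul_comm, ← smul_eq_mul]
    apply sum_le_card_nsmul
    intro z _
    apply matrices _ _ z rfl
    intro x hx
    rw [mem_filter, Fintype.mem_piFinset] at hx
    exact ⟨hx.2, fun j => hdeg j _ (hx.1 j)⟩
  have h3 : ∏ j, (F j).card = (Fintype.piFinset fun j => D (A j)).card := by
    rw [Fintype.card_piFinset]
    apply prod_congr rfl
    intro j _
    rw [hcard (A j), hA, card_image_of_injective _ ind_injective]
  rw [h3]
  exact h2.trans (Nat.mul_le_mul_left _ h1)

/-- the same with arbitrary instances -/
theorem families' [dι : DecidableEq ι] [dκ : DecidableEq κ] (F : κ → Finset (Finset ι)) (d : κ → ℕ)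
    (hd : ∀ j, (F j).vcDim ≤ d j) :
    (∏ j, (F j).card) * ∏ j, (d j)! ≤
      (∑ j, d j)! * ((Fintype.piFinset F).image mult).card := by
  have e1 : dι = fun a b => Classical.propDecidable (a = b) := Subsingleton.elim _ _
  have e2 : dκ = fun a b => Classical.propDecidable (a = b) := Subsingleton.elim _ _
  subst e1
  subst e2
  exact families F d hd

end Run7.h223.Sp
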