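import Pool.Agent.Run7.h223.SpD

/-! Products of finite sets of integers: the number of products and the VC dimension. -/

set_option linter.unusedSectionVars false

open Finset
open scoped Classical Nat

namespace Run7.h223.Sp

variable {κ : Type} [Fintype κ]

/-- the primes occurring in the elements of the sets -/
noncomputable def primesOf (A : κ → Finset ℕ) : Finset ℕ :=
  univ.biUnion fun j => (A j).biUnion Nat.primeFactors

lemma mem_primesOf {A : κ → Finset ℕ} {j : κ} {a : ℕ} (ha : a ∈ A j) {p : ℕ} (hp : p ∈ a.primeFactors) :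
    p ∈ primesOf A := by
  unfold primesOf
  rw [mem_biUnion]
  exact ⟨j, mem_univ j, by rw [mem_biUnion]; exact ⟨a, ha, hp⟩⟩

lemma prime_of_mem {A : κ → Finset ℕ} {p : ℕ} (hp : p ∈ primesOf A) : p.Prime := by
  unfold primesOf at hp
  rw [mem_biUnion] at hp
  obtain ⟨j, _, hp⟩ := hp
  rw [mem_biUnion] at hp
  obtain ⟨a, _, hp⟩ := hp
  exact Nat.prime_of_mem_primeFactors hp

lemma card_image_le_of {α β γ : Type} [DecidableEq β] [DecidableEq γ] (A : Finset α) (f : α → β)
    (g : α → γ)
    (h : ∀ a ∈ A, ∀ b ∈ A, g a = g b → f a = f b) : (A.image f).card ≤ (A.image g).card := by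
  have h1 : ∀ y ∈ A.image g, ∃ a ∈ A, g a = y := fun y hy => by
    rwa [mem_image] at hy
  choose c hc1 hc2 using h1
  have h2 : A.image f ⊆ (A.image g).attach.image fun y => f (c y.1 y.2) := by
    intro z hz
    rw [mem_image] at hz
    obtain ⟨a, ha, rfl⟩ := hz
    rw [mem_image]
    refine ⟨⟨g a, mem_image_of_mem g ha⟩, mem_attach _ _, ?_⟩
    exact h _ (hc1 _ _) _ ha (hc2 _ _)
  refine (card_le_card h2).trans (card_image_le.trans ?_)
  rw [card_attach]

/-- the primes of `P` that divide `a` -/
noncomputable def tr (P : Finset ℕ) (a : ℕ) : Finset {p // p ∈ P} :=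
  univ.filter fun p => (p : ℕ) ∈ a.primeFactors

lemma vcDim_tr_le (P : Finset ℕ) (A : Finset ℕ) :
    (A.image (tr P)).vcDim ≤ (A.image Nat.primeFactors).vcDim := by
  unfold vcDim
  apply Finset.sup_le
  intro S hS
  rw [mem_shatterer] at hS
  have h1 : (A.image Nat.primeFactors).Shatters (S.map (Function.Embedding.subtype _)) := by
    intro t ht
    obtain ⟨u, hu, hSu⟩ := hS (filter_subset (fun p : {p // p ∈ P} => (p : ℕ) ∈ t) S)
    rw [mem_image] at hu
    obtain ⟨a, ha, rfl⟩ := hu
    refine ⟨a.primeFactors, mem_image_of_mem _ ha, ?_⟩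
    ext p
    rw [mem_inter, mem_map]
    constructor
    · rintro ⟨⟨q, hq, rfl⟩, hp⟩
      have h2 : q ∈ S ∩ tr P a := by
        rw [mem_inter]
        refine ⟨hq, ?_⟩
        unfold tr
        rw [mem_filter]
        exact ⟨mem_univ _, hp⟩
      rw [hSu, mem_filter] at h2
      exact h2.2
    · intro hp
      have h2 := ht hp
      rw [mem_map] at h2
      obtain ⟨q, hq, rfl⟩ := h2
      have h3 : q ∈ S.filter fun p : {p // p ∈ P} => (p : ℕ) ∈ t := by
        rw [mem_filter]
        exact ⟨hq, hp⟩
      rw [← hSu, mem_inter] at h3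
      unfold tr at h3
      rw [mem_filter] at h3
      exact ⟨⟨q, hq, rfl⟩, h3.2.2⟩
  have h2 := h1.card_le_vcDim
  rw [card_map] at h2
  exact h2

lemma fact_squarefree {a : ℕ} (ha : Squarefree a) (p : ℕ) :
    a.factorization p = if p ∈ a.primeFactors then 1 else 0 := by
  by_cases h : p ∈ a.primeFactors
  · rw [if_pos h]
    have h1 := ha.natFactorization_le_one p
    have h2 : a.factorization p ≠ 0 := by
      rw [← Nat.support_factorization] at h
      exact Finsupp.mem_support_iff.1 h
    omega
  · rw [if_neg h]
    rw [← Nat.support_factorization] at h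
    exact Finsupp.notMem_support_iff.1 h

/-- **Products of squarefree integers and VC dimension.** -/
theorem squarefree_products [dκ : DecidableEq κ] (A : κ → Finset ℕ) (hA : ∀ j, ∀ a ∈ A j, Squarefree a) (d : κ → ℕ)
    (hd : ∀ j, ((A j).image Nat.primeFactors).vcDim ≤ d j) :
    (∏ j, (A j).card) * ∏ j, (d j)! ≤
      (∑ j, d j)! * ((Fintype.piFinset A).image fun x => ∏ j, x j).card := by
  have e2 : dκ = fun a b => Classical.propDecidable (a = b) := Subsingleton.elim _ _
  subst e2
  set P : Finset ℕ := primesOf A with hP
  have hinj : ∀ j, Set.InjOn (tr P) (A j : Set ℕ) := by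
    intro j a ha b hb hab
    rw [mem_coe] at ha hb
    have h1 : a.primeFactors = b.primeFactors := by
      ext p
      constructor
      · intro hp
        have h2 : (⟨p, mem_primesOf ha hp⟩ : {p // p ∈ P}) ∈ tr P a := by
          unfold tr
          rw [mem_filter]
          exact ⟨mem_univ _, hp⟩
        rw [hab] at h2
        unfold tr at h2
        rw [mem_filter] at h2
        exact h2.2
      · intro hp
        have h2 : (⟨p, mem_primesOf hb hp⟩ : {p // p ∈ P}) ∈ tr P b := by
          unfold tr
          rw [mem_filter]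
          exact ⟨mem_univ _, hp⟩
        rw [← hab] at h2
        unfold tr at h2
        rw [mem_filter] at h2
        exact h2.2
    rw [← Nat.prod_primeFactors_of_squarefree (hA j a ha),
      ← Nat.prod_primeFactors_of_squarefree (hA j b hb), h1]
  have hvc : ∀ j, ((A j).image (tr P)).vcDim ≤ d j := fun j => (vcDim_tr_le P (A j)).trans (hd j)
  have h := families' (fun j => (A j).image (tr P)) d hvc
  have h1 : ∀ j, ((A j).image (tr P)).card = (A j).card := fun j => card_image_of_injOn (hinj j)
  simp only [h1] at h
  refine h.trans (Nat.mul_le_mul_left _ ?_)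
  have h2 : (Fintype.piFinset fun j => (A j).image (tr P)).image mult ⊆
      ((Fintype.piFinset A).image fun x => ∏ j, x j).image
        fun z => fun p : {p // p ∈ P} => z.factorization (p : ℕ) := by
    intro y hy
    rw [mem_image] at hy
    obtain ⟨X, hX, rfl⟩ := hy
    rw [Fintype.mem_piFinset] at hX
    have h3 : ∀ j, ∃ a ∈ A j, tr P a = X j := fun j => by
      have := hX j
      rwa [mem_image] at this
    choose x hx hxX using h3
    rw [image_image, mem_image]
    refine ⟨x, by rw [Fintype.mem_piFinset]; exact hx, ?_⟩
    funext p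
    simp only [Function.comp]
    rw [Nat.factorization_prod fun j _ => (hA j (x j) (hx j)).ne_zero]
    rw [Finsupp.finsetSum_apply]
    unfold mult
    rw [card_filter]
    apply sum_congr rfl
    intro j _
    rw [fact_squarefree (hA j (x j) (hx j)), ← hxX j]
    unfold tr
    simp
  exact (card_le_card h2).trans card_image_le

/-- the part of `a` composed of the primes in `S` -/
noncomputable def part (S : Finset ℕ) (a : ℕ) : ℕ := ∏ p ∈ S, p ^ a.factorization p

lemma part_eq_iff {S : Finset ℕ} (hS : ∀ p ∈ S, p.Prime) (a b : ℕ) :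
    part S a = part S b ↔ ∀ p ∈ S, a.factorization p = b.factorization p := by
  have key : ∀ (a : ℕ), ∀ p ∈ S, (part S a).factorization p = a.factorization p := by
    intro a p hp
    unfold part
    rw [Nat.factorization_prod fun q hq => pow_ne_zero _ (hS q hq).ne_zero, Finsupp.finsetSum_apply]
    rw [sum_eq_single p]
    · rw [(hS p hp).factorization_pow]
      simp
    · intro q hq hqp
      rw [(hS q hq).factorization_pow]
      simp [hqp]
    · intro h; exact absurd hp h
  constructor
  · intro h p hp
    rw [← key a p hp, ← key b p hp, h]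
  · intro h
    unfold part
    exact prod_congr rfl fun p hp => by rw [h p hp]

/-- **Products of integers and the number of patterns.** -/
theorem general_products [dκ : DecidableEq κ] [Nonempty κ] (A : κ → Finset ℕ) (hA : ∀ j, ∀ a ∈ A j, a ≠ 0) (M : κ → ℕ)
    (hM : ∀ j, ∀ S : Finset ℕ, (∀ p ∈ S, p.Prime) → 2 ^ S.card ≤ ((A j).image (part S)).card →
      ((A j).image (part S)).card ≤ M j) :
    ∏ j, (A j).card ≤ (∏ j, M j) ^ (Fintype.card κ - 1) *
      ((Fintype.piFinset A).image fun x => ∏ j, x j).card := by
  have e2 : dκ = fun a b => Classical.propDecidable (a = b) := Subsingleton.elim _ _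
  subst e2
  set P : Finset ℕ := primesOf A with hP
  let v : ℕ → {p // p ∈ P} → ℕ := fun a p => a.factorization p
  have hinj : ∀ j, Set.InjOn v (A j : Set ℕ) := by
    intro j a ha b hb hab
    rw [mem_coe] at ha hb
    apply Nat.eq_of_factorization_eq (hA j a ha) (hA j b hb)
    intro p
    by_cases hp : p ∈ P
    · exact congrFun hab ⟨p, hp⟩
    · have h1 : p ∉ a.primeFactors := fun h => hp (mem_primesOf ha h)
      have h2 : p ∉ b.primeFactors := fun h => hp (mem_primesOf hb h)
      rw [← Nat.support_factorization] at h1 h2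
      rw [Finsupp.notMem_support_iff.1 h1, Finsupp.notMem_support_iff.1 h2]
  have hpat : ∀ j (S : Finset {p // p ∈ P}), (pats S ((A j).image v)).card =
      ((A j).image (part (S.map (Function.Embedding.subtype _)))).card := by
    intro j S
    have hSp : ∀ p ∈ S.map (Function.Embedding.subtype _), p.Prime := by
      intro p hp
      rw [mem_map] at hp
      obtain ⟨q, _, rfl⟩ := hp
      exact prime_of_mem q.2
    unfold pats
    rw [image_image]
    apply le_antisymm
    · refine card_image_le_of _ _ _ ?_
      intro a _ b _ h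
      rw [part_eq_iff hSp] at h
      funext q
      simp only [Function.comp]
      by_cases hq : q ∈ S
      · rw [if_pos hq, if_pos hq]
        exact h q (by rw [mem_map]; exact ⟨q, hq, rfl⟩)
      · rw [if_neg hq, if_neg hq]
    · refine card_image_le_of _ _ _ ?_
      intro a _ b _ h
      rw [part_eq_iff hSp]
      intro p hp
      rw [mem_map] at hp
      obtain ⟨q, hq, rfl⟩ := hp
      have h5 := congrFun h q
      simp only [Function.comp, if_pos hq] at h5
      exact h5
  have h := vectors (fun j => (A j).image v) M fun j S hS => by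
    rw [hpat] at hS ⊢
    apply hM j _ _ (by rwa [card_map])
    intro p hp
    rw [mem_map] at hp
    obtain ⟨q, _, rfl⟩ := hp
    exact prime_of_mem q.2
  have h1 : ∀ j, ((A j).image v).card = (A j).card := fun j => card_image_of_injOn (hinj j)
  simp only [h1] at h
  refine h.trans (Nat.mul_le_mul_left _ ?_)
  have h2 : (Fintype.piFinset fun j => (A j).image v).image (fun x => ∑ j, x j) ⊆
      ((Fintype.piFinset A).image fun x => ∏ j, x j).image v := by
    intro y hy
    rw [mem_image] at hy
    obtain ⟨X, hX, rfl⟩ := hy
    rw [Fintype.mem_piFinset] at hX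
    have h3 : ∀ j, ∃ a ∈ A j, v a = X j := fun j => by
      have := hX j
      rwa [mem_image] at this
    choose x hx hxX using h3
    rw [image_image, mem_image]
    refine ⟨x, by rw [Fintype.mem_piFinset]; exact hx, ?_⟩
    funext p
    simp only [Function.comp, v]
    rw [Nat.factorization_prod fun j _ => hA j (x j) (hx j)]
    rw [Finsupp.finsetSum_apply, Finset.sum_apply]
    apply sum_congr rfl
    intro j _
    rw [← hxX j]
  exact (card_le_card h2).trans card_image_le

end Run7.h223.Sp
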