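import Pool.Agent.Run7.h223.SpE

/-! Sums of subset sums of dissociated sets, products of integers, sharpness. -/

set_option linter.unusedSectionVars false

open Finset
open scoped Classical Nat

namespace Run7.h223.Sp

variable {ι κ : Type} [Fintype ι] [Fintype κ]

/-- **Subset sums of dissociated sets.** -/
theorem dissociated {G : Type} [AddCommMonoid G] [DecidableEq G] [dι : DecidableEq ι]
    [dκ : DecidableEq κ] (g : ι → G)
    (hg : ∀ m m' : ι → ℕ, (∀ l, m l ≤ Fintype.card κ) → (∀ l, m' l ≤ Fintype.card κ) →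
      ∑ l, m l • g l = ∑ l, m' l • g l → m = m')
    (F : κ → Finset (Finset ι)) (d : κ → ℕ) (hd : ∀ j, (F j).vcDim ≤ d j) :
    (∏ j, (F j).card) * ∏ j, (d j)! ≤
      (∑ j, d j)! * ((Fintype.piFinset F).image fun X => ∑ j, ∑ l ∈ X j, g l).card := by
  have e1 : dι = fun a b => Classical.propDecidable (a = b) := Subsingleton.elim _ _
  have e2 : dκ = fun a b => Classical.propDecidable (a = b) := Subsingleton.elim _ _
  subst e1
  subst e2
  refine (families F d hd).trans (Nat.mul_le_mul_left _ ?_)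
  have h1 : ∀ X : κ → Finset ι, ∑ j, ∑ l ∈ X j, g l = ∑ l, mult X l • g l := by
    intro X
    unfold mult
    have h2 : ∀ j, ∑ l ∈ X j, g l = ∑ l, if l ∈ X j then g l else 0 := fun j => by
      rw [← sum_filter]
      congr 1
      ext l
      simp
    simp only [h2]
    rw [sum_comm]
    apply sum_congr rfl
    intro l _
    rw [← sum_filter, sum_const]
  apply card_image_le_of
  intro X _ Y _ hXY
  rw [h1, h1] at hXY
  apply hg _ _ _ _ hXY
  · intro l
    unfold mult
    exact (card_le_univ _)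
  · intro l
    unfold mult
    exact (card_le_univ _)

lemma factorial_mul_le (k : ℕ) : ∀ d : ℕ, (k * d)! ≤ k ^ (k * d) * (d)! ^ k := by
  intro d
  induction d with
  | zero => simp
  | succ d ih =>
    have h1 : (k * (d + 1))! = (k * d)! * (k * d + 1).ascFactorial k := by
      rw [Nat.factorial_mul_ascFactorial]
      congr 1
    rw [h1]
    calc (k * d)! * (k * d + 1).ascFactorial k ≤ (k ^ (k * d) * (d)! ^ k) * (k * d + k) ^ k :=
          Nat.mul_le_mul ih (Nat.ascFactorial_le_pow_add _ _)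
      _ = k ^ (k * (d + 1)) * (d + 1)! ^ k := by
          rw [Nat.factorial_succ, mul_pow, show k * d + k = k * (d + 1) by ring, mul_pow,
            show k * (d + 1) = k * d + k by ring, pow_add]
          ring

lemma card_natAbs (B : Finset ℤ) : B.card ≤ 2 * (B.image Int.natAbs).card := by
  apply card_le_mul_card_image
  intro n _
  have : B.filter (fun b => b.natAbs = n) ⊆ {(n : ℤ), -(n : ℤ)} := by
    intro b hb
    rw [mem_filter] at hb
    rw [mem_insert, mem_singleton]
    omega
  exact (card_le_card this).trans card_le_two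

lemma card_products_natAbs (k : ℕ) (B : Finset ℤ) :
    ((Fintype.piFinset fun _ : Fin k => B.image Int.natAbs).image fun x => ∏ j, x j).card ≤
      ((Fintype.piFinset fun _ : Fin k => B).image fun x => ∏ j, x j).card := by
  have : ((Fintype.piFinset fun _ : Fin k => B.image Int.natAbs).image fun x => ∏ j, x j) ⊆
      ((Fintype.piFinset fun _ : Fin k => B).image fun x => ∏ j, x j).image Int.natAbs := by
    intro z hz
    rw [mem_image] at hz
    obtain ⟨x, hx, rfl⟩ := hz
    rw [Fintype.mem_piFinset] at hx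
    have h3 : ∀ j, ∃ b ∈ B, b.natAbs = x j := fun j => by
      have := hx j
      rwa [mem_image] at this
    choose y hy hyx using h3
    rw [image_image, mem_image]
    refine ⟨y, by rw [Fintype.mem_piFinset]; exact hy, ?_⟩
    simp only [Function.comp]
    rw [show (∏ j, y j).natAbs = ∏ j, (y j).natAbs from map_prod Int.natAbsHom y univ]
    exact prod_congr rfl fun j _ => hyx j
  exact (card_le_card this).trans card_image_le

/-- k-fold products of squarefree integers -/
theorem squarefree_int (k : ℕ) (B : Finset ℤ) (hB : ∀ b ∈ B, Squarefree b) (d : ℕ)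
    (hd : (B.image fun b => b.natAbs.primeFactors).vcDim ≤ d) :
    B.card ^ k * (d)! ^ k ≤ 2 ^ k * (k * d)! *
      ((Fintype.piFinset fun _ : Fin k => B).image fun x => ∏ j, x j).card := by
  have h1 := squarefree_products (fun _ : Fin k => B.image Int.natAbs)
    (by
      intro j a ha
      rw [mem_image] at ha
      obtain ⟨b, hb, rfl⟩ := ha
      exact Int.squarefree_natAbs.2 (hB b hb)) (fun _ => d)
    (by
      intro j
      rw [image_image]
      exact hd)
  simp only [prod_const, card_univ, Fintype.card_fin, sum_const, smul_eq_mul] at h1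
  have h1' : (B.image Int.natAbs).card ^ k * (d)! ^ k ≤ (k * d)! *
      ((Fintype.piFinset fun _ : Fin k => B.image Int.natAbs).image fun x => ∏ j, x j).card := h1
  calc B.card ^ k * (d)! ^ k ≤ (2 * (B.image Int.natAbs).card) ^ k * (d)! ^ k :=
        Nat.mul_le_mul_right _ (Nat.pow_le_pow_left (card_natAbs B) k)
    _ = 2 ^ k * ((B.image Int.natAbs).card ^ k * (d)! ^ k) := by rw [mul_pow]; ring
    _ ≤ 2 ^ k * ((k * d)! * ((Fintype.piFinset fun _ : Fin k => B.image Int.natAbs).image
          fun x => ∏ j, x j).card) := Nat.mul_le_mul_left _ h1'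
    _ ≤ 2 ^ k * ((k * d)! * ((Fintype.piFinset fun _ : Fin k => B).image
          fun x => ∏ j, x j).card) :=
        Nat.mul_le_mul_left _ (Nat.mul_le_mul_left _ (card_products_natAbs k B))
    _ = _ := by ring

/-- k-fold products of nonzero integers -/
theorem general_int (k : ℕ) (hk : 1 ≤ k) (B : Finset ℤ) (hB : (0 : ℤ) ∉ B) (M : ℕ)
    (hM : ∀ S : Finset ℕ, (∀ p ∈ S, p.Prime) → 2 ^ S.card ≤ (B.image fun b => part S b.natAbs).card →
      (B.image fun b => part S b.natAbs).card ≤ M) :
    B.card ^ k ≤ 2 ^ k * M ^ (k * (k - 1)) *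
      ((Fintype.piFinset fun _ : Fin k => B).image fun x => ∏ j, x j).card := by
  have : Nonempty (Fin k) := ⟨⟨0, hk⟩⟩
  have h1 := general_products (fun _ : Fin k => B.image Int.natAbs)
    (by
      intro j a ha
      rw [mem_image] at ha
      obtain ⟨b, hb, rfl⟩ := ha
      intro h0
      rw [Int.natAbs_eq_zero] at h0
      exact hB (h0 ▸ hb)) (fun _ => M)
    (by
      intro j S hS h2
      rw [image_image] at h2 ⊢
      exact hM S hS h2)
  simp only [prod_const, card_univ, Fintype.card_fin] at h1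
  have h1' : (B.image Int.natAbs).card ^ k ≤ (M ^ k) ^ (k - 1) *
      ((Fintype.piFinset fun _ : Fin k => B.image Int.natAbs).image fun x => ∏ j, x j).card := h1
  calc B.card ^ k ≤ (2 * (B.image Int.natAbs).card) ^ k := Nat.pow_le_pow_left (card_natAbs B) k
    _ = 2 ^ k * (B.image Int.natAbs).card ^ k := by rw [mul_pow]
    _ ≤ 2 ^ k * ((M ^ k) ^ (k - 1) * ((Fintype.piFinset fun _ : Fin k => B.image Int.natAbs).image
          fun x => ∏ j, x j).card) := Nat.mul_le_mul_left _ h1'
    _ ≤ 2 ^ k * ((M ^ k) ^ (k - 1) * ((Fintype.piFinset fun _ : Fin k => B).image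
          fun x => ∏ j, x j).card) :=
        Nat.mul_le_mul_left _ (Nat.mul_le_mul_left _ (card_products_natAbs k B))
    _ = _ := by rw [← pow_mul]; ring

/-- the exponent of the sum-product conjecture, k-fold products -/
theorem exponent (k : ℕ) (ε : ℝ) (B : Finset ℤ) (hBn : B.Nonempty) (hB : ∀ b ∈ B, Squarefree b)
    (hd : ((k : ℝ) ^ (k * (B.image fun b => b.natAbs.primeFactors).vcDim)) ≤ (B.card : ℝ) ^ ε) :
    (B.card : ℝ) ^ ((k : ℝ) - ε) ≤ 2 ^ k *
      (((Fintype.piFinset fun _ : Fin k => B).image fun x => ∏ j, x j).card : ℝ) := by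
  set d := (B.image fun b => b.natAbs.primeFactors).vcDim with hdd
  have h1 := squarefree_int k B hB d le_rfl
  have h2 := factorial_mul_le k d
  set Q := ((Fintype.piFinset fun _ : Fin k => B).image fun x => ∏ j, x j).card with hQ
  have h3 : B.card ^ k ≤ 2 ^ k * k ^ (k * d) * Q := by
    have h4 : B.card ^ k * (d)! ^ k ≤ (2 ^ k * k ^ (k * d) * Q) * (d)! ^ k := by
      calc B.card ^ k * (d)! ^ k ≤ 2 ^ k * (k * d)! * Q := h1
        _ ≤ 2 ^ k * (k ^ (k * d) * (d)! ^ k) * Q :=
            Nat.mul_le_mul_right _ (Nat.mul_le_mul_left _ h2)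
        _ = _ := by ring
    exact Nat.le_of_mul_le_mul_right h4 (pow_pos (Nat.factorial_pos d) k)
  have h5 : (0 : ℝ) < B.card := by exact_mod_cast card_pos.2 hBn
  have h6 : (B.card : ℝ) ^ k ≤ 2 ^ k * (k : ℝ) ^ (k * d) * Q := by exact_mod_cast h3
  have h7 : (0 : ℝ) < (B.card : ℝ) ^ ε := Real.rpow_pos_of_pos h5 ε
  rw [Real.rpow_sub h5, Real.rpow_natCast, div_le_iff₀ h7]
  calc (B.card : ℝ) ^ k ≤ 2 ^ k * (k : ℝ) ^ (k * d) * Q := h6
    _ ≤ 2 ^ k * (B.card : ℝ) ^ ε * Q := by gcongr
    _ = _ := by ring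

/-- the first primes -/
noncomputable def PP (n : ℕ) : Finset ℕ := (range n).image (Nat.nth Nat.Prime)

lemma card_PP (n : ℕ) : (PP n).card = n := by
  unfold PP
  rw [card_image_of_injective _ (Nat.nth_injective Nat.infinite_setOfPred_prime), card_range]

lemma prime_PP {n p : ℕ} (hp : p ∈ PP n) : p.Prime := by
  unfold PP at hp
  rw [mem_image] at hp
  obtain ⟨i, _, rfl⟩ := hp
  exact Nat.prime_nth_prime i

/-- the products of `d` different primes among the first `n` primes -/
noncomputable def ex (n d : ℕ) : Finset ℕ := (powersetCard d (PP n)).image fun X => ∏ p ∈ X, p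

lemma mem_ex {n d a : ℕ} (ha : a ∈ ex n d) :
    Squarefree a ∧ a.primeFactors ⊆ PP n ∧ a.primeFactors.card = d := by
  unfold ex at ha
  rw [mem_image] at ha
  obtain ⟨X, hX, rfl⟩ := ha
  rw [mem_powersetCard] at hX
  have hp : ∀ p ∈ X, p.Prime := fun p hp => prime_PP (hX.1 hp)
  refine ⟨?_, ?_, ?_⟩
  · refine Finset.squarefree_prod_of_pairwise_isCoprime (fun p hp' q hq hpq => ?_)
      fun p hp' => (hp p hp').squarefree
    simp only [← Nat.coprime_iff_isRelPrime]
    exact (Nat.coprime_primes (hp p hp') (hp q hq)).mpr hpq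
  · rw [Nat.primeFactors_prod hp]
    exact hX.1
  · rw [Nat.primeFactors_prod hp]
    exact hX.2

lemma card_ex (n d : ℕ) : (ex n d).card = n.choose d := by
  unfold ex
  rw [card_image_of_injOn, card_powersetCard, card_PP]
  intro X hX Y hY hXY
  rw [mem_coe, mem_powersetCard] at hX hY
  simp only at hXY
  rw [← Nat.primeFactors_prod fun p hp => prime_PP (hX.1 hp), hXY,
    Nat.primeFactors_prod fun p hp => prime_PP (hY.1 hp)]

lemma vcDim_ex (n d : ℕ) : ((ex n d).image Nat.primeFactors).vcDim ≤ d := by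
  unfold vcDim
  apply Finset.sup_le
  intro S hS
  rw [mem_shatterer] at hS
  obtain ⟨u, hu, hSu⟩ := hS.exists_superset
  rw [mem_image] at hu
  obtain ⟨a, ha, rfl⟩ := hu
  rw [← (mem_ex ha).2.2]
  exact card_le_card hSu

lemma card_products_ex [DecidableEq κ] (n : ℕ) (d : κ → ℕ) :
    ((Fintype.piFinset fun j => ex n (d j)).image fun x => ∏ j, x j).card ≤
      (n + ∑ j, d j - 1).choose (∑ j, d j) := by
  have hc : (n + ∑ j, d j - 1).choose (∑ j, d j) = ((PP n).finsuppAntidiag (∑ j, d j)).card := by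
    rw [card_finsuppAntidiag_nat_eq_choose, card_PP]
  rw [hc]
  have hz : ∀ z ∈ (Fintype.piFinset fun j => ex n (d j)).image (fun x => ∏ j, x j), z ≠ 0 ∧
      z.factorization ∈ (PP n).finsuppAntidiag (∑ j, d j) := by
    intro z hz
    rw [mem_image] at hz
    obtain ⟨x, hx, rfl⟩ := hz
    rw [Fintype.mem_piFinset] at hx
    have h0 : ∀ j, x j ≠ 0 := fun j => (mem_ex (hx j)).1.ne_zero
    refine ⟨prod_ne_zero_iff.2 fun j _ => h0 j, ?_⟩
    rw [mem_finsuppAntidiag]
    constructor
    · rw [Nat.factorization_prod fun j _ => h0 j]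
      simp only [Finsupp.finsetSum_apply]
      rw [sum_comm]
      apply sum_congr rfl
      intro j _
      have h1 := mem_ex (hx j)
      rw [← h1.2.2]
      simp only [fact_squarefree h1.1]
      rw [← card_filter]
      congr 1
      ext p
      rw [mem_filter]
      exact ⟨fun h => h.2, fun h => ⟨h1.2.1 h, h⟩⟩
    · intro p hp
      rw [Nat.support_factorization] at hp
      have h1 := Nat.dvd_of_mem_primeFactors hp
      rw [(Nat.prime_of_mem_primeFactors hp).prime.dvd_finsetProd_iff] at h1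
      obtain ⟨j, _, hj⟩ := h1
      exact (mem_ex (hx j)).2.1 (Nat.mem_primeFactors.2 ⟨Nat.prime_of_mem_primeFactors hp, hj, h0 j⟩)
  apply card_le_card_of_injOn Nat.factorization
  · intro z h
    exact (hz z h).2
  · intro z h w h' hzw
    exact Nat.factorization_inj (hz z h).1 (hz w h').1 hzw

/-- the inequality is sharp -/
theorem sharp [DecidableEq κ] (d : κ → ℕ) (η : ℝ) (hη : 0 < η) : ∃ n₀ : ℕ, ∀ n ≥ n₀,
    ((∑ j, d j)! : ℝ) * (((Fintype.piFinset fun j => ex n (d j)).image fun x => ∏ j, x j).card : ℝ) ≤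
      (1 + η) * ((∏ j, ((ex n (d j)).card : ℝ)) * ∏ j, ((d j)! : ℝ)) := by
  set N := ∑ j, d j with hN
  refine ⟨⌈2 * (N : ℝ) ^ 2 * (1 + η) / η⌉₊ + N + 1, fun n hn => ?_⟩
  have hnN : N < n := by omega
  have h1 : (N)! * (n + N - 1).choose N ≤ (n + N) ^ N := by
    rw [← Nat.ascFactorial_eq_factorial_mul_choose']
    obtain ⟨m, rfl⟩ : ∃ m, n = m + 1 := ⟨n - 1, by omega⟩
    exact (Nat.ascFactorial_le_pow_add m N).trans (Nat.pow_le_pow_left (by omega) N)
  have h2 : (n - N) ^ N ≤ (∏ j, (ex n (d j)).card) * ∏ j, (d j)! := by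
    rw [← prod_mul_distrib]
    calc (n - N) ^ N = ∏ j, (n - N) ^ d j := by rw [prod_pow_eq_pow_sum]
      _ ≤ _ := by
        apply prod_le_prod'
        intro j _
        rw [card_ex, mul_comm, ← Nat.descFactorial_eq_factorial_mul_choose]
        have h3 : d j ≤ N := single_le_sum (f := d) (fun _ _ => Nat.zero_le _) (mem_univ j)
        exact (Nat.pow_le_pow_left (by omega) _).trans (Nat.pow_sub_le_descFactorial n (d j))
  have h4 : ((n : ℝ) + N) ^ N ≤ (1 + η) * ((n : ℝ) - N) ^ N := by
    have hnr : (N : ℝ) < n := by exact_mod_cast hnN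
    have hN0 : (0 : ℝ) ≤ N := Nat.cast_nonneg N
    have hpos : (0 : ℝ) < (n : ℝ) + N := by linarith
    have h5 : 2 * (N : ℝ) ^ 2 * (1 + η) / η ≤ (n : ℝ) + N := by
      have := Nat.le_ceil (2 * (N : ℝ) ^ 2 * (1 + η) / η)
      have h6 : ((⌈2 * (N : ℝ) ^ 2 * (1 + η) / η⌉₊ : ℕ) : ℝ) ≤ n := by
        exact_mod_cast (by omega : ⌈2 * (N : ℝ) ^ 2 * (1 + η) / η⌉₊ ≤ n)
      have h7 : (0 : ℝ) ≤ N := by positivity
      linarith
    have h6 : 1 + (N : ℝ) * (-(2 * N / ((n : ℝ) + N))) ≤ (1 + (-(2 * N / ((n : ℝ) + N)))) ^ N := by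
      apply one_add_mul_le_pow
      have : 2 * (N : ℝ) / ((n : ℝ) + N) ≤ 1 := by
        rw [div_le_one hpos]; linarith
      linarith
    have h7 : 1 + (-(2 * N / ((n : ℝ) + N))) = ((n : ℝ) - N) / ((n : ℝ) + N) := by
      field_simp
      ring
    rw [h7, div_pow] at h6
    have h8 : 1 / (1 + η) ≤ 1 + (N : ℝ) * (-(2 * N / ((n : ℝ) + N))) := by
      rw [div_le_iff₀ (by positivity)] at h5
      have h9 : (N : ℝ) * (2 * N / ((n : ℝ) + N)) ≤ η / (1 + η) := by
        rw [mul_div_assoc', div_le_div_iff₀ hpos (by positivity)]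
        nlinarith
      have h10 : 1 / (1 + η) = 1 - η / (1 + η) := by
        field_simp
        ring
      rw [h10]
      linarith
    have h9 := h8.trans h6
    rw [div_le_div_iff₀ (by positivity) (by positivity)] at h9
    linarith
  have h5 : (((N)! * (n + N - 1).choose N : ℕ) : ℝ) ≤ ((n : ℝ) + N) ^ N := by
    exact_mod_cast h1
  have h6 : ((n : ℝ) - N) ^ N ≤ (∏ j, ((ex n (d j)).card : ℝ)) * ∏ j, ((d j)! : ℝ) := by
    have : (((n - N) ^ N : ℕ) : ℝ) ≤ (((∏ j, (ex n (d j)).card) * ∏ j, (d j)! : ℕ) : ℝ) := by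
      exact_mod_cast h2
    push_cast [Nat.cast_sub hnN.le] at this
    exact this
  have h7 : (((Fintype.piFinset fun j => ex n (d j)).image fun x => ∏ j, x j).card : ℝ) ≤
      ((n + N - 1).choose N : ℕ) := by
    exact_mod_cast card_products_ex n d
  calc ((N)! : ℝ) * (((Fintype.piFinset fun j => ex n (d j)).image fun x => ∏ j, x j).card : ℝ)
      ≤ ((N)! : ℝ) * ((n + N - 1).choose N : ℕ) := by gcongr
    _ ≤ ((n : ℝ) + N) ^ N := by push_cast at h5; exact h5
    _ ≤ (1 + η) * ((n : ℝ) - N) ^ N := h4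
    _ ≤ _ := by
        apply mul_le_mul_of_nonneg_left h6
        positivity

end Run7.h223.Sp
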