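import Pool.Agent.Run7.h223.SpF
import Pool.Agent.Run7.h84.MG.Core

/-! Products of integers modulo a multiplicative group, and pattern numbers of the cofactors. -/

set_option linter.unusedSectionVars false

open Finset
open scoped Nat Pointwise

namespace Run7.h223.Sp

open Pool.Agent.Run7.h84.MG

/-- products of the cofactors against products of the elements -/
theorem cofactors (k r : ℕ) (t : Fin r → ℚ) (ht : ∀ i, 0 < t i) (X : Finset ℤ) (c : ℤ → ℕ) (V : ℕ)
    (hc : ∀ a ∈ X, c a ≠ 0)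
    (hrep : ∀ a ∈ X, ∃ e : Fin r → ℤ, |(a : ℚ)| = (∏ i, t i ^ e i) * c a)
    (hV : ∀ a ∈ X, ∀ p, (c a).factorization p ≤ V) :
    ((Fintype.piFinset fun _ : Fin k => X.image c).image fun f => ∏ i, f i).card ≤
      (k * V + 1) ^ r * ((Fintype.piFinset fun _ : Fin k => X).image fun f => ∏ i, f i).card := by
  classical
  set P' := (Fintype.piFinset fun _ : Fin k => X.image c).image fun f => ∏ i, f i with hP'
  set Q := (Fintype.piFinset fun _ : Fin k => X).image fun f => ∏ i, f i with hQ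
  have h1 : ∀ n ∈ P', ∃ a : Fin k → ℤ, (∀ i, a i ∈ X) ∧ ∏ i, c (a i) = n := by
    intro n hn
    rw [hP', mem_image] at hn
    obtain ⟨f, hf, rfl⟩ := hn
    rw [Fintype.mem_piFinset] at hf
    have h3 : ∀ i, ∃ a ∈ X, c a = f i := fun i => by
      have := hf i
      rwa [mem_image] at this
    choose a ha hac using h3
    exact ⟨a, ha, prod_congr rfl fun i _ => hac i⟩
  choose! a haX han using h1
  have hmaps : ∀ n ∈ P', (∏ i, a n i) ∈ Q := by
    intro n hn
    rw [hQ, mem_image]
    exact ⟨a n, by rw [Fintype.mem_piFinset]; exact haX n hn, rfl⟩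
  apply card_le_mul_card_image_of_maps_to hmaps
  intro u hu
  have hX0 : ∀ x ∈ X, x ≠ 0 := by
    intro x hx h0
    obtain ⟨e, he⟩ := hrep x hx
    rw [show (x : ℚ) = 0 by exact_mod_cast h0, abs_zero] at he
    have h2 : (∏ i, t i ^ e i) * (c x : ℚ) ≠ 0 := by
      apply mul_ne_zero
      · exact prod_ne_zero_iff.2 fun i _ => zpow_ne_zero _ (ht i).ne'
      · exact_mod_cast hc x hx
    exact h2 he.symm
  have hu0 : (|(u : ℚ)|) ≠ 0 := by
    rw [hQ, mem_image] at hu
    obtain ⟨f, hf, rfl⟩ := hu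
    rw [Fintype.mem_piFinset] at hf
    rw [abs_ne_zero]
    exact_mod_cast prod_ne_zero_iff.2 fun i _ => hX0 _ (hf i)
  refine count_coset r t (fun i => (ht i).ne') (|(u : ℚ)|) hu0 (k * V) _ ?_
  intro n hn
  rw [mem_filter] at hn
  obtain ⟨hnP, hnu⟩ := hn
  have hmem := haX n hnP
  refine ⟨?_, ?_, ?_⟩
  · rw [← han n hnP]
    exact prod_ne_zero_iff.2 fun i _ => hc _ (hmem i)
  · have h2 : ∀ i, ∃ e : Fin r → ℤ, |(a n i : ℚ)| = (∏ l, t l ^ e l) * c (a n i) :=
      fun i => hrep _ (hmem i)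
    choose e he using h2
    refine ⟨fun l => - ∑ i, e i l, ?_⟩
    have h3 : |(u : ℚ)| = (∏ l, t l ^ (∑ i, e i l)) * (n : ℚ) := by
      rw [← hnu]
      push_cast
      rw [abs_prod]
      simp only [he]
      rw [prod_mul_distrib, prod_comm]
      congr 1
      · apply prod_congr rfl
        intro l _
        rw [zpow_sum_eq _ (ht l).ne']
      · have h4 := han n hnP
        exact_mod_cast h4
    rw [h3]
    have h4 : ∏ l, t l ^ (- ∑ i, e i l) = (∏ l, t l ^ (∑ i, e i l))⁻¹ := by
      rw [← prod_inv_distrib]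
      exact prod_congr rfl fun l _ => zpow_neg _ _
    rw [h4]
    have h5 : ∏ l, t l ^ (∑ i, e i l) ≠ 0 := prod_ne_zero_iff.2 fun l _ => zpow_ne_zero _ (ht l).ne'
    field_simp
  · intro p
    rw [← han n hnP, Nat.factorization_prod (fun i _ => hc _ (hmem i))]
    simp only [Finsupp.coe_finsetSum, Finset.sum_apply]
    calc ∑ i, (c (a n i)).factorization p ≤ ∑ _i : Fin k, V :=
          sum_le_sum fun i _ => hV _ (hmem i) p
      _ = k * V := by rw [sum_const, card_univ, Fintype.card_fin, smul_eq_mul]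

open Classical in
/-- products of a set with short fibres -/
theorem short_fibres (k r : ℕ) (hk : 1 ≤ k) (t : Fin r → ℚ) (ht : ∀ i, 0 < t i) (X : Finset ℤ)
    (c : ℤ → ℕ) (V K F : ℕ) (hc : ∀ a ∈ X, c a ≠ 0)
    (hrep : ∀ a ∈ X, ∃ e : Fin r → ℤ, |(a : ℚ)| = (∏ i, t i ^ e i) * c a)
    (hV : ∀ a ∈ X, ∀ p, (c a).factorization p ≤ V)
    (hK : ∀ S : Finset ℕ, (∀ p ∈ S, p.Prime) → 2 ^ S.card ≤ (X.image fun a => part S (c a)).card →
      (X.image fun a => part S (c a)).card ≤ K)
    (hfib : ∀ a ∈ X,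
      (X.filter fun x : ℤ => ∃ n : Fin r → ℤ, (x : ℚ) = a * ∏ i, t i ^ n i).card ≤ F) :
    X.card ^ k ≤ (2 * F) ^ k * (K ^ (k * (k - 1)) * ((k * V + 1) ^ r *
      ((Fintype.piFinset fun _ : Fin k => X).image fun f => ∏ i, f i).card)) := by
  have h1 : X.card ≤ 2 * F * (X.image c).card := by
    apply card_le_mul_card_image
    intro d _
    exact fib_one r t ht X c F hrep hfib d
  have h2 : (X.image c).card ^ k ≤ K ^ (k * (k - 1)) *
      ((Fintype.piFinset fun _ : Fin k => X.image c).image fun f => ∏ i, f i).card := by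
    have : Nonempty (Fin k) := ⟨⟨0, hk⟩⟩
    have h3 := general_products (fun _ : Fin k => X.image c)
      (by
        intro j a ha
        rw [mem_image] at ha
        obtain ⟨b, hb, rfl⟩ := ha
        exact hc b hb) (fun _ => K)
      (by
        intro j S hS h2
        rw [image_image] at h2 ⊢
        exact hK S hS h2)
    simp only [prod_const, card_univ, Fintype.card_fin] at h3
    rw [← pow_mul] at h3
    exact h3
  have h3 := cofactors k r t ht X c V hc hrep hV
  calc X.card ^ k ≤ (2 * F * (X.image c).card) ^ k := Nat.pow_le_pow_left h1 k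
    _ = (2 * F) ^ k * (X.image c).card ^ k := mul_pow _ _ _
    _ ≤ (2 * F) ^ k * (K ^ (k * (k - 1)) *
      ((Fintype.piFinset fun _ : Fin k => X.image c).image fun f => ∏ i, f i).card) :=
        Nat.mul_le_mul_left _ h2
    _ ≤ _ := Nat.mul_le_mul_left _ (Nat.mul_le_mul_left _ h3)

open Classical in
/-- the decomposition -/
theorem core2 (k r : ℕ) (hk : 1 ≤ k) (ε : ℝ) (hε : 0 < ε) (hε1 : ε ≤ 1) (t : Fin r → ℚ)
    (ht : ∀ i, 0 < t i) (A : Finset ℤ) (c : ℤ → ℕ) (V K : ℕ) (hc : ∀ a ∈ A, c a ≠ 0)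
    (hrep : ∀ a ∈ A, ∃ e : Fin r → ℤ, |(a : ℚ)| = (∏ i, t i ^ e i) * c a)
    (hV : ∀ a ∈ A, ∀ p, (c a).factorization p ≤ V)
    (hK : ∀ S : Finset ℕ, (∀ p ∈ S, p.Prime) → 2 ^ S.card ≤ (A.image fun a => part S (c a)).card →
      (A.image fun a => part S (c a)).card ≤ K)
    (M : ℝ) (hM : M = 4 * k / ε * Real.exp (6 * k / ε) * Real.log (2 * A.card)) :
    ∃ S ⊆ A, (∀ T ⊆ A \ S, T.card ^ k ≤ (2 * ⌊M ^ r⌋₊) ^ k * (K ^ (k * (k - 1)) *
        ((k * V + 1) ^ r * ((Fintype.piFinset fun _ : Fin k => T).image fun f => ∏ i, f i).card))) ∧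
      ∀ B : Finset ℤ, B.Nonempty → S.Nonempty →
        ((S.card : ℝ) ^ k * B.card) ^ (1 - ε) ≤ (r * M + 1) ^ (2 * r * k) *
          ((((Fintype.piFinset fun _ : Fin k => S).image fun f => ∑ i, f i) + B).card : ℝ) := by
  have hT : ∀ X : Finset ℤ, X ⊆ A → (∀ a ∈ X,
      (X.filter fun x : ℤ => ∃ n : Fin r → ℤ, (x : ℚ) = a * ∏ i, t i ^ n i).card ≤ ⌊M ^ r⌋₊) →
      X.card ^ k ≤ (2 * ⌊M ^ r⌋₊) ^ k * (K ^ (k * (k - 1)) * ((k * V + 1) ^ r *
        ((Fintype.piFinset fun _ : Fin k => X).image fun f => ∏ i, f i).card)) := by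
    intro X hX hfib
    refine short_fibres k r hk t ht X c V K _ (fun a ha => hc a (hX ha))
      (fun a ha => hrep a (hX ha)) (fun a ha => hV a (hX ha)) ?_ hfib
    intro S hS h2
    have h3 := card_le_card (image_subset_image (f := fun a => part S (c a)) hX)
    exact h3.trans (hK S hS (h2.trans h3))
  rcases Nat.eq_zero_or_pos r with hr0 | hr
  · subst hr0
    refine ⟨∅, empty_subset _, ?_, ?_⟩
    · intro T hTA
      rw [sdiff_empty] at hTA
      refine hT T hTA fun a ha => ?_
      have h1 : (T.filter fun x : ℤ => ∃ n : Fin 0 → ℤ, (x : ℚ) = a * ∏ i, t i ^ n i) ⊆ {a} := by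
        intro x hx
        rw [mem_filter] at hx
        obtain ⟨-, n, hn⟩ := hx
        rw [mem_singleton]
        simp only [univ_eq_empty, prod_empty, mul_one] at hn
        exact_mod_cast hn
      have h2 := card_le_card h1
      rw [card_singleton] at h2
      simpa using h2
    · intro B _ h
      exact absurd h not_nonempty_empty
  · set S : Finset ℤ := A.filter fun a => M ^ r ≤
      ((A.filter fun x : ℤ => ∃ n : Fin r → ℤ, (x : ℚ) = a * ∏ i, t i ^ n i).card : ℝ) with hS
    have hSA : S ⊆ A := filter_subset _ _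
    refine ⟨S, hSA, ?_, ?_⟩
    · intro T hTA
      refine hT T (hTA.trans sdiff_subset) fun a ha => ?_
      have ha' := hTA ha
      rw [mem_sdiff] at ha'
      have h1 : ¬ M ^ r ≤
          ((A.filter fun x : ℤ => ∃ n : Fin r → ℤ, (x : ℚ) = a * ∏ i, t i ^ n i).card : ℝ) := by
        intro h
        exact ha'.2 (by rw [hS, mem_filter]; exact ⟨ha'.1, h⟩)
      push Not at h1
      refine Nat.le_floor ?_
      refine le_trans ?_ h1.le
      have h2 := card_le_card (filter_subset_filter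
        (fun x : ℤ => ∃ n : Fin r → ℤ, (x : ℚ) = a * ∏ i, t i ^ n i)
        (hTA.trans (sdiff_subset (s := A) (t := S))))
      exact_mod_cast h2
    · intro B hB hSn
      have hS1 : (1 : ℝ) ≤ S.card := by exact_mod_cast hSn.card_pos
      have hSAc : (S.card : ℝ) ≤ A.card := by exact_mod_cast card_le_card hSA
      set M' : ℝ := 4 * k / ε * Real.exp (6 * k / ε) * Real.log (2 * S.card) with hM'
      have hk0 : (0 : ℝ) < k := by exact_mod_cast hk
      have hl0 : 0 ≤ Real.log (2 * S.card) := Real.log_nonneg (by linarith)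
      have hM'0 : 0 ≤ M' := by rw [hM']; positivity
      have hMM : M' ≤ M := by
        rw [hM', hM]
        exact mul_le_mul_of_nonneg_left (Real.log_le_log (by linarith) (by linarith))
          (by positivity)
      have h := Pool.Agent.W219.SP.fibre_k k r hk hr ε hε hε1 t ht S B hSn hB M' hM' (fun a ha => by
        have h1 : (A.filter fun x : ℤ => ∃ n : Fin r → ℤ, (x : ℚ) = a * ∏ i, t i ^ n i) ⊆
            S.filter fun x : ℤ => ∃ n : Fin r → ℤ, (x : ℚ) = a * ∏ i, t i ^ n i := by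
          intro x hx
          rw [mem_filter] at hx
          rw [mem_filter]
          refine ⟨?_, hx.2⟩
          rw [hS, mem_filter] at ha ⊢
          refine ⟨hx.1, ha.2.trans ?_⟩
          have h2 : (A.filter fun y : ℤ => ∃ n : Fin r → ℤ, (y : ℚ) = a * ∏ i, t i ^ n i) ⊆
              A.filter fun y : ℤ => ∃ n : Fin r → ℤ, (y : ℚ) = x * ∏ i, t i ^ n i := by
            intro y hy
            rw [mem_filter] at hy ⊢
            exact ⟨hy.1, grp_trans t ht (grp_symm t ht hx.2) hy.2⟩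
          exact_mod_cast card_le_card h2
        have h3 := (mem_filter.1 (hS ▸ ha)).2
        calc M' ^ r ≤ M ^ r := pow_le_pow_left₀ hM'0 hMM r
          _ ≤ _ := h3
          _ ≤ _ := by exact_mod_cast card_le_card h1)
      refine h.trans ?_
      refine mul_le_mul_of_nonneg_right ?_ (Nat.cast_nonneg _)
      exact pow_le_pow_left₀ (by positivity)
        (by linarith [mul_le_mul_of_nonneg_left hMM (Nat.cast_nonneg (α := ℝ) r)]) _

end Run7.h223.Sp
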