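import Pool.Agent.Run7.h223.SpG
import Pool.Agent.Run7.h84.MG.Num

/-!
# Estimates

The text of this file follows closely the files `Run7/h84/MG/Num` and `Run7/h84/MG/Fin` of helper84.
-/

set_option linter.unusedSectionVars false

open Finset
open scoped Nat Pointwise

namespace Run7.h223.Sp

open Pool.Agent.Run7.h84.MG

open Classical in
/-- the decomposition, for large `N` -/
theorem part1v (k : ℕ) (hk : 1 ≤ k) (ε : ℝ) (hε : 0 < ε) :
    ∃ δ₀ : ℝ, 0 < δ₀ ∧ ∀ δ : ℝ, 0 < δ → δ ≤ δ₀ → ∀ (N r : ℕ) (t : Fin r → ℚ), 16 ≤ N →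
      (∀ i, 0 < t i) → (r : ℝ) * Real.log (Real.log N) ≤ δ * Real.log N →
      ∀ A : Finset ℤ, A.card ≤ N → ∀ (c : ℤ → ℕ) (V : ℕ), (∀ a ∈ A, c a ≠ 0) →
      (∀ a ∈ A, ∃ e : Fin r → ℤ, |(a : ℚ)| = (∏ i, t i ^ e i) * c a) →
      (∀ a ∈ A, ∀ p, (c a).factorization p ≤ V) → ((V : ℝ) + 1) ^ r ≤ (N : ℝ) ^ δ →
      (∀ S : Finset ℕ, (∀ p ∈ S, p.Prime) → 2 ^ S.card ≤ (A.image fun a => part S (c a)).card →
        ((A.image fun a => part S (c a)).card : ℝ) ≤ (N : ℝ) ^ δ) →
      ∃ S ⊆ A, (∀ T ⊆ A \ S, (T.card : ℝ) ^ k ≤ 2 ^ k * (N : ℝ) ^ ε *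
          (((Fintype.piFinset fun _ : Fin k => T).image fun f => ∏ i, f i).card : ℝ)) ∧
        ∀ B : Finset ℤ, B.Nonempty → (S.card : ℝ) ^ k * (B.card : ℝ) ^ (1 - ε) ≤ (N : ℝ) ^ ε *
          ((((Fintype.piFinset fun _ : Fin k => S).image fun f => ∑ i, f i) + B).card : ℝ) := by
  have hk0 : (0 : ℝ) < k := by exact_mod_cast hk
  have hk1 : (1 : ℝ) ≤ k := by exact_mod_cast hk
  set ε' : ℝ := min 1 (ε / (4 * k)) with hε'
  have hε'0 : 0 < ε' := lt_min one_pos (by positivity)
  have hε'1 : ε' ≤ 1 := min_le_left _ _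
  have hε'2 : k * ε' ≤ ε / 4 := by
    have : ε' ≤ ε / (4 * k) := min_le_right _ _
    calc k * ε' ≤ k * (ε / (4 * k)) := mul_le_mul_of_nonneg_left this hk0.le
      _ = ε / 4 := by field_simp
  have hε'3 : ε' ≤ ε := by nlinarith
  set K₀ : ℝ := 4 * k / ε' * Real.exp (6 * k / ε') with hK₀
  have hK₀1 : 1 ≤ K₀ := by
    have h1 : 1 ≤ 4 * k / ε' := by
      rw [one_le_div hε'0]
      linarith
    have h2 : 1 ≤ Real.exp (6 * k / ε') := Real.one_le_exp (by positivity)
    rw [hK₀]
    nlinarith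
  set G : ℝ := Real.log (4 * K₀) + 2 with hG
  have hG2 : 2 ≤ G := by
    have : 0 ≤ Real.log (4 * K₀) := Real.log_nonneg (by linarith)
    linarith
  have hlk : 0 ≤ Real.log k := Real.log_nonneg hk1
  set H : ℝ := 2 * k * G + Real.log k + 1 + k ^ 2 with hH
  have hH1 : 1 ≤ H := by
    have : 0 ≤ 2 * k * G := by positivity
    have : 0 ≤ (k : ℝ) ^ 2 := by positivity
    linarith
  refine ⟨min 1 (ε / (4 * H)), lt_min one_pos (by positivity), ?_⟩
  intro δ hδ0 hδ N r t hN ht hr A hA c V hc0 hrep hV hVr hpat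
  have hδ1 : δ ≤ 1 := hδ.trans (min_le_left _ _)
  have hδH : H * δ ≤ ε / 4 := by
    have : δ ≤ ε / (4 * H) := hδ.trans (min_le_right _ _)
    calc H * δ ≤ H * (ε / (4 * H)) := mul_le_mul_of_nonneg_left this (by linarith)
      _ = ε / 4 := by field_simp
  have hN16 : (16 : ℝ) ≤ N := by exact_mod_cast hN
  have hN0 : (0 : ℝ) < N := by linarith
  set ℓ : ℝ := Real.log N with hℓ
  have hℓe : Real.exp 1 ≤ ℓ := log16.trans (Real.log_le_log (by norm_num) hN16)
  have hℓ2 : 2 ≤ ℓ := by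
    have := Real.exp_one_gt_d9
    linarith
  have hℓ0 : 0 < ℓ := by linarith
  have hL : 1 ≤ Real.log ℓ := by
    rw [Real.le_log_iff_exp_le hℓ0]
    exact hℓe
  have hNexp : ∀ x : ℝ, (N : ℝ) ^ x = Real.exp (x * ℓ) := by
    intro x
    rw [Real.rpow_def_of_pos hN0, mul_comm]
  have hrδ : (r : ℝ) ≤ δ * ℓ := by
    have : (r : ℝ) * 1 ≤ r * Real.log ℓ := mul_le_mul_of_nonneg_left hL (Nat.cast_nonneg r)
    linarith
  have hrℓ : (r : ℝ) ≤ ℓ := by nlinarith
  have hNδ : 1 ≤ (N : ℝ) ^ δ := Real.one_le_rpow (by linarith) hδ0.le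
  set D : ℕ := ⌊(N : ℝ) ^ δ⌋₊ with hD
  set M : ℝ := 4 * k / ε' * Real.exp (6 * k / ε') * Real.log (2 * A.card) with hM
  obtain ⟨S, hSA, hcount, hsum⟩ := core2 k r hk ε' hε'0 hε'1 t ht A c V D hc0
    hrep hV (fun S hS h => Nat.le_floor (hpat S hS h)) M hM
  refine ⟨S, hSA, ?_, ?_⟩
  · intro T hTA
    rcases Finset.eq_empty_or_nonempty A with h0 | hA0
    · have h2 : T = ∅ := by
        rw [h0, empty_sdiff] at hTA
        exact subset_empty.1 hTA
      rw [h2, card_empty, Nat.cast_zero, zero_pow (by omega)]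
      positivity
    · have hA1 : (1 : ℝ) ≤ A.card := by exact_mod_cast hA0.card_pos
      have hlog0 : 0 < Real.log (2 * A.card) := Real.log_pos (by linarith)
      have hlog : Real.log (2 * A.card) ≤ 2 * ℓ := by
        have h1 : (A.card : ℝ) ≤ N := by exact_mod_cast hA
        calc Real.log (2 * A.card) ≤ Real.log (N * N) :=
              Real.log_le_log (by positivity) (by nlinarith)
          _ = 2 * ℓ := by rw [Real.log_mul hN0.ne' hN0.ne', ← hℓ]; ring
      have hM0 : 0 < M := by rw [hM, ← hK₀]; positivity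
      have hMK : M ≤ 2 * K₀ * ℓ := by
        rw [hM, ← hK₀]
        nlinarith
      have hMr : M ^ r ≤ Real.exp (G * δ * ℓ) := by
        refine pow_est r M (4 * K₀) ℓ δ (by linarith) hℓe hr hM0 ?_
        nlinarith [mul_pos (by linarith : 0 < K₀) hℓ0]
      have hF : (⌊M ^ r⌋₊ : ℝ) ≤ Real.exp (G * δ * ℓ) :=
        (Nat.floor_le (by positivity)).trans hMr
      have hVk : ((k : ℝ) * V + 1) ^ r ≤ Real.exp ((Real.log k + 1) * δ * ℓ) := by
        calc ((k : ℝ) * V + 1) ^ r ≤ (k * ((V : ℝ) + 1)) ^ r := by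
              refine pow_le_pow_left₀ (by positivity) ?_ r
              nlinarith
          _ = (k : ℝ) ^ r * ((V : ℝ) + 1) ^ r := mul_pow _ _ _
          _ ≤ Real.exp (Real.log k * (δ * ℓ)) * Real.exp (δ * ℓ) := by
              refine mul_le_mul ?_ ?_ (by positivity) (Real.exp_pos _).le
              · have h2 : (k : ℝ) ^ r = Real.exp (Real.log k * r) := by
                  rw [Real.exp_mul, Real.exp_log hk0, Real.rpow_natCast]
                rw [h2, Real.exp_le_exp]
                exact mul_le_mul_of_nonneg_left hrδ hlk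
              · rw [← hNexp]
                exact hVr
          _ = Real.exp ((Real.log k + 1) * δ * ℓ) := by rw [← Real.exp_add]; congr 1; ring
      have hDk : (D : ℝ) ^ (k * (k - 1)) ≤ Real.exp ((k : ℝ) ^ 2 * δ * ℓ) := by
        calc (D : ℝ) ^ (k * (k - 1)) ≤ (Real.exp (δ * ℓ)) ^ (k * (k - 1)) := by
              refine pow_le_pow_left₀ (Nat.cast_nonneg _) ?_ _
              rw [← hNexp]
              exact Nat.floor_le (by positivity)
          _ ≤ (Real.exp (δ * ℓ)) ^ (k * k) := by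
              refine pow_le_pow_right₀ (Real.one_le_exp (by positivity)) ?_
              exact Nat.mul_le_mul_left _ (Nat.sub_le _ _)
          _ = Real.exp ((k : ℝ) ^ 2 * δ * ℓ) := by
              rw [← Real.exp_nat_mul]
              congr 1
              push_cast
              ring
      have h := hcount T hTA
      calc (T.card : ℝ) ^ k
          ≤ (2 * (⌊M ^ r⌋₊ : ℝ)) ^ k * ((D : ℝ) ^ (k * (k - 1)) * (((k : ℝ) * V + 1) ^ r *
              (((Fintype.piFinset fun _ : Fin k => T).image fun f => ∏ i, f i).card : ℝ))) := by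
            exact_mod_cast h
        _ ≤ (2 * Real.exp (G * δ * ℓ)) ^ k * (Real.exp ((k : ℝ) ^ 2 * δ * ℓ) *
              (Real.exp ((Real.log k + 1) * δ * ℓ) *
              (((Fintype.piFinset fun _ : Fin k => T).image fun f => ∏ i, f i).card : ℝ))) := by
            refine mul_le_mul ?_ ?_ (by positivity) (by positivity)
            · exact pow_le_pow_left₀ (by positivity) (by linarith) k
            · refine mul_le_mul hDk ?_ (by positivity) (Real.exp_pos _).le
              exact mul_le_mul_of_nonneg_right hVk (Nat.cast_nonneg _)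
        _ = 2 ^ k * Real.exp ((k * G + Real.log k + 1 + k ^ 2) * δ * ℓ) *
              (((Fintype.piFinset fun _ : Fin k => T).image fun f => ∏ i, f i).card : ℝ) := by
            have e1 : Real.exp ((k * G + Real.log k + 1 + k ^ 2) * δ * ℓ) =
                Real.exp (k * (G * δ * ℓ)) * (Real.exp ((k : ℝ) ^ 2 * δ * ℓ) *
                  Real.exp ((Real.log k + 1) * δ * ℓ)) := by
              rw [← Real.exp_add, ← Real.exp_add]
              congr 1
              ring
            rw [e1, mul_pow, ← Real.exp_nat_mul]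
            ring
        _ ≤ 2 ^ k * (N : ℝ) ^ ε *
              (((Fintype.piFinset fun _ : Fin k => T).image fun f => ∏ i, f i).card : ℝ) := by
            refine mul_le_mul_of_nonneg_right ?_ (Nat.cast_nonneg _)
            rw [hNexp]
            refine mul_le_mul_of_nonneg_left (Real.exp_le_exp.2 ?_) (by positivity)
            refine mul_le_mul_of_nonneg_right ?_ hℓ0.le
            have h1 : (k * G + Real.log k + 1 + k ^ 2) ≤ H := by
              rw [hH]
              nlinarith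
            calc (k * G + Real.log k + 1 + k ^ 2) * δ ≤ H * δ :=
                  mul_le_mul_of_nonneg_right h1 hδ0.le
              _ ≤ ε := by linarith
  · intro B hB
    rcases Finset.eq_empty_or_nonempty S with h0 | hS0
    · rw [h0]
      simp only [card_empty, Nat.cast_zero]
      rw [zero_pow (by omega), zero_mul]
      positivity
    · have hA0 : A.Nonempty := hS0.mono hSA
      have hA1 : (1 : ℝ) ≤ A.card := by exact_mod_cast hA0.card_pos
      have hAN : (A.card : ℝ) ≤ N := by exact_mod_cast hA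
      have hSN : (S.card : ℝ) ≤ N := by
        have : (S.card : ℝ) ≤ A.card := by exact_mod_cast card_le_card hSA
        linarith
      have hS1 : (1 : ℝ) ≤ S.card := by exact_mod_cast hS0.card_pos
      have hB1 : (1 : ℝ) ≤ B.card := by exact_mod_cast hB.card_pos
      have hlog0 : 0 < Real.log (2 * A.card) := Real.log_pos (by linarith)
      have hlog : Real.log (2 * A.card) ≤ 2 * ℓ := by
        calc Real.log (2 * A.card) ≤ Real.log (N * N) :=
              Real.log_le_log (by positivity) (by nlinarith)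
          _ = 2 * ℓ := by rw [Real.log_mul hN0.ne' hN0.ne', ← hℓ]; ring
      have hM0 : 0 < M := by rw [hM, ← hK₀]; positivity
      have hMK : M ≤ 2 * K₀ * ℓ := by
        rw [hM, ← hK₀]
        nlinarith
      have hx : r * M + 1 ≤ 4 * K₀ * ℓ ^ 2 := by
        have h1 : r * M ≤ ℓ * (2 * K₀ * ℓ) := mul_le_mul hrℓ hMK hM0.le hℓ0.le
        nlinarith [mul_pos (by linarith : 0 < K₀) hℓ0, sq_nonneg ℓ]
      have h1 := pow_est r (r * M + 1) (4 * K₀) ℓ δ (by linarith) hℓe hr (by positivity) hx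
      have h2 : (r * M + 1) ^ (2 * r * k) ≤ Real.exp (2 * k * G * δ * ℓ) := by
        calc (r * M + 1) ^ (2 * r * k) = ((r * M + 1) ^ r) ^ (2 * k) := by
              rw [← pow_mul]; congr 1; ring
          _ ≤ (Real.exp (G * δ * ℓ)) ^ (2 * k) := pow_le_pow_left₀ (by positivity) h1 _
          _ = Real.exp (2 * k * G * δ * ℓ) := by
              rw [← Real.exp_nat_mul]
              congr 1
              push_cast
              ring
      have h3 : (r * M + 1) ^ (2 * r * k) ≤ (N : ℝ) ^ (ε / 4) := by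
        refine h2.trans ?_
        rw [hNexp, Real.exp_le_exp]
        refine mul_le_mul_of_nonneg_right ?_ hℓ0.le
        have : 2 * k * G ≤ H := by
          rw [hH]
          nlinarith
        calc 2 * k * G * δ ≤ H * δ := mul_le_mul_of_nonneg_right this hδ0.le
          _ ≤ ε / 4 := hδH
      have h4 := hsum B hB hS0
      have hSk : (0 : ℝ) < (S.card : ℝ) ^ k := pow_pos (by linarith) k
      have hk' : (S.card : ℝ) ^ (k * ε') * ((S.card : ℝ) ^ k) ^ (1 - ε') = (S.card : ℝ) ^ k := by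
        rw [Real.rpow_mul (by linarith), Real.rpow_natCast, ← Real.rpow_add hSk]
        rw [show ε' + (1 - ε') = 1 by ring, Real.rpow_one]
      have h5 : (S.card : ℝ) ^ (k * ε') ≤ (N : ℝ) ^ (ε / 4) :=
        (Real.rpow_le_rpow (by linarith) hSN (by positivity)).trans
          (Real.rpow_le_rpow_of_exponent_le (by linarith) hε'2)
      have h6 : (B.card : ℝ) ^ (1 - ε) ≤ (B.card : ℝ) ^ (1 - ε') :=
        Real.rpow_le_rpow_of_exponent_le hB1 (by linarith)
      have h7 : ((S.card : ℝ) ^ k * B.card) ^ (1 - ε') =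
          ((S.card : ℝ) ^ k) ^ (1 - ε') * (B.card : ℝ) ^ (1 - ε') :=
        Real.mul_rpow hSk.le (Nat.cast_nonneg _)
      calc (S.card : ℝ) ^ k * (B.card : ℝ) ^ (1 - ε)
          = (S.card : ℝ) ^ (k * ε') * (((S.card : ℝ) ^ k) ^ (1 - ε') * (B.card : ℝ) ^ (1 - ε)) := by
            rw [← mul_assoc, hk']
        _ ≤ (N : ℝ) ^ (ε / 4) * (((S.card : ℝ) ^ k) ^ (1 - ε') * (B.card : ℝ) ^ (1 - ε')) := by
            refine mul_le_mul h5 ?_ (by positivity) (by positivity)
            exact mul_le_mul_of_nonneg_left h6 (by positivity)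
        _ = (N : ℝ) ^ (ε / 4) * ((S.card : ℝ) ^ k * B.card) ^ (1 - ε') := by rw [h7]
        _ ≤ (N : ℝ) ^ (ε / 4) * ((N : ℝ) ^ (ε / 4) *
            ((((Fintype.piFinset fun _ : Fin k => S).image fun f => ∑ i, f i) + B).card : ℝ)) := by
            refine mul_le_mul_of_nonneg_left (h4.trans ?_) (by positivity)
            exact mul_le_mul_of_nonneg_right h3 (Nat.cast_nonneg _)
        _ = (N : ℝ) ^ (ε / 2) *
            ((((Fintype.piFinset fun _ : Fin k => S).image fun f => ∑ i, f i) + B).card : ℝ) := by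
            rw [← mul_assoc, ← Real.rpow_add hN0]
            congr 2
            ring
        _ ≤ (N : ℝ) ^ ε *
            ((((Fintype.piFinset fun _ : Fin k => S).image fun f => ∑ i, f i) + B).card : ℝ) := by
            refine mul_le_mul_of_nonneg_right ?_ (Nat.cast_nonneg _)
            exact Real.rpow_le_rpow_of_exponent_le (by linarith) (by linarith)


open Classical in
theorem part2v (k : ℕ) (hk : 1 ≤ k) (ε : ℝ) (hε : 0 < ε) :
    ∃ δ₀ : ℝ, 0 < δ₀ ∧ ∀ δ : ℝ, 0 < δ → δ ≤ δ₀ → ∀ (N r : ℕ) (t : Fin r → ℚ), 16 ≤ N →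
      (∀ i, 0 < t i) → (r : ℝ) * Real.log (Real.log N) ≤ δ * Real.log N →
      ∀ A A' : Finset ℤ, A' ⊆ A → (N : ℝ) ^ (1 - δ) ≤ A'.card → ∀ (c : ℤ → ℕ) (V : ℕ),
      (∀ a ∈ A', c a ≠ 0) →
      (∀ a ∈ A', ∃ e : Fin r → ℤ, |(a : ℚ)| = (∏ i, t i ^ e i) * c a) →
      (∀ a ∈ A', ∀ p, (c a).factorization p ≤ V) → ((V : ℝ) + 1) ^ r ≤ (N : ℝ) ^ δ →
      (∀ S : Finset ℕ, (∀ p ∈ S, p.Prime) → 2 ^ S.card ≤ (A'.image fun a => part S (c a)).card →
        ((A'.image fun a => part S (c a)).card : ℝ) ≤ (N : ℝ) ^ δ) →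
      (N : ℝ) ^ ((k : ℝ) - ε) ≤
        4 ^ k * (((Fintype.piFinset fun _ : Fin k => A).image fun f => ∏ i, f i).card : ℝ) ∨
      ∀ B : Finset ℤ, B.Nonempty → (N : ℝ) ^ ((k : ℝ) - ε) * (B.card : ℝ) ^ (1 - ε) ≤
        4 ^ k *
          ((((Fintype.piFinset fun _ : Fin k => A).image fun f => ∑ i, f i) + B).card : ℝ) := by
  have hk0 : (0 : ℝ) < k := by exact_mod_cast hk
  obtain ⟨δ₁, hδ₁, h⟩ := part1v k hk (ε / 2) (by positivity)
  refine ⟨min δ₁ (ε / (2 * k)), lt_min hδ₁ (by positivity), ?_⟩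
  intro δ hδ0 hδ N r t hN ht hr A A' hA' hth c V hc0 hrep hV hVr hpat
  have hδk : k * δ ≤ ε / 2 := by
    have : δ ≤ ε / (2 * k) := hδ.trans (min_le_right _ _)
    calc k * δ ≤ k * (ε / (2 * k)) := mul_le_mul_of_nonneg_left this hk0.le
      _ = ε / 2 := by field_simp
  have hN16 : (16 : ℝ) ≤ N := by exact_mod_cast hN
  have hN0 : (0 : ℝ) < N := by linarith
  obtain ⟨A₂, hA₂, hcard⟩ := exists_subset_card_eq (s := A') (n := min N A'.card)
    (min_le_right _ _)
  have hA₂N : A₂.card ≤ N := hcard ▸ min_le_left _ _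
  have hlow : (N : ℝ) ^ (1 - δ) ≤ A₂.card := by
    rw [hcard]
    rcases le_total N A'.card with h1 | h1
    · rw [min_eq_left h1]
      calc (N : ℝ) ^ (1 - δ) ≤ (N : ℝ) ^ (1 : ℝ) :=
            Real.rpow_le_rpow_of_exponent_le (by linarith) (by linarith)
        _ = N := Real.rpow_one _
    · rw [min_eq_right h1]
      exact hth
  obtain ⟨S, hSA, hcount, hsum⟩ := h δ hδ0 (hδ.trans (min_le_left _ _)) N r t hN ht hr A₂ hA₂N
    c V (fun a ha => hc0 a (hA₂ ha)) (fun a ha => hrep a (hA₂ ha)) (fun a ha => hV a (hA₂ ha)) hVr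
    (fun S hS h2 => by
      have h3 := card_le_card (image_subset_image (f := fun a => part S (c a)) hA₂)
      have h4 : ((A₂.image fun a => part S (c a)).card : ℝ) ≤
        ((A'.image fun a => part S (c a)).card : ℝ) := by exact_mod_cast h3
      exact h4.trans (hpat S hS (h2.trans h3)))
  have hsplit : (S.card : ℝ) + ((A₂ \ S).card : ℝ) = A₂.card := by
    have := card_sdiff_add_card_eq_card hSA
    exact_mod_cast (by omega : S.card + (A₂ \ S).card = A₂.card)
  have hpw : ∀ x : ℝ, (A₂.card : ℝ) / 2 ≤ x → (N : ℝ) ^ ((k : ℝ) - ε / 2) ≤ 2 ^ k * x ^ k := by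
    intro x hx
    have h1 : (N : ℝ) ^ (1 - δ) ≤ 2 * x := by linarith
    calc (N : ℝ) ^ ((k : ℝ) - ε / 2) ≤ (N : ℝ) ^ ((1 - δ) * k) :=
          Real.rpow_le_rpow_of_exponent_le (by linarith) (by nlinarith)
      _ = ((N : ℝ) ^ (1 - δ)) ^ k := by rw [Real.rpow_mul hN0.le, Real.rpow_natCast]
      _ ≤ (2 * x) ^ k := pow_le_pow_left₀ (by positivity) h1 k
      _ = 2 ^ k * x ^ k := mul_pow _ _ _
  have hNN : (N : ℝ) ^ ((k : ℝ) - ε / 2) = (N : ℝ) ^ ((k : ℝ) - ε) * (N : ℝ) ^ (ε / 2) := by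
    rw [← Real.rpow_add hN0]
    congr 1
    ring
  have hNe : 0 < (N : ℝ) ^ (ε / 2) := by positivity
  have hA₂A : A₂ ⊆ A := hA₂.trans hA'
  rcases le_total ((A₂.card : ℝ) / 2) ((A₂ \ S).card : ℝ) with h1 | h1
  · left
    have h2 := hpw _ h1
    have h3 : ((A₂ \ S).card : ℝ) ^ k ≤ 2 ^ k * (N : ℝ) ^ (ε / 2) *
        (((Fintype.piFinset fun _ : Fin k => A).image fun f => ∏ i, f i).card : ℝ) := by
      refine (hcount _ subset_rfl).trans ?_
      refine mul_le_mul_of_nonneg_left ?_ (by positivity)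
      have h5 : ((Fintype.piFinset fun _ : Fin k => A₂ \ S).image
          fun f => ∏ i, f i).card ≤
          ((Fintype.piFinset fun _ : Fin k => A).image fun f => ∏ i, f i).card :=
        card_le_card (image_subset_image (Fintype.piFinset_subset _ _
          fun _ => sdiff_subset.trans hA₂A))
      exact_mod_cast h5
    have h6 : (N : ℝ) ^ ((k : ℝ) - ε) * (N : ℝ) ^ (ε / 2) ≤ (4 ^ k *
        (((Fintype.piFinset fun _ : Fin k => A).image fun f => ∏ i, f i).card : ℝ)) *
          (N : ℝ) ^ (ε / 2) := by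
      rw [← hNN]
      refine h2.trans ?_
      calc 2 ^ k * ((A₂ \ S).card : ℝ) ^ k ≤ 2 ^ k * (2 ^ k * (N : ℝ) ^ (ε / 2) *
          (((Fintype.piFinset fun _ : Fin k => A).image fun f => ∏ i, f i).card : ℝ)) :=
            mul_le_mul_of_nonneg_left h3 (by positivity)
        _ = _ := by
            rw [show (4 : ℝ) = 2 * 2 by norm_num, mul_pow]
            ring
    exact le_of_mul_le_mul_right h6 hNe
  · right
    intro B hB
    have hB1 : (1 : ℝ) ≤ B.card := by exact_mod_cast hB.card_pos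
    have h2 := hpw (S.card : ℝ) (by linarith)
    have h3 := hsum B hB
    have h4 : (B.card : ℝ) ^ (1 - ε) ≤ (B.card : ℝ) ^ (1 - ε / 2) :=
      Real.rpow_le_rpow_of_exponent_le hB1 (by linarith)
    have h5 : ((((Fintype.piFinset fun _ : Fin k => S).image fun f => ∑ i, f i) + B).card : ℝ) ≤
        ((((Fintype.piFinset fun _ : Fin k => A).image fun f => ∑ i, f i) + B).card : ℝ) := by
      have : (((Fintype.piFinset fun _ : Fin k => S).image fun f => ∑ i, f i) + B).card ≤
          (((Fintype.piFinset fun _ : Fin k => A).image fun f => ∑ i, f i) + B).card :=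
        card_le_card (add_subset_add_right (image_subset_image (Fintype.piFinset_subset _ _
          fun _ => hSA.trans hA₂A)))
      exact_mod_cast this
    have h6 : ((N : ℝ) ^ ((k : ℝ) - ε) * (B.card : ℝ) ^ (1 - ε)) * (N : ℝ) ^ (ε / 2) ≤ (4 ^ k *
        ((((Fintype.piFinset fun _ : Fin k => A).image fun f => ∑ i, f i) + B).card : ℝ)) *
          (N : ℝ) ^ (ε / 2) := by
      calc ((N : ℝ) ^ ((k : ℝ) - ε) * (B.card : ℝ) ^ (1 - ε)) * (N : ℝ) ^ (ε / 2)
          = (N : ℝ) ^ ((k : ℝ) - ε / 2) * (B.card : ℝ) ^ (1 - ε) := by rw [hNN]; ring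
        _ ≤ (2 ^ k * (S.card : ℝ) ^ k) * (B.card : ℝ) ^ (1 - ε / 2) :=
            mul_le_mul h2 h4 (by positivity) (by positivity)
        _ = 2 ^ k * ((S.card : ℝ) ^ k * (B.card : ℝ) ^ (1 - ε / 2)) := by ring
        _ ≤ 2 ^ k * ((N : ℝ) ^ (ε / 2) *
            ((((Fintype.piFinset fun _ : Fin k => A).image fun f => ∑ i, f i) + B).card : ℝ)) := by
            refine mul_le_mul_of_nonneg_left (h3.trans ?_) (by positivity)
            exact mul_le_mul_of_nonneg_left h5 hNe.le
        _ ≤ 4 ^ k * ((N : ℝ) ^ (ε / 2) *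
            ((((Fintype.piFinset fun _ : Fin k => A).image fun f => ∑ i, f i) + B).card : ℝ)) := by
            refine mul_le_mul_of_nonneg_right ?_ (by positivity)
            exact pow_le_pow_left₀ (by norm_num) (by norm_num) k
        _ = _ := by ring
    exact le_of_mul_le_mul_right h6 hNe


end Run7.h223.Sp
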