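import Pool.Agent.Run7.h223.SpH

/-!
# Squarefree cofactors with small VC dimension
-/

set_option linter.unusedSectionVars false

open Finset
open scoped Nat Pointwise

namespace Run7.h223.Sp

open Pool.Agent.Run7.h84.MG

/-- for squarefree numbers a set of primes with many patterns is shattered -/
lemma patterns_le (X : Finset ℤ) (c : ℤ → ℕ) (hc : ∀ a ∈ X, Squarefree (c a)) (S : Finset ℕ)
    (hS : ∀ p ∈ S, p.Prime) (h : 2 ^ S.card ≤ (X.image fun a => part S (c a)).card) :
    (X.image fun a => part S (c a)).card ≤ 2 ^ (X.image fun a => (c a).primeFactors).vcDim := by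
  have h1 : (X.image fun a => part S (c a)).card ≤
      ((X.image fun a => (c a).primeFactors).image fun Y => S ∩ Y).card := by
    rw [image_image]
    apply card_image_le_of
    intro a ha b hb hab
    rw [part_eq_iff hS]
    intro p hp
    rw [fact_squarefree (hc a ha), fact_squarefree (hc b hb)]
    simp only [Function.comp] at hab
    have h2 : p ∈ S ∩ (c a).primeFactors ↔ p ∈ S ∩ (c b).primeFactors := by rw [hab]
    rw [mem_inter, mem_inter] at h2
    by_cases h3 : p ∈ (c a).primeFactors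
    · rw [if_pos h3, if_pos (h2.1 ⟨hp, h3⟩).2]
    · rw [if_neg h3, if_neg fun h4 => h3 (h2.2 ⟨hp, h4⟩).2]
  have h2 : ((X.image fun a => (c a).primeFactors).image fun Y => S ∩ Y) ⊆ S.powerset := by
    intro Y hY
    rw [mem_image] at hY
    obtain ⟨Z, _, rfl⟩ := hY
    rw [mem_powerset]
    exact inter_subset_left
  have h3 : (X.image fun a => (c a).primeFactors).Shatters S := by
    rw [shatters_iff]
    apply eq_of_subset_of_card_le h2
    rw [card_powerset]
    exact h.trans h1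
  calc (X.image fun a => part S (c a)).card ≤ _ := h1
    _ ≤ S.powerset.card := card_le_card h2
    _ = 2 ^ S.card := card_powerset S
    _ ≤ _ := Nat.pow_le_pow_right (by norm_num) h3.card_le_vcDim

open Classical in
/-- squarefree cofactors -/
theorem squarefree_cofactors (k : ℕ) (hk : 1 ≤ k) (ε : ℝ) (hε : 0 < ε) :
    ∃ δ : ℝ, 0 < δ ∧ ∀ (N r : ℕ) (t : Fin r → ℚ), 16 ≤ N →
      (∀ i, 0 < t i) → (r : ℝ) * Real.log (Real.log N) ≤ δ * Real.log N →
      ∀ A A' : Finset ℤ, A' ⊆ A → (N : ℝ) ^ (1 - δ) ≤ A'.card → ∀ c : ℤ → ℕ,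
      (∀ a ∈ A', Squarefree (c a)) →
      (∀ a ∈ A', ∃ e : Fin r → ℤ, |(a : ℚ)| = (∏ i, t i ^ e i) * c a) →
      ((A'.image fun a => (c a).primeFactors).vcDim : ℝ) ≤ δ * Real.log N →
      (N : ℝ) ^ ((k : ℝ) - ε) ≤
        4 ^ k * (((Fintype.piFinset fun _ : Fin k => A).image fun f => ∏ i, f i).card : ℝ) ∨
      ∀ B : Finset ℤ, B.Nonempty → (N : ℝ) ^ ((k : ℝ) - ε) * (B.card : ℝ) ^ (1 - ε) ≤
        4 ^ k *
          ((((Fintype.piFinset fun _ : Fin k => A).image fun f => ∑ i, f i) + B).card : ℝ) := by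
  obtain ⟨δ, hδ, h⟩ := part2v k hk ε hε
  refine ⟨δ, hδ, ?_⟩
  intro N r t hN ht hr A A' hA' hcard c hc hrep hvc
  have hN16 : (16 : ℝ) ≤ N := by exact_mod_cast hN
  have hN0 : (0 : ℝ) < N := by linarith
  have hℓe : Real.exp 1 ≤ Real.log N := log16.trans (Real.log_le_log (by norm_num) hN16)
  have hℓ0 : 0 < Real.log N := (Real.exp_pos 1).trans_le hℓe
  have hL : 1 ≤ Real.log (Real.log N) := by
    rw [Real.le_log_iff_exp_le hℓ0]
    exact hℓe
  have hrδ : (r : ℝ) ≤ δ * Real.log N := by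
    have : (r : ℝ) * 1 ≤ r * Real.log (Real.log N) := mul_le_mul_of_nonneg_left hL (Nat.cast_nonneg r)
    linarith
  have hpow : ∀ m : ℕ, (m : ℝ) ≤ δ * Real.log N → (2 : ℝ) ^ m ≤ (N : ℝ) ^ δ := by
    intro m hm
    have h2 : (2 : ℝ) ^ m = Real.exp (Real.log 2 * m) := by
      rw [Real.exp_mul, Real.exp_log (by norm_num), Real.rpow_natCast]
    rw [h2, Real.rpow_def_of_pos hN0, Real.exp_le_exp]
    have h3 : Real.log 2 ≤ 1 := by linarith [Real.log_two_lt_d9]
    have h4 : (0 : ℝ) ≤ m := Nat.cast_nonneg m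
    nlinarith
  refine h δ hδ le_rfl N r t hN ht hr A A' hA' hcard c 1 (fun a ha => (hc a ha).ne_zero) hrep
    (fun a ha p => (hc a ha).natFactorization_le_one p) ?_ ?_
  · have := hpow r hrδ
    norm_num
    exact this
  · intro S hS h2
    have h3 := patterns_le A' c hc S hS h2
    have h4 : ((A'.image fun a => part S (c a)).card : ℝ) ≤
        (2 : ℝ) ^ (A'.image fun a => (c a).primeFactors).vcDim := by exact_mod_cast h3
    exact h4.trans (hpow _ hvc)

end Run7.h223.Sp
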