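import Pool.Agent.Run7.h223.SpF

/-! Robust versions: few large shattered sets. -/

set_option linter.unusedSectionVars false

open Finset
open scoped Classical Nat

namespace Run7.h223.Sp

variable {ι κ : Type} [Fintype ι] [Fintype κ]

/-- **Sums of set families and large shattered sets.** -/
theorem familiesR0 (F : κ → Finset (Finset ι)) (d : κ → ℕ) :
    (∏ j, ((F j).card - ((F j).shatterer.filter fun S => d j < S.card).card)) * ∏ j, (d j)! ≤
      (∑ j, d j)! * ((Fintype.piFinset F).image mult).card := by
  obtain ⟨D, hcard, hlow, himg⟩ := exists_low (univ : Finset ι)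
  set A : κ → Finset (ι → ℕ) := fun j => (F j).image ind with hA
  have hpats : ∀ j S, (pats S (D (A j))).card ≤ (F j |>.image fun X => S ∩ X).card := by
    intro j S
    rw [← card_pats_ind, pats_eq (κ := Unit), pats_eq (κ := Unit)]
    exact himg Unit S fun _ => A j
  have hle1 : ∀ j, ∀ x ∈ D (A j), ∀ l, x l ≤ 1 := by
    intro j x hx l
    have h1 : ((Icc 0 (x l)).image fun t => Function.update (0 : ι → ℕ) l t) ⊆ pats {l} (D (A j)) := by
      intro y hy
      rw [mem_image] at hy
      obtain ⟨t, ht, rfl⟩ := hy
      rw [mem_Icc] at ht
      unfold pats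
      rw [mem_image]
      refine ⟨Function.update (0 : ι → ℕ) l t, mem_of_le (fun i => hlow (A j) i (mem_univ i)) hx ?_, ?_⟩
      · intro m
        by_cases hm : m = l
        · subst hm
          rw [Function.update_self]
          exact ht.2
        · rw [Function.update_of_ne hm]
          exact Nat.zero_le _
      · funext m
        by_cases hm : m = l
        · subst hm; simp
        · rw [if_neg (by simpa using hm), Function.update_of_ne hm]
          rfl
    have h2 := (card_le_card h1).trans ((hpats j {l}).trans (card_traces_le _ _))
    rw [card_image_of_injective _ (Function.update_injective (0 : ι → ℕ) l)] at h2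
    simp at h2
    omega
  have hsh : ∀ j, ∀ x ∈ D (A j), (F j).Shatters (univ.filter fun l => x l ≠ 0) ∧
      ∑ l, x l = (univ.filter fun l => x l ≠ 0).card := by
    intro j x hx
    have h3 := box_le_pats (fun i => hlow (A j) i (mem_univ i)) hx
    set S : Finset ι := univ.filter fun l => x l ≠ 0 with hS
    have h4 : 2 ^ S.card ≤ box x := by
      unfold box
      calc 2 ^ S.card = ∏ _l ∈ S, 2 := by rw [prod_const]
        _ ≤ ∏ l ∈ S, (x l + 1) := by
            apply prod_le_prod'
            intro l hl
            rw [hS, mem_filter] at hl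
            omega
        _ ≤ _ := by
            apply prod_le_prod_of_subset_of_one_le' (subset_univ _)
            intro l _ _
            omega
    refine ⟨shatters_of_card (h4.trans (h3.trans (hpats j S))), ?_⟩
    rw [hS, card_filter]
    apply sum_congr rfl
    intro l _
    have := hle1 j x hx l
    by_cases h7 : x l = 0
    · simp [h7]
    · rw [if_pos h7]; omega
  set D' : κ → Finset (ι → ℕ) := fun j => (D (A j)).filter fun x => ∑ l, x l ≤ d j with hD'
  have hD'c : ∀ j, (F j).card - ((F j).shatterer.filter fun S => d j < S.card).card ≤ (D' j).card := by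
    intro j
    have h1 : (D (A j)).card = (F j).card := by
      rw [hcard (A j), hA, card_image_of_injective _ ind_injective]
    have h2 : ((D (A j)).filter fun x => ¬ ∑ l, x l ≤ d j).card ≤
        ((F j).shatterer.filter fun S => d j < S.card).card := by
      apply card_le_card_of_injOn fun x => univ.filter fun l => x l ≠ 0
      · intro x hx
        rw [mem_coe, mem_filter] at hx
        rw [mem_coe, mem_filter, mem_shatterer]
        have h3 := hsh j x hx.1
        refine ⟨h3.1, ?_⟩
        rw [← h3.2]
        omega
      · intro x hx y hy hxy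
        rw [mem_coe, mem_filter] at hx hy
        funext l
        have h3 := hle1 j x hx.1 l
        have h4 := hle1 j y hy.1 l
        have h5 : l ∈ (univ.filter fun l => x l ≠ 0) ↔ l ∈ (univ.filter fun l => y l ≠ 0) := by
          simp only at hxy
          rw [hxy]
        rw [mem_filter, mem_filter] at h5
        simp only [mem_univ, true_and] at h5
        by_cases h6 : x l = 0
        · have : y l = 0 := by
            by_contra h7
            exact (h5.2 h7) h6
          rw [h6, this]
        · have h7 := h5.1 h6
          omega
    have h3 := card_filter_add_card_filter_not (s := D (A j)) fun x => ∑ l, x l ≤ d j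
    have h4 : (D' j).card = ((D (A j)).filter fun x => ∑ l, x l ≤ d j).card := rfl
    omega
  have h1 : ((Fintype.piFinset fun j => D (A j)).image fun x => ∑ j, x j).card
      ≤ ((Fintype.piFinset F).image mult).card := by
    have h2 := himg κ univ A
    unfold img at h2
    have e : (comb univ : (κ → ι → ℕ) → ι → ℕ) = fun x => ∑ j, x j := by
      funext x
      exact comb_univ x
    rw [e] at h2
    refine h2.trans (card_le_card ?_)
    intro z hz
    rw [mem_image] at hz
    obtain ⟨x, hx, rfl⟩ := hz
    rw [Fintype.mem_piFinset] at hx
    have h3 : ∀ j, ∃ X ∈ F j, ind X = x j := fun j => by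
      have := hx j
      rwa [hA, mem_image] at this
    choose X hX hXx using h3
    rw [mem_image]
    refine ⟨X, by rw [Fintype.mem_piFinset]; exact hX, ?_⟩
    rw [mult_eq]
    exact sum_congr rfl fun j _ => hXx j
  have h0 : ((Fintype.piFinset D').image fun x => ∑ j, x j).card ≤
      ((Fintype.piFinset fun j => D (A j)).image fun x => ∑ j, x j).card :=
    card_le_card (image_subset_image (Fintype.piFinset_subset _ _ fun j => filter_subset _ _))
  have h2 : (Fintype.piFinset D').card * ∏ j, (d j)! ≤
      (∑ j, d j)! * ((Fintype.piFinset D').image fun x => ∑ j, x j).card := by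
    rw [card_eq_sum_card_image (fun x => ∑ j, x j) (Fintype.piFinset D'), sum_mul,
      mul_comm, ← smul_eq_mul]
    apply sum_le_card_nsmul
    intro z _
    apply matrices _ _ z rfl
    intro x hx
    rw [mem_filter, Fintype.mem_piFinset] at hx
    refine ⟨hx.2, fun j => ?_⟩
    have h3 := hx.1 j
    rw [hD', mem_filter] at h3
    exact h3.2
  have h3 : ∏ j, ((F j).card - ((F j).shatterer.filter fun S => d j < S.card).card) ≤
      (Fintype.piFinset D').card := by
    rw [Fintype.card_piFinset]
    exact prod_le_prod' fun j _ => hD'c j
  exact (Nat.mul_le_mul_right _ h3).trans (h2.trans (Nat.mul_le_mul_left _ (h0.trans h1)))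

/-- the same with arbitrary instances -/
theorem familiesR [dι : DecidableEq ι] [dκ : DecidableEq κ] (F : κ → Finset (Finset ι)) (d : κ → ℕ) :
    (∏ j, ((F j).card - ((F j).shatterer.filter fun S => d j < S.card).card)) * ∏ j, (d j)! ≤
      (∑ j, d j)! * ((Fintype.piFinset F).image mult).card := by
  have e1 : dι = fun a b => Classical.propDecidable (a = b) := Subsingleton.elim _ _
  have e2 : dκ = fun a b => Classical.propDecidable (a = b) := Subsingleton.elim _ _
  subst e1
  subst e2
  exact familiesR0 F d

lemma shattered_tr_le (P : Finset ℕ) (A : Finset ℕ) (d : ℕ) :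
    ((A.image (tr P)).shatterer.filter fun S => d < S.card).card ≤
      ((A.image Nat.primeFactors).shatterer.filter fun S => d < S.card).card := by
  apply card_le_card_of_injOn fun S => S.map (Function.Embedding.subtype _)
  · intro S hS
    rw [mem_coe, mem_filter, mem_shatterer] at hS
    rw [mem_coe, mem_filter, mem_shatterer, card_map]
    refine ⟨?_, hS.2⟩
    intro t ht
    obtain ⟨u, hu, hSu⟩ := hS.1 (filter_subset (fun p : {p // p ∈ P} => (p : ℕ) ∈ t) S)
    rw [mem_image] at hu
    obtain ⟨a, ha, rfl⟩ := hu
    refine ⟨a.primeFactors, mem_image_of_mem _ ha, ?_⟩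
    ext p
    rw [mem_inter, mem_map]
    constructor
    · rintro ⟨⟨q, hq, rfl⟩, hp⟩
      have h2 : q ∈ S ∩ tr P a := by
        rw [mem_inter]
        refine ⟨hq, ?_⟩
        unfold tr
        rw [mem_filter]
        exact ⟨mem_univ _, hp⟩
      rw [hSu, mem_filter] at h2
      exact h2.2
    · intro hp
      have h2 := ht hp
      rw [mem_map] at h2
      obtain ⟨q, hq, rfl⟩ := h2
      have h3 : q ∈ S.filter fun p : {p // p ∈ P} => (p : ℕ) ∈ t := by
        rw [mem_filter]
        exact ⟨hq, hp⟩
      rw [← hSu, mem_inter] at h3
      unfold tr at h3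
      rw [mem_filter] at h3
      exact ⟨⟨q, hq, rfl⟩, h3.2.2⟩
  · intro S _ T _ h
    exact map_injective _ h

end Run7.h223.Sp
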