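import Mathlib

set_option autoImplicit false

/-!
# Weighted binary trees without order-shattered sets of size `d + 1`

For a weighted binary tree (the trie of a weighted family of sets, read along a fixed order of
the elements) let `sg T i` be the sum, over the nodes of level `i`, of the geometric mean of the
two masses below the node.  If no `(d+1)`-set of levels is order-shattered then
`∑ (sg T i)^2 ≤ K d * (mass T)^2`, with a constant depending only on `d`.
-/

namespace Run7.h223.UC

open Finset Real

/-- binary trees with real weights at the leaves -/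
inductive Tr where
  | leaf (w : ℝ) : Tr
  | node (l r : Tr) : Tr

namespace Tr

/-- total mass -/
noncomputable def mass : Tr → ℝ
  | leaf w => w
  | node l r => mass l + mass r

/-- all weights are nonnegative -/
def NN : Tr → Prop
  | leaf w => 0 ≤ w
  | node l r => NN l ∧ NN r

/-- sum over the nodes of level `i` of the geometric mean of the masses of the two children -/
noncomputable def sg : Tr → ℕ → ℝ
  | leaf _, _ => 0
  | node l r, 0 => √(mass l * mass r)
  | node l r, i + 1 => sg l i + sg r i

/-- the tree of the nodes of level `k` that split -/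
noncomputable def cut : Tr → ℕ → Tr
  | leaf _, _ => leaf 0
  | node l r, 0 => leaf (√(mass l * mass r))
  | node l r, k + 1 => node (cut l k) (cut r k)

/-- order-shattered sets of levels, as lists of bits -/
def Osh : Tr → List Bool → Prop
  | leaf w, S => w ≠ 0 ∧ ∀ b ∈ S, b = false
  | node l r, [] => Osh l [] ∨ Osh r []
  | node l r, false :: S => Osh l S ∨ Osh r S
  | node l r, true :: S => Osh l S ∧ Osh r S

/-- all order-shattered sets of levels have at most `d` elements -/
def Dm (d : ℕ) (T : Tr) : Prop := ∀ S, Osh T S → S.count true ≤ d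

theorem mass_nonneg {T : Tr} (h : NN T) : 0 ≤ mass T := by
  induction T with
  | leaf w => exact h
  | node l r ihl ihr => exact add_nonneg (ihl h.1) (ihr h.2)

theorem sg_nonneg {T : Tr} (h : NN T) (i : ℕ) : 0 ≤ sg T i := by
  induction T generalizing i with
  | leaf w => simp [sg]
  | node l r ihl ihr =>
    cases i with
    | zero => simp only [sg]; exact sqrt_nonneg _
    | succ i => simp only [sg]; exact add_nonneg (ihl h.1 i) (ihr h.2 i)

theorem mass_cut (T : Tr) (k : ℕ) : mass (cut T k) = sg T k := by
  induction T generalizing k with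
  | leaf w => simp [cut, sg, mass]
  | node l r ihl ihr =>
    cases k with
    | zero => simp [cut, sg, mass]
    | succ k => simp [cut, sg, mass, ihl, ihr]

theorem nn_cut {T : Tr} (k : ℕ) : NN (cut T k) := by
  induction T generalizing k with
  | leaf w => simp [cut, NN]
  | node l r ihl ihr =>
    cases k with
    | zero => simp only [cut, NN]; exact sqrt_nonneg _
    | succ k => simp only [cut, NN]; exact ⟨ihl k, ihr k⟩

theorem sg_le {T : Tr} (h : NN T) (i : ℕ) : sg T i ≤ mass T / 2 := by
  induction T generalizing i with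
  | leaf w =>
    simp only [sg, mass]
    have : 0 ≤ w := h
    positivity
  | node l r ihl ihr =>
    have h1 := mass_nonneg h.1
    have h2 := mass_nonneg h.2
    cases i with
    | zero =>
      simp only [sg, mass]
      rw [Real.sqrt_le_left (by positivity)]
      nlinarith [sq_nonneg (mass l - mass r)]
    | succ i =>
      simp only [sg, mass]
      have := ihl h.1 i
      have := ihr h.2 i
      linarith

theorem sg_zero {T : Tr} (h : NN T) (h0 : mass T = 0) (i : ℕ) : sg T i = 0 := by
  have h1 := sg_le h i
  have h2 := sg_nonneg h i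
  rw [h0] at h1
  linarith

theorem osh_nil {T : Tr} (h : mass T ≠ 0) : Osh T [] := by
  induction T with
  | leaf w => exact ⟨h, by simp⟩
  | node l r ihl ihr =>
    by_cases hl : mass l = 0
    · right
      apply ihr
      intro hr
      exact h (by simp [mass, hl, hr])
    · left
      exact ihl hl

theorem osh_of_sg {T : Tr} (hN : NN T) {k : ℕ} (h : sg T k ≠ 0) :
    Osh T (List.replicate k false ++ [true]) := by
  induction T generalizing k with
  | leaf w => simp [sg] at h
  | node l r ihl ihr =>
    cases k with
    | zero =>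
      simp only [sg] at h
      simp only [List.replicate_zero, List.nil_append]
      refine ⟨osh_nil fun h' => h (by simp [h']), osh_nil fun h' => h (by simp [h'])⟩
    | succ k =>
      simp only [sg] at h
      simp only [List.replicate_succ, List.cons_append]
      by_cases hl : sg l k = 0
      · right
        apply ihr hN.2
        intro hr
        exact h (by simp [hl, hr])
      · left
        exact ihl hN.1 hl

theorem sg_of_dm_zero {T : Tr} (hN : NN T) (hD : Dm 0 T) (k : ℕ) : sg T k = 0 := by
  by_contra h
  have := hD _ (osh_of_sg hN h)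
  simp at this

theorem dm_left {d : ℕ} {l r : Tr} (h : Dm d (node l r)) : Dm d l := by
  intro S hS
  have := h (false :: S) (Or.inl hS)
  simpa using this

theorem dm_right {d : ℕ} {l r : Tr} (h : Dm d (node l r)) : Dm d r := by
  intro S hS
  have := h (false :: S) (Or.inr hS)
  simpa using this

/-- padding a bit list of length at most `k` to length `k` and adding the bit `true` -/
def pad : ℕ → List Bool → List Bool
  | 0, _ => [true]
  | k + 1, [] => false :: pad k []
  | k + 1, b :: S => b :: pad k S

theorem osh_cut {T : Tr} {k : ℕ} {S : List Bool} (h : Osh (cut T k) S) :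
    Osh T (pad k S) ∧ (pad k S).count true = S.count true + 1 := by
  induction T generalizing k S with
  | leaf w =>
    simp only [cut, Osh] at h
    exact absurd rfl h.1
  | node l r ihl ihr =>
    cases k with
    | zero =>
      simp only [cut, Osh] at h
      simp only [pad]
      have h1 := h.1
      refine ⟨⟨osh_nil fun h' => h1 (by simp [h']), osh_nil fun h' => h1 (by simp [h'])⟩, ?_⟩
      have : S.count true = 0 := by
        rw [List.count_eq_zero]
        intro h2
        exact absurd (h.2 _ h2) (by decide)
      rw [this]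
      rfl
    | succ k =>
      match S with
      | [] =>
        simp only [cut, Osh] at h
        simp only [pad]
        rcases h with h | h
        · have := ihl h
          refine ⟨Or.inl this.1, ?_⟩
          rw [List.count_cons_of_ne (by decide)]
          exact this.2
        · have := ihr h
          refine ⟨Or.inr this.1, ?_⟩
          rw [List.count_cons_of_ne (by decide)]
          exact this.2
      | false :: S =>
        simp only [cut, Osh] at h
        simp only [pad]
        rcases h with h | h
        · have := ihl h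
          refine ⟨Or.inl this.1, ?_⟩
          rw [List.count_cons_of_ne (by decide), List.count_cons_of_ne (by decide)]
          exact this.2
        · have := ihr h
          refine ⟨Or.inr this.1, ?_⟩
          rw [List.count_cons_of_ne (by decide), List.count_cons_of_ne (by decide)]
          exact this.2
      | true :: S =>
        simp only [cut, Osh] at h
        simp only [pad]
        have h1 := ihl h.1
        have h2 := ihr h.2
        refine ⟨⟨h1.1, h2.1⟩, ?_⟩
        rw [List.count_cons_self, List.count_cons_self, h1.2]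

theorem dm_cut {d : ℕ} {T : Tr} (h : Dm (d + 1) T) (k : ℕ) : Dm d (cut T k) := by
  intro S hS
  have h1 := osh_cut hS
  have h2 := h _ h1.1
  omega

/-! ### the weighted inequality -/

theorem cs2 {a b c d : ℝ} (ha : 0 ≤ a) (hb : 0 ≤ b) (hc : 0 ≤ c) (hd : 0 ≤ d) :
    √(a * b) + √(c * d) ≤ √((a + c) * (b + d)) := by
  apply Real.le_sqrt_of_sq_le
  have h1 : √(a * b) ^ 2 = a * b := sq_sqrt (by positivity)
  have h2 : √(c * d) ^ 2 = c * d := sq_sqrt (by positivity)
  have h3 : √(a * b) * √(c * d) ≤ (a * d + c * b) / 2 := by
    rw [← Real.sqrt_mul (by positivity)]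
    rw [Real.sqrt_le_left (by positivity)]
    nlinarith [sq_nonneg (a * d - c * b)]
  nlinarith

/-- one coordinate -/
theorem coord {a b m n : ℝ} (ha : 0 ≤ a) (hb : 0 ≤ b) (hm : 0 < m) (hn : 0 < n) :
    √(m * n) * ((a + b) / (m + n) - |a / m - b / n|) ≤ √(a * b) := by
  have e : √(a * b) = √(m * n) * √((a / m) * (b / n)) := by
    rw [← Real.sqrt_mul (by positivity)]
    congr 1
    field_simp
  rw [e]
  apply mul_le_mul_of_nonneg_left _ (sqrt_nonneg _)
  obtain ⟨X, hX⟩ : ∃ X, X = a / m := ⟨_, rfl⟩
  obtain ⟨Y, hY⟩ : ∃ Y, Y = b / n := ⟨_, rfl⟩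
  have hX0 : 0 ≤ X := by rw [hX]; positivity
  have hY0 : 0 ≤ Y := by rw [hY]; positivity
  have ea : a = m * X := by rw [hX]; field_simp
  have eb : b = n * Y := by rw [hY]; field_simp
  rw [← hX, ← hY]
  have h1 : min X Y ≤ √(X * Y) := by
    apply Real.le_sqrt_of_sq_le
    rcases le_total X Y with h | h
    · rw [min_eq_left h]; nlinarith
    · rw [min_eq_right h]; nlinarith
  refine le_trans ?_ h1
  rw [ea, eb]
  rw [sub_le_iff_le_add, div_le_iff₀ (by positivity)]
  rcases le_total X Y with h | h
  · rw [min_eq_left h, abs_of_nonpos (by linarith)]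
    nlinarith
  · rw [min_eq_right h, abs_of_nonneg (by linarith)]
    nlinarith

/-- tail energy -/
noncomputable def qn (n k : ℕ) (T : Tr) : ℝ := (∑ j ∈ range n, sg T (k + j) ^ 2) / mass T

/-- tail inner product -/
noncomputable def Mt (t : ℕ → ℝ) (n k : ℕ) (T : Tr) : ℝ := ∑ j ∈ range n, t j * sg T (k + j)

theorem Mt_node (t : ℕ → ℝ) (n k : ℕ) (l r : Tr) :
    Mt t n (k + 1) (node l r) = Mt t n k l + Mt t n k r := by
  unfold Mt
  rw [← sum_add_distrib]
  refine sum_congr rfl fun j _ => ?_
  rw [show k + 1 + j = (k + j) + 1 by ring]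
  simp only [sg]
  ring

/-- block inner product -/
noncomputable def Rb : List ℝ → Tr → ℝ
  | [], _ => 0
  | _ :: _, leaf _ => 0
  | x :: b, node l r => x * √(mass l * mass r) + Rb b l + Rb b r

/-- the second-order sum -/
noncomputable def Sb (t : ℕ → ℝ) (n : ℕ) : List ℝ → Tr → ℝ
  | [], _ => 0
  | _ :: _, leaf _ => 0
  | x :: b, node l r => x * (∑ j ∈ range n, t j * √(sg l (b.length + j) * sg r (b.length + j))) +
      Sb t n b l + Sb t n b r

/-- variance -/
noncomputable def En (n : ℕ) : List ℝ → Tr → ℝ
  | [], _ => 0
  | _ :: _, leaf _ => 0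
  | _ :: b, node l r => (qn n b.length l + qn n b.length r - qn n (b.length + 1) (node l r)) +
      En n b l + En n b r

/-- sum of squares -/
noncomputable def Qs : List ℝ → ℝ
  | [] => 0
  | x :: b => x ^ 2 + Qs b

theorem Qs_nonneg (b : List ℝ) : 0 ≤ Qs b := by
  induction b with
  | nil => simp [Qs]
  | cons x b ih => simp only [Qs]; positivity

/-- the condition on all nodes of the block -/
def Gd (t : ℕ → ℝ) (n : ℕ) (K : ℝ) : List ℝ → Tr → Prop
  | [], T => 0 ≤ K * mass T - Mt t n 0 T
  | _ :: b, leaf w => 0 ≤ K * mass (leaf w) - Mt t n (b.length + 1) (leaf w)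
  | x :: b, node l r => 0 ≤ K * mass (node l r) - Mt t n (b.length + 1) (node l r) ∧
      (K * mass (node l r) - Mt t n (b.length + 1) (node l r)) * Rb (x :: b) (node l r) ≤
        (K / 3 * mass (node l r)) ^ 2 ∧ Gd t n K b l ∧ Gd t n K b r

theorem gd_nonneg {t : ℕ → ℝ} {n : ℕ} {K : ℝ} {b : List ℝ} {T : Tr} (h : Gd t n K b T) :
    0 ≤ K * mass T - Mt t n b.length T := by
  match b, T with
  | [], T => exact h
  | x :: b, leaf w => exact h
  | x :: b, node l r => exact h.1

theorem Rb_nonneg {b : List ℝ} {T : Tr} (hN : NN T) (hb : ∀ x ∈ b, 0 ≤ x) : 0 ≤ Rb b T := by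
  induction b generalizing T with
  | nil => simp [Rb]
  | cons x b ih =>
    match T with
    | leaf w => simp [Rb]
    | node l r =>
      simp only [Rb]
      have h1 := ih (T := l) hN.1 fun y hy => hb y (List.mem_cons_of_mem _ hy)
      have h2 := ih (T := r) hN.2 fun y hy => hb y (List.mem_cons_of_mem _ hy)
      have h3 : 0 ≤ x := hb x List.mem_cons_self
      positivity

/-- the increment of the energy -/
theorem energy_step (n k : ℕ) {l r : Tr} (hl : NN l) (hr : NN r) :
    0 ≤ qn n k l + qn n k r - qn n (k + 1) (node l r) ∧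
      (0 < mass l → 0 < mass r →
        (mass l + mass r) * (qn n k l + qn n k r - qn n (k + 1) (node l r)) =
          mass l * mass r * ∑ j ∈ range n, (sg l (k + j) / mass l - sg r (k + j) / mass r) ^ 2) := by
  have e : ∀ j, sg (node l r) (k + 1 + j) = sg l (k + j) + sg r (k + j) := by
    intro j
    rw [show k + 1 + j = (k + j) + 1 by ring]
    simp only [sg]
  have hml := mass_nonneg hl
  have hmr := mass_nonneg hr
  have hpos : 0 < mass l → 0 < mass r →
        (mass l + mass r) * (qn n k l + qn n k r - qn n (k + 1) (node l r)) =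
          mass l * mass r * ∑ j ∈ range n, (sg l (k + j) / mass l - sg r (k + j) / mass r) ^ 2 := by
    intro h1 h2
    unfold qn
    simp only [e, mass]
    rw [mul_sub, mul_add]
    simp only [sum_div, mul_sum]
    rw [← sum_add_distrib, ← sum_sub_distrib]
    refine sum_congr rfl fun j _ => ?_
    field_simp
    ring
  refine ⟨?_, hpos⟩
  rcases hml.eq_or_lt with h1 | h1
  · unfold qn
    simp only [e, mass, ← h1, zero_add, div_zero]
    have : ∀ j, sg l (k + j) = 0 := fun j => sg_zero hl h1.symm _
    simp only [this, zero_add, sub_self, le_refl]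
  rcases hmr.eq_or_lt with h2 | h2
  · unfold qn
    simp only [e, mass, ← h2, add_zero, div_zero]
    have : ∀ j, sg r (k + j) = 0 := fun j => sg_zero hr h2.symm _
    simp only [this, add_zero, sub_self, le_refl]
  have h3 := hpos h1 h2
  have h4 : 0 ≤ mass l * mass r *
      ∑ j ∈ range n, (sg l (k + j) / mass l - sg r (k + j) / mass r) ^ 2 := by positivity
  rw [← h3] at h4
  exact nonneg_of_mul_nonneg_right h4 (by linarith)

theorem En_nonneg {n : ℕ} {b : List ℝ} {T : Tr} (hN : NN T) : 0 ≤ En n b T := by
  induction b generalizing T with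
  | nil => simp [En]
  | cons x b ih =>
    match T with
    | leaf w => simp [En]
    | node l r =>
      simp only [En]
      have h1 := ih (T := l) hN.1
      have h2 := ih (T := r) hN.2
      have h3 := (energy_step n b.length hN.1 hN.2).1
      linarith

/-- the first term -/
theorem first_term {t : ℕ → ℝ} {n : ℕ} {τ : ℝ} (ht : ∀ j, 0 ≤ t j) (hτ : 0 ≤ τ)
    (hτ2 : ∑ j ∈ range n, t j ^ 2 ≤ τ ^ 2) (k : ℕ) {l r : Tr} (hl : NN l) (hr : NN r) :
    √(mass l * mass r) * (Mt t n (k + 1) (node l r) / (mass l + mass r)) -
      τ * √((mass l + mass r) * (qn n k l + qn n k r - qn n (k + 1) (node l r))) ≤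
      ∑ j ∈ range n, t j * √(sg l (k + j) * sg r (k + j)) := by
  have hml := mass_nonneg hl
  have hmr := mass_nonneg hr
  obtain ⟨he, he2⟩ := energy_step n k hl hr
  have hnn : 0 ≤ ∑ j ∈ range n, t j * √(sg l (k + j) * sg r (k + j)) :=
    sum_nonneg fun j _ => mul_nonneg (ht j) (sqrt_nonneg _)
  have hs2 : 0 ≤ τ * √((mass l + mass r) * (qn n k l + qn n k r - qn n (k + 1) (node l r))) :=
    mul_nonneg hτ (sqrt_nonneg _)
  rcases hml.eq_or_lt with h1 | h1
  · rw [← h1] at hs2 ⊢
    simp only [zero_mul, sqrt_zero]
    linarith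
  rcases hmr.eq_or_lt with h2 | h2
  · rw [← h2] at hs2 ⊢
    simp only [mul_zero, sqrt_zero, zero_mul]
    linarith
  have hsq : √(mass l * mass r *
      ∑ j ∈ range n, (sg l (k + j) / mass l - sg r (k + j) / mass r) ^ 2) =
      √(mass l * mass r) *
        √(∑ j ∈ range n, (sg l (k + j) / mass l - sg r (k + j) / mass r) ^ 2) :=
    Real.sqrt_mul (by positivity) _
  rw [he2 h1 h2, hsq]
  set s := √(mass l * mass r) with hs
  have hs0 : 0 ≤ s := sqrt_nonneg _
  set D : ℕ → ℝ := fun j => sg l (k + j) / mass l - sg r (k + j) / mass r with hD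
  have hcs : ∑ j ∈ range n, t j * |D j| ≤ τ * √(∑ j ∈ range n, D j ^ 2) := by
    have h3 := Real.sum_mul_le_sqrt_mul_sqrt (range n) t (fun j => |D j|)
    simp only [sq_abs] at h3
    refine h3.trans ?_
    apply mul_le_mul_of_nonneg_right _ (sqrt_nonneg _)
    rw [Real.sqrt_le_left hτ]
    exact hτ2
  have h4 : ∀ j ∈ range n, t j * (s * ((sg l (k + j) + sg r (k + j)) / (mass l + mass r) - |D j|)) ≤
      t j * √(sg l (k + j) * sg r (k + j)) := fun j _ =>
    mul_le_mul_of_nonneg_left (coord (sg_nonneg hl _) (sg_nonneg hr _) h1 h2) (ht j)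
  have h5 := sum_le_sum h4
  refine le_trans ?_ h5
  have e1 : ∑ j ∈ range n, t j * (s * ((sg l (k + j) + sg r (k + j)) / (mass l + mass r) - |D j|)) =
      s * (Mt t n (k + 1) (node l r) / (mass l + mass r)) - s * ∑ j ∈ range n, t j * |D j| := by
    rw [Mt_node]
    unfold Mt
    rw [← sum_add_distrib, sum_div, mul_sum, mul_sum, ← sum_sub_distrib]
    refine sum_congr rfl fun j _ => ?_
    field_simp
  rw [e1]
  have h6 := mul_le_mul_of_nonneg_left hcs hs0
  linarith

/-- the concave potential -/
theorem potential {K m φ c R B A : ℝ} (hm : 0 < m) (hK : 0 ≤ K) (hφ : 0 ≤ φ) (hc : 0 ≤ c)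
    (hR : 0 ≤ R) (hA : A = √(φ * R)) (hB : B = √(φ * (R + c)))
    (hg : φ * (R + c) ≤ (K / 3 * m) ^ 2) : φ * c / m ≤ 2 * K / 3 * (B - A) := by
  have hA0 : 0 ≤ A := hA ▸ sqrt_nonneg _
  have hB0 : 0 ≤ B := hB ▸ sqrt_nonneg _
  have hA2 : A ^ 2 = φ * R := by rw [hA, sq_sqrt (by positivity)]
  have hB2 : B ^ 2 = φ * (R + c) := by rw [hB, sq_sqrt (by positivity)]
  have hAB : A ≤ B := by
    rw [hA, hB]
    apply sqrt_le_sqrt
    nlinarith
  have hBm : B ≤ K / 3 * m := by
    rw [hB, Real.sqrt_le_left (by positivity)]
    exact hg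
  rw [div_le_iff₀ hm]
  have h1 : (B - A) * (B + A) = φ * c := by nlinarith
  rw [← h1]
  have h2 : B + A ≤ 2 * (K / 3 * m) := by linarith
  have h3 := mul_le_mul_of_nonneg_left h2 (by linarith : 0 ≤ B - A)
  linarith

/-- the lower bound for the second-order sum -/
theorem lower {t : ℕ → ℝ} {n : ℕ} {τ K : ℝ} (ht : ∀ j, 0 ≤ t j) (hτ : 0 ≤ τ)
    (hτ2 : ∑ j ∈ range n, t j ^ 2 ≤ τ ^ 2) (hK : 0 ≤ K) (b : List ℝ) (T : Tr) (hN : NN T)
    (hb : ∀ x ∈ b, 0 ≤ x) (hG : Gd t n K b T) :
    K * Rb b T - 2 * K / 3 * √((K * mass T - Mt t n b.length T) * Rb b T) -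
      τ * √(Qs b * (mass T * En n b T)) ≤ Sb t n b T := by
  induction b generalizing T with
  | nil => simp [Rb, Sb, Qs]
  | cons x b ih =>
    match T with
    | leaf w => simp [Rb, Sb, En]
    | node l r =>
      obtain ⟨hφ, hg, hGl, hGr⟩ := hG
      have hb' : ∀ y ∈ b, 0 ≤ y := fun y hy => hb y (List.mem_cons_of_mem _ hy)
      have hx : 0 ≤ x := hb x List.mem_cons_self
      have hl := ih l hN.1 hb' hGl
      have hr := ih r hN.2 hb' hGr
      have hφl := gd_nonneg hGl
      have hφr := gd_nonneg hGr
      have hRl := Rb_nonneg hN.1 hb'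
      have hRr := Rb_nonneg hN.2 hb'
      have hml := mass_nonneg hN.1
      have hmr := mass_nonneg hN.2
      have hEl := En_nonneg (n := n) (b := b) hN.1
      have hEr := En_nonneg (n := n) (b := b) hN.2
      have hft := first_term ht hτ hτ2 b.length hN.1 hN.2
      have he := (energy_step n b.length hN.1 hN.2).1
      have hQ := Qs_nonneg b
      simp only [List.length_cons] at hφ hg ⊢
      have eφ : K * mass (node l r) - Mt t n (b.length + 1) (node l r) =
          (K * mass l - Mt t n b.length l) + (K * mass r - Mt t n b.length r) := by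
        rw [Mt_node]
        simp only [mass]
        ring
      simp only [Rb, Sb, En, Qs] at hg ⊢
      rw [eφ] at hφ hg ⊢
      have eM : Mt t n (b.length + 1) (node l r) = K * (mass l + mass r) -
          ((K * mass l - Mt t n b.length l) + (K * mass r - Mt t n b.length r)) := by
        rw [Mt_node]
        ring
      rw [eM] at hft
      simp only [mass] at hg ⊢
      set φl := K * mass l - Mt t n b.length l
      set φr := K * mass r - Mt t n b.length r
      set Rl := Rb b l
      set Rr := Rb b r
      set El := En n b l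
      set Er := En n b r
      set ml := mass l
      set mr := mass r
      set e := qn n b.length l + qn n b.length r - qn n (b.length + 1) (node l r)
      set Q := Qs b
      set s := √(ml * mr) with hs
      have hs0 : 0 ≤ s := sqrt_nonneg _
      -- (B)
      have hB1 : √(Q * (ml * El)) + √(Q * (mr * Er)) ≤ √(Q * ((ml + mr) * (El + Er))) := by
        have := cs2 hml (mul_nonneg hQ hEl) hmr (mul_nonneg hQ hEr)
        have e1 : Q * (ml * El) = ml * (Q * El) := by ring
        have e2 : Q * (mr * Er) = mr * (Q * Er) := by ring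
        have e3 : Q * ((ml + mr) * (El + Er)) = (ml + mr) * (Q * El + Q * Er) := by ring
        rw [e1, e2, e3]
        exact this
      have hB2 : x * √((ml + mr) * e) + √(Q * ((ml + mr) * (El + Er))) ≤
          √((x ^ 2 + Q) * ((ml + mr) * (e + El + Er))) := by
        have h1 : x * √((ml + mr) * e) = √(x ^ 2 * ((ml + mr) * e)) := by
          rw [Real.sqrt_mul (sq_nonneg x) ((ml + mr) * e), Real.sqrt_sq hx]
        have h2 := cs2 (sq_nonneg x) (by positivity : 0 ≤ (ml + mr) * e) hQ
          (by positivity : 0 ≤ (ml + mr) * (El + Er))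
        rw [h1]
        have e3 : (ml + mr) * (e + El + Er) = (ml + mr) * e + (ml + mr) * (El + Er) := by ring
        rw [e3]
        exact h2
      -- (A)
      have hA1 : √(φl * Rl) + √(φr * Rr) ≤ √((φl + φr) * (Rl + Rr)) := cs2 hφl hRl hφr hRr
      have hA2 : x * (s * ((φl + φr) / (ml + mr))) + 2 * K / 3 * √((φl + φr) * (Rl + Rr)) ≤
          2 * K / 3 * √((φl + φr) * (x * s + Rl + Rr)) := by
        rcases (add_nonneg hml hmr).eq_or_lt with h0 | h0
        · rw [← h0, div_zero, mul_zero, mul_zero, zero_add]
          apply mul_le_mul_of_nonneg_left _ (by positivity)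
          apply sqrt_le_sqrt
          apply mul_le_mul_of_nonneg_left _ hφ
          have : 0 ≤ x * s := by positivity
          linarith
        · have hp := potential (R := Rl + Rr) (c := x * s) h0 hK hφ (by positivity)
            (by positivity) rfl rfl (by
              have e1 : Rl + Rr + x * s = x * s + Rl + Rr := by ring
              rw [e1]; exact hg)
          have e1 : Rl + Rr + x * s = x * s + Rl + Rr := by ring
          rw [e1] at hp
          have e2 : x * (s * ((φl + φr) / (ml + mr))) = (φl + φr) * (x * s) / (ml + mr) := by ring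
          rw [e2]
          linarith
      have hft2 := mul_le_mul_of_nonneg_left hft hx
      have hKs : s * ((K * (ml + mr) - (φl + φr)) / (ml + mr)) =
          s * K - s * ((φl + φr) / (ml + mr)) := by
        rcases (add_nonneg hml hmr).eq_or_lt with h0 | h0
        · have h1 : ml = 0 := by linarith
          have h2 : s = 0 := by rw [hs, h1]; simp
          rw [h2]; simp
        · field_simp
      rw [hKs] at hft2
      have hA3 := mul_le_mul_of_nonneg_left hA1 (by positivity : 0 ≤ 2 * K / 3)
      have hB3 := mul_le_mul_of_nonneg_left (hB1) hτ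
      have hB4 := mul_le_mul_of_nonneg_left (hB2) hτ
      linarith

end Tr

end Run7.h223.UC
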