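import Mathlib
import Pool.Agent.Run7.h223.Tree

set_option autoImplicit false

/-!
# The bound for trees without order-shattered `(d+1)`-sets
-/

namespace Run7.h223.UC

open Finset Real

namespace Tr

/-- the bound holds at every node -/
def Bd (K : ℝ) : Tr → Prop
  | leaf _ => True
  | node l r => (∀ N, ∑ i ∈ range N, sg (node l r) i ^ 2 ≤ K * mass (node l r) ^ 2) ∧
      Bd K l ∧ Bd K r

theorem bd_top {K : ℝ} (hK : 0 ≤ K) {T : Tr} (h : Bd K T) (N : ℕ) :
    ∑ i ∈ range N, sg T i ^ 2 ≤ K * mass T ^ 2 := by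
  match T with
  | leaf w => simp only [sg]; simp; positivity
  | node l r => exact h.1 N

theorem bd_shift {K : ℝ} (hK : 0 ≤ K) {T : Tr} (h : Bd K T) (k n : ℕ) :
    ∑ j ∈ range n, sg T (k + j) ^ 2 ≤ K * mass T ^ 2 := by
  refine le_trans ?_ (bd_top hK h (k + n))
  rw [Finset.sum_range_add]
  have : 0 ≤ ∑ i ∈ range k, sg T i ^ 2 := sum_nonneg fun _ _ => sq_nonneg _
  linarith

theorem Rb_eq (b : List ℝ) (T : Tr) :
    Rb b T = ∑ i ∈ range b.length, b.getD i 0 * sg T i := by
  induction b generalizing T with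
  | nil => simp [Rb]
  | cons x b ih =>
    match T with
    | leaf w => simp [Rb, sg]
    | node l r =>
      simp only [Rb, List.length_cons]
      rw [sum_range_succ', ih, ih]
      simp only [List.getD_cons_succ, List.getD_cons_zero, sg, mul_add, sum_add_distrib]
      ring

theorem Qs_eq (b : List ℝ) : Qs b = ∑ i ∈ range b.length, b.getD i 0 ^ 2 := by
  induction b with
  | nil => simp [Qs]
  | cons x b ih =>
    simp only [Qs, List.length_cons]
    rw [sum_range_succ', ih]
    simp only [List.getD_cons_succ, List.getD_cons_zero]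
    ring

theorem Rb_le (b : List ℝ) (T : Tr) :
    Rb b T ≤ √(Qs b) * √(∑ i ∈ range b.length, sg T i ^ 2) := by
  rw [Rb_eq, Qs_eq]
  exact Real.sum_mul_le_sqrt_mul_sqrt _ _ _

theorem Mt_nonneg {t : ℕ → ℝ} (ht : ∀ j, 0 ≤ t j) (n k : ℕ) {T : Tr} (hN : NN T) :
    0 ≤ Mt t n k T := sum_nonneg fun j _ => mul_nonneg (ht j) (sg_nonneg hN _)

theorem Mt_le {t : ℕ → ℝ} {n : ℕ} {K : ℝ} (hK : 0 ≤ K)
    (ht2 : ∑ j ∈ range n, t j ^ 2 ≤ K) (k : ℕ) {T : Tr} (hN : NN T) (h : Bd K T) :
    Mt t n k T ≤ K * mass T := by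
  have hm := mass_nonneg hN
  have h1 := Real.sum_mul_le_sqrt_mul_sqrt (range n) t (fun j => sg T (k + j))
  have h2 := bd_shift hK h k n
  unfold Mt
  refine h1.trans ?_
  have h3 : √(∑ j ∈ range n, t j ^ 2) ≤ √K := sqrt_le_sqrt ht2
  have h4 : √(∑ j ∈ range n, sg T (k + j) ^ 2) ≤ √K * mass T := by
    rw [Real.sqrt_le_left (by positivity), mul_pow, sq_sqrt hK]
    exact h2
  have h5 : √K * (√K * mass T) = K * mass T := by
    rw [← mul_assoc, Real.mul_self_sqrt hK]
  rw [← h5]
  exact mul_le_mul h3 h4 (sqrt_nonneg _) (sqrt_nonneg _)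

theorem Rb_le' {K : ℝ} (hK : 0 ≤ K) {b : List ℝ} (hQ : Qs b ≤ K / 81) {T : Tr} (hN : NN T)
    (h : Bd K T) : Rb b T ≤ K / 9 * mass T := by
  have hm := mass_nonneg hN
  refine (Rb_le b T).trans ?_
  have h2 := bd_top hK h b.length
  have h3 : √(Qs b) ≤ √K / 9 := by
    rw [Real.sqrt_le_left (by positivity), div_pow, sq_sqrt hK]
    linarith
  have h4 : √(∑ i ∈ range b.length, sg T i ^ 2) ≤ √K * mass T := by
    rw [Real.sqrt_le_left (by positivity), mul_pow, sq_sqrt hK]
    exact h2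
  have h5 : √K / 9 * (√K * mass T) = K / 9 * mass T := by
    have := Real.mul_self_sqrt hK
    calc √K / 9 * (√K * mass T) = (√K * √K) / 9 * mass T := by ring
      _ = K / 9 * mass T := by rw [this]
  rw [← h5]
  exact mul_le_mul h3 h4 (sqrt_nonneg _) (by positivity)

theorem gd_of_bd {t : ℕ → ℝ} {n : ℕ} {K : ℝ} (hK : 0 ≤ K) (ht : ∀ j, 0 ≤ t j)
    (ht2 : ∑ j ∈ range n, t j ^ 2 ≤ K) (b : List ℝ) (hb : ∀ x ∈ b, 0 ≤ x)
    (hQ : Qs b ≤ K / 81) (T : Tr) (hN : NN T) (h : Bd K T) : Gd t n K b T := by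
  induction b generalizing T with
  | nil =>
    simp only [Gd]
    have := Mt_le hK ht2 0 hN h
    linarith
  | cons x b ih =>
    match T with
    | leaf w =>
      simp only [Gd]
      have := Mt_le hK ht2 (b.length + 1) hN h
      linarith
    | node l r =>
      have hQ' : Qs b ≤ K / 81 := by
        simp only [Qs] at hQ
        nlinarith [sq_nonneg x]
      have hb' : ∀ y ∈ b, 0 ≤ y := fun y hy => hb y (List.mem_cons_of_mem _ hy)
      have h1 := Mt_le hK ht2 (b.length + 1) hN h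
      have h2 := Mt_nonneg ht n (b.length + 1) hN
      have h3 := Rb_le' hK hQ hN h
      have h4 := Rb_nonneg hN hb
      have h5 := mass_nonneg hN
      refine ⟨by linarith, ?_, ih hb' hQ' l hN.1 h.2.1, ih hb' hQ' r hN.2 h.2.2⟩
      have h6 : K * mass (node l r) - Mt t n (b.length + 1) (node l r) ≤ K * mass (node l r) := by
        linarith
      have h7 := mul_le_mul h6 h3 h4 (by positivity)
      have e : K * mass (node l r) * (K / 9 * mass (node l r)) = (K / 3 * mass (node l r)) ^ 2 := by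
        ring
      rw [← e]
      exact h7

theorem qn_le {K : ℝ} (hK : 0 ≤ K) (n k : ℕ) {T : Tr} (hN : NN T) (h : Bd K T) :
    qn n k T ≤ K * mass T := by
  unfold qn
  have h1 := bd_shift hK h k n
  rcases (mass_nonneg hN).eq_or_lt with h0 | h0
  · rw [← h0, div_zero, mul_zero]
  · rw [div_le_iff₀ h0]
    nlinarith

theorem En_node_le {K : ℝ} (n : ℕ) (x : ℝ) (b : List ℝ) {l r : Tr}
    (hl : En n b l ≤ K * mass l - qn n b.length l)
    (hr : En n b r ≤ K * mass r - qn n b.length r) :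
    En n (x :: b) (node l r) ≤ K * mass (node l r) - qn n (b.length + 1) (node l r) := by
  simp only [En, mass]
  linarith

theorem En_le {K : ℝ} (hK : 0 ≤ K) (n : ℕ) (b : List ℝ) (T : Tr) (hN : NN T) (h : Bd K T) :
    En n b T ≤ K * mass T - qn n b.length T := by
  induction b generalizing T with
  | nil =>
    simp only [En]
    have := qn_le hK n ([] : List ℝ).length hN h
    linarith
  | cons x b ih =>
    match T with
    | leaf w =>
      simp only [En]
      have := qn_le hK n (x :: b).length hN h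
      linarith
    | node l r => exact En_node_le n x b (ih l hN.1 h.2.1) (ih r hN.2 h.2.2)

theorem Sb_eq (t : ℕ → ℝ) (n : ℕ) (b : List ℝ) (T : Tr) :
    Sb t n b T = ∑ j ∈ range n, t j *
      ∑ i ∈ range b.length, b.getD i 0 * sg (cut T (b.length + j)) i := by
  induction b generalizing T with
  | nil => simp [Sb]
  | cons x b ih =>
    match T with
    | leaf w => simp [Sb, sg, cut]
    | node l r =>
      simp only [Sb, List.length_cons]
      rw [ih, ih, mul_sum, ← sum_add_distrib, ← sum_add_distrib]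
      refine sum_congr rfl fun j _ => ?_
      rw [sum_range_succ']
      have e : b.length + 1 + j = (b.length + j) + 1 := by ring
      rw [e]
      simp only [List.getD_cons_succ, List.getD_cons_zero, sg, cut, mul_add, sum_add_distrib,
        mass_cut]
      ring

theorem Sb_le {K' : ℝ} {t : ℕ → ℝ} (ht : ∀ j, 0 ≤ t j) (n : ℕ) (b : List ℝ)
    (T : Tr) (hN : NN T)
    (hcut : ∀ k N, ∑ i ∈ range N, sg (cut T k) i ^ 2 ≤ K' * mass (cut T k) ^ 2) :
    Sb t n b T ≤ √(Qs b) * √K' * Mt t n b.length T := by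
  rw [Sb_eq]
  unfold Mt
  rw [mul_sum]
  refine sum_le_sum fun j _ => ?_
  have h1 := Real.sum_mul_le_sqrt_mul_sqrt (range b.length) (fun i => b.getD i 0)
    (fun i => sg (cut T (b.length + j)) i)
  rw [← Qs_eq] at h1
  have hs := sg_nonneg hN (b.length + j)
  have h2 : √(∑ i ∈ range b.length, sg (cut T (b.length + j)) i ^ 2) ≤
      √K' * sg T (b.length + j) := by
    have h3 := hcut (b.length + j) b.length
    rw [mass_cut] at h3
    have h4 := sqrt_le_sqrt h3
    rw [Real.sqrt_mul' _ (sq_nonneg _), Real.sqrt_sq hs] at h4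
    exact h4
  have h5 := h1.trans (mul_le_mul_of_nonneg_left h2 (sqrt_nonneg (Qs b)))
  have h6 := mul_le_mul_of_nonneg_left h5 (ht j)
  calc _ ≤ _ := h6
    _ = _ := by ring

/-- the extremal step -/
theorem root_step {K K' : ℝ} (hK' : 10 ^ 4 ≤ K') (hK : K = 1000 * K') {l r : Tr}
    (hl : NN l) (hr : NN r) (bl : Bd K l) (br : Bd K r)
    (hcut : ∀ k N, ∑ i ∈ range N, sg (cut (node l r) k) i ^ 2 ≤
      K' * mass (cut (node l r) k) ^ 2) (N : ℕ) :
    ∑ i ∈ range N, sg (node l r) i ^ 2 ≤ K * mass (node l r) ^ 2 := by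
  by_contra hcon
  push Not at hcon
  have hK0 : 0 ≤ K := by rw [hK]; linarith
  have hKbig : 10 ^ 7 ≤ K := by rw [hK]; linarith
  have hN : NN (node l r) := ⟨hl, hr⟩
  obtain ⟨m, hm⟩ : ∃ m, m = mass (node l r) := ⟨_, rfl⟩
  have hm0 : 0 < m := by
    rcases (mass_nonneg hN).eq_or_lt with h | h
    · exfalso
      have : ∑ i ∈ range N, sg (node l r) i ^ 2 = 0 :=
        sum_eq_zero fun i _ => by rw [sg_zero hN h.symm i]; ring
      rw [this, ← h] at hcon
      simp at hcon
    · rw [hm]; exact h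
  obtain ⟨x, hx⟩ : ∃ x : ℕ → ℝ, ∀ i, x i = sg (node l r) i / m := ⟨_, fun _ => rfl⟩
  have hsx : ∀ i, sg (node l r) i = m * x i := fun i => by rw [hx]; field_simp
  have hx0 : ∀ i, 0 ≤ x i := fun i => by
    rw [hx]; exact div_nonneg (sg_nonneg hN i) hm0.le
  have hx1 : ∀ i, x i ≤ 1 / 2 := fun i => by
    rw [hx, div_le_iff₀ hm0]
    have := sg_le hN i
    rw [← hm] at this
    linarith
  obtain ⟨F, hF⟩ : ∃ F : ℕ → ℝ, ∀ k, F k = ∑ i ∈ range k, x i ^ 2 := ⟨_, fun _ => rfl⟩
  have hF0 : F 0 = 0 := by rw [hF]; simp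
  have hFs : ∀ k, F (k + 1) = F k + x k ^ 2 := fun k => by rw [hF, hF, sum_range_succ]
  have hFmono : Monotone F := monotone_nat_of_le_succ fun k => by
    rw [hFs]; nlinarith [sq_nonneg (x k)]
  have hFN : K < F N := by
    rw [hF]
    have e : ∑ i ∈ range N, x i ^ 2 = (∑ i ∈ range N, sg (node l r) i ^ 2) / m ^ 2 := by
      rw [sum_div]
      refine sum_congr rfl fun i _ => ?_
      rw [hx, div_pow]
    rw [e, lt_div_iff₀ (by positivity), hm]
    exact hcon
  -- the upper bound for F N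
  have hFN2 : F N ≤ K + 1 / 4 := by
    have hN1 : N ≠ 0 := by
      rintro rfl
      rw [hF0] at hFN
      linarith
    obtain ⟨N', rfl⟩ := Nat.exists_eq_succ_of_ne_zero hN1
    have hml := mass_nonneg hl
    have hmr := mass_nonneg hr
    have hmm : m = mass l + mass r := by rw [hm]; rfl
    have h1 : ∑ i ∈ range (N' + 1), sg (node l r) i ^ 2 ≤ m ^ 2 * (K + 1 / 4) := by
      rw [sum_range_succ']
      simp only [sg]
      rw [sq_sqrt (by positivity)]
      have h2 : ∑ i ∈ range N', (sg l i + sg r i) ^ 2 ≤ K * m ^ 2 := by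
        have h3 := bd_top hK0 bl N'
        have h4 := bd_top hK0 br N'
        have h5 : ∑ i ∈ range N', sg l i * sg r i ≤ K * (mass l * mass r) := by
          refine (Real.sum_mul_le_sqrt_mul_sqrt _ _ _).trans ?_
          have h6 : √(∑ i ∈ range N', sg l i ^ 2) ≤ √K * mass l := by
            rw [Real.sqrt_le_left (by positivity), mul_pow, sq_sqrt hK0]
            exact h3
          have h7 : √(∑ i ∈ range N', sg r i ^ 2) ≤ √K * mass r := by
            rw [Real.sqrt_le_left (by positivity), mul_pow, sq_sqrt hK0]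
            exact h4
          have h8 := mul_le_mul h6 h7 (sqrt_nonneg _) (by positivity)
          have h9 : √K * mass l * (√K * mass r) = (√K * √K) * (mass l * mass r) := by ring
          rw [h9, Real.mul_self_sqrt hK0] at h8
          exact h8
        have e : ∑ i ∈ range N', (sg l i + sg r i) ^ 2 = ∑ i ∈ range N', sg l i ^ 2 +
            2 * ∑ i ∈ range N', sg l i * sg r i + ∑ i ∈ range N', sg r i ^ 2 := by
          rw [mul_sum, ← sum_add_distrib, ← sum_add_distrib]
          refine sum_congr rfl fun i _ => by ring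
        rw [e, hmm]
        nlinarith
      have h3 : mass l * mass r ≤ m ^ 2 / 4 := by
        rw [hmm]; nlinarith [sq_nonneg (mass l - mass r)]
      linarith
    rw [hF]
    have e : ∑ i ∈ range (N' + 1), x i ^ 2 =
        (∑ i ∈ range (N' + 1), sg (node l r) i ^ 2) / m ^ 2 := by
      rw [sum_div]
      refine sum_congr rfl fun i _ => ?_
      rw [hx, div_pow]
    change ∑ i ∈ range (N' + 1), x i ^ 2 ≤ K + 1 / 4
    rw [e, div_le_iff₀ (by positivity)]
    linarith
  -- choice of the block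
  have hex : ∃ k, K / 81 < F k := ⟨N, by linarith⟩
  classical
  obtain ⟨k0, hk0, hk1⟩ : ∃ k0, K / 81 < F k0 ∧ ∀ j < k0, F j ≤ K / 81 :=
    ⟨Nat.find hex, Nat.find_spec hex, fun j hj => not_lt.mp (Nat.find_min hex hj)⟩
  have hk00 : k0 ≠ 0 := by
    rintro rfl
    rw [hF0] at hk0
    linarith
  obtain ⟨k, rfl⟩ := Nat.exists_eq_succ_of_ne_zero hk00
  have hk0' : K / 81 < F k + x k ^ 2 := by
    have : F (k + 1) = F k + x k ^ 2 := hFs k
    rw [← this]; exact hk0
  have hFk : F k ≤ K / 81 := hk1 k (Nat.lt_succ_self k)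
  have hxk : x k ^ 2 ≤ 1 / 4 := by nlinarith [hx0 k, hx1 k]
  have hFk2 : K / 81 - 1 / 4 ≤ F k := by linarith
  have hkN : k ≤ N := by
    by_contra h
    push Not at h
    have := hFmono h.le
    linarith
  obtain ⟨n, rfl⟩ := Nat.exists_eq_add_of_le hkN
  have hk1' : k ≠ 0 := by
    rintro rfl
    rw [hF0] at hFk2
    linarith
  obtain ⟨k', rfl⟩ := Nat.exists_eq_succ_of_ne_zero hk1'
  -- the tail
  obtain ⟨t, ht⟩ : ∃ t : ℕ → ℝ, ∀ j, t j = x (k' + 1 + j) := ⟨_, fun _ => rfl⟩
  have ht0 : ∀ j, 0 ≤ t j := fun j => by rw [ht]; exact hx0 _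
  obtain ⟨τ2, hτ2⟩ : ∃ τ2, τ2 = ∑ j ∈ range n, t j ^ 2 := ⟨_, rfl⟩
  have hFsplit : F (k' + 1 + n) = F (k' + 1) + τ2 := by
    rw [hF, hF, hτ2, Finset.sum_range_add]
    simp only [ht]
  have hFN' : K < F (k' + 1 + n) := hFN
  have hFN2' : F (k' + 1 + n) ≤ K + 1 / 4 := hFN2
  have hFk' : F (k' + 1) ≤ K / 81 := hFk
  have hFk2' : K / 81 - 1 / 4 ≤ F (k' + 1) := hFk2
  obtain ⟨Q, hQ⟩ : ∃ Q, Q = F (k' + 1) := ⟨_, rfl⟩
  rw [hFsplit, ← hQ] at hFN' hFN2'
  rw [← hQ] at hFk' hFk2'
  have hτ20 : 0 ≤ τ2 := by rw [hτ2]; exact sum_nonneg fun _ _ => sq_nonneg _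
  have hτ2K : τ2 ≤ K := by linarith
  -- the block
  obtain ⟨b, hb⟩ : ∃ b : List ℝ, b = (List.range (k' + 1)).map x := ⟨_, rfl⟩
  have hblen : b.length = k' + 1 := by rw [hb]; simp
  have hbget : ∀ i ∈ range b.length, b.getD i 0 = x i := by
    intro i hi
    rw [mem_range] at hi
    rw [List.getD_eq_getElem _ _ hi]
    simp [hb]
  have hb0 : ∀ y ∈ b, 0 ≤ y := by
    intro y hy
    rw [hb, List.mem_map] at hy
    obtain ⟨i, _, rfl⟩ := hy
    exact hx0 i
  have hbQ : Qs b = Q := by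
    rw [Qs_eq, hQ, hF, ← hblen]
    exact sum_congr rfl fun i hi => by rw [hbget i hi]
  have hbR : Rb b (node l r) = m * Q := by
    rw [Rb_eq, hQ, hF, ← hblen, mul_sum]
    exact sum_congr rfl fun i hi => by rw [hbget i hi, hsx]; ring
  have hM : Mt t n b.length (node l r) = m * τ2 := by
    unfold Mt
    rw [hτ2, mul_sum, hblen]
    exact sum_congr rfl fun j _ => by rw [hsx, ← ht]; ring
  have hq : qn n b.length (node l r) = m * τ2 := by
    unfold qn
    rw [hτ2, hblen, ← hm]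
    have : ∑ j ∈ range n, sg (node l r) (k' + 1 + j) ^ 2 = m ^ 2 * ∑ j ∈ range n, t j ^ 2 := by
      rw [mul_sum]
      exact sum_congr rfl fun j _ => by rw [hsx, ← ht]; ring
    rw [this]
    field_simp
  have hQ0 : 0 < Q := by linarith
  have hSle := Sb_le (K' := K') ht0 n b (node l r) hN hcut
  rw [hbQ, hM] at hSle
  have hlow : K * (m * Q) - 2 * K / 3 * √((K * m - m * τ2) * (m * Q)) -
      √τ2 * √(Q * (m * En n b (node l r))) ≤ Sb t n b (node l r) := by
    have h := lower (t := t) (n := n) (τ := √τ2) (K := K) ht0 (sqrt_nonneg _)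
      (by rw [sq_sqrt hτ20, hτ2]) hK0 b (node l r) hN hb0 (by
        match b, hb0, hbQ, hbR, hM with
        | [], _, hbQ, _, _ => simp only [Qs] at hbQ; linarith
        | y :: b', hb0, hbQ, hbR, hM =>
          have hQb' : Qs b' ≤ K / 81 := by
            simp only [Qs] at hbQ
            nlinarith [sq_nonneg y]
          have hb0' : ∀ z ∈ b', 0 ≤ z := fun z hz => hb0 z (List.mem_cons_of_mem _ hz)
          simp only [List.length_cons] at hM
          refine ⟨?_, ?_, gd_of_bd hK0 ht0 (by rw [← hτ2]; exact hτ2K) b' hb0' hQb' l hl bl,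
            gd_of_bd hK0 ht0 (by rw [← hτ2]; exact hτ2K) b' hb0' hQb' r hr br⟩
          · rw [hM, ← hm]; nlinarith
          · rw [hM, hbR, ← hm]
            have h1 : K * m - m * τ2 ≤ K * m := by nlinarith
            have h2 : m * Q ≤ m * (K / 81) := by nlinarith
            have h3 := mul_le_mul h1 h2 (by positivity) (by positivity)
            have h4 : K * m * (m * (K / 81)) ≤ (K / 3 * m) ^ 2 := by nlinarith [mul_pos hm0 hm0]
            linarith)
    rw [hbR, hM, hbQ, ← hm] at h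
    exact h
  have hEn : En n b (node l r) ≤ m * Q := by
    have h : En n b (node l r) ≤ K * mass (node l r) - qn n b.length (node l r) := by
      match b, hbQ with
      | [], hbQ => simp only [Qs] at hbQ; linarith
      | y :: b', hbQ =>
        exact En_node_le n y b' (En_le hK0 n b' l hl bl) (En_le hK0 n b' r hr br)
    rw [hq, ← hm] at h
    nlinarith
  have h1 : √((K * m - m * τ2) * (m * Q)) ≤ m * Q := by
    rw [Real.sqrt_le_left (by positivity)]
    have : K * m - m * τ2 ≤ m * Q := by nlinarith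
    nlinarith [mul_pos hm0 hQ0]
  have h2 : √(Q * (m * En n b (node l r))) ≤ m * Q := by
    rw [Real.sqrt_le_left (by positivity)]
    have h3 := mul_le_mul_of_nonneg_left hEn hm0.le
    nlinarith
  have h3 : K * (m * Q) - 2 * K / 3 * (m * Q) - √τ2 * (m * Q) ≤ √Q * √K' * (m * τ2) := by
    have h4 := mul_le_mul_of_nonneg_left h1 (by positivity : 0 ≤ 2 * K / 3)
    have h5 := mul_le_mul_of_nonneg_left h2 (sqrt_nonneg τ2)
    linarith
  obtain ⟨q, hqd⟩ : ∃ q, q = √Q := ⟨_, rfl⟩
  obtain ⟨c, hcd⟩ : ∃ c, c = √K' := ⟨_, rfl⟩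
  obtain ⟨τ, hτd⟩ : ∃ τ, τ = √τ2 := ⟨_, rfl⟩
  have hq2 : q ^ 2 = Q := by rw [hqd, sq_sqrt hQ0.le]
  have hc2 : c ^ 2 = K' := by rw [hcd, sq_sqrt (by linarith)]
  have hτ22 : τ ^ 2 = τ2 := by rw [hτd, sq_sqrt hτ20]
  have hq0 : 0 < q := by rw [hqd]; exact sqrt_pos.mpr hQ0
  have hc0 : 0 < c := by rw [hcd]; exact sqrt_pos.mpr (by linarith)
  have hτ0 : 0 ≤ τ := by rw [hτd]; exact sqrt_nonneg _
  rw [← hqd, ← hcd, ← hτd] at h3
  have h4 : m * q * (q * (K / 3 - τ)) ≤ m * q * (c * τ2) := by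
    have e1 : K * (m * Q) - 2 * K / 3 * (m * Q) - τ * (m * Q) = m * q * (q * (K / 3 - τ)) := by
      rw [← hq2]; ring
    have e2 : q * c * (m * τ2) = m * q * (c * τ2) := by ring
    rw [e1, e2] at h3
    exact h3
  have h5 : q * (K / 3 - τ) ≤ c * τ2 := le_of_mul_le_mul_left h4 (by positivity)
  have h6 : τ ≤ K / 100 := by
    have : τ ^ 2 ≤ (K / 100) ^ 2 := by
      rw [hτ22]
      nlinarith
    exact le_of_sq_le_sq this (by positivity)
  have h7 : q * (97 / 300 * K) ≤ c * K := by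
    have h8 : q * (97 / 300 * K) ≤ q * (K / 3 - τ) := by
      apply mul_le_mul_of_nonneg_left _ hq0.le
      linarith
    have h9 : c * τ2 ≤ c * K := mul_le_mul_of_nonneg_left hτ2K hc0.le
    linarith
  have h8 : 97 / 300 * q ≤ c := by
    have h9 : K * (97 / 300 * q) ≤ K * c := by linarith
    exact le_of_mul_le_mul_left h9 (by linarith)
  have h9 : (97 / 300 * q) ^ 2 ≤ c ^ 2 := pow_le_pow_left₀ (by positivity) h8 2
  rw [mul_pow, hq2, hc2] at h9
  rw [hK] at hFk2'
  linarith

/-- the constants -/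
noncomputable def Kd (d : ℕ) : ℝ := 10 ^ 4 * 1000 ^ d

theorem Kd_ge (d : ℕ) : 10 ^ 4 ≤ Kd d := by
  unfold Kd
  have : (1 : ℝ) ≤ 1000 ^ d := one_le_pow₀ (by norm_num)
  nlinarith

theorem bd_main (d : ℕ) (T : Tr) (hN : NN T) (hD : Dm d T) : Bd (Kd d) T := by
  induction d generalizing T with
  | zero =>
    have hK := Kd_ge 0
    induction T with
    | leaf w => trivial
    | node l r ihl ihr =>
      refine ⟨fun N => ?_, ihl hN.1 (dm_left hD), ihr hN.2 (dm_right hD)⟩
      have : ∑ i ∈ range N, sg (node l r) i ^ 2 = 0 :=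
        sum_eq_zero fun i _ => by rw [sg_of_dm_zero hN hD i]; ring
      rw [this]
      positivity
  | succ d ih =>
    have hK := Kd_ge d
    have hK2 : Kd (d + 1) = 1000 * Kd d := by unfold Kd; ring
    induction T with
    | leaf w => trivial
    | node l r ihl ihr =>
      have bl := ihl hN.1 (dm_left hD)
      have br := ihr hN.2 (dm_right hD)
      refine ⟨fun N => ?_, bl, br⟩
      exact root_step hK hK2 hN.1 hN.2 bl br
        (fun k N => bd_top (by linarith) (ih _ (nn_cut k) (dm_cut hD k)) N) N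

/-- **Main bound.** -/
theorem sum_sg_sq_le (d : ℕ) (T : Tr) (hN : NN T) (hD : Dm d T) (N : ℕ) :
    ∑ i ∈ range N, sg T i ^ 2 ≤ Kd d * mass T ^ 2 :=
  bd_top (by have := Kd_ge d; linarith) (bd_main d T hN hD) N

end Tr

end Run7.h223.UC
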