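import Mathlib
import Pool.Agent.H117R2.VC
import Pool.Agent.Run7.h223.Tree2

set_option autoImplicit false

/-!
# The trie of a family of finite sets and its order-shattered sets
-/

namespace Run7.h223.UC

open Finset Real Pool.Agent.H117R2

section trie

variable {α : Type*} [DecidableEq α]

/-- the trie of a family along a list of elements -/
noncomputable def toTr : List α → Finset (Finset α) → Tr
  | [], A => Tr.leaf A.card
  | g :: l, A => Tr.node (toTr l (av0 g A)) (toTr l (av1 g A))

theorem mass_toTr (l : List α) (A : Finset (Finset α)) : (toTr l A).mass = A.card := by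
  induction l generalizing A with
  | nil => simp [toTr, Tr.mass]
  | cons g l ih =>
    simp only [toTr, Tr.mass]
    rw [ih, ih]
    exact card_av g A

theorem nn_toTr (l : List α) (A : Finset (Finset α)) : (toTr l A).NN := by
  induction l generalizing A with
  | nil => simp [toTr, Tr.NN]
  | cons g l ih =>
    simp only [toTr, Tr.NN]
    exact ⟨ih _, ih _⟩

theorem sg_toTr (l : List α) (A : Finset (Finset α)) (i : ℕ) :
    (toTr l A).sg i = wt gm l A i := by
  induction l generalizing A i with
  | nil => simp [toTr, Tr.sg, wt]
  | cons g l ih =>
    cases i with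
    | zero => simp [toTr, Tr.sg, wt, mass_toTr, gm]
    | succ i => simp [toTr, Tr.sg, wt, ih]

/-- the elements of a list marked by a list of bits -/
def sel : List α → List Bool → Finset α
  | [], _ => ∅
  | _ :: _, [] => ∅
  | g :: l, true :: S => insert g (sel l S)
  | _ :: l, false :: S => sel l S

theorem sel_sub (l : List α) (S : List Bool) (x : α) (hx : x ∈ sel l S) : x ∈ l := by
  induction l generalizing S with
  | nil => simp [sel] at hx
  | cons g l ih =>
    match S with
    | [] => simp [sel] at hx
    | true :: S =>
      simp only [sel, mem_insert] at hx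
      rcases hx with rfl | hx
      · exact List.mem_cons_self
      · exact List.mem_cons_of_mem _ (ih S hx)
    | false :: S =>
      simp only [sel] at hx
      exact List.mem_cons_of_mem _ (ih S hx)

theorem osh_toTr (l : List α) (hl : l.Nodup) (A : Finset (Finset α)) (S : List Bool)
    (h : (toTr l A).Osh S) : A.Shatters (sel l S) ∧ (sel l S).card = S.count true := by
  induction l generalizing A S with
  | nil =>
    simp only [toTr, Tr.Osh] at h
    have hA : A.Nonempty := by
      rw [← card_pos]
      rcases Nat.eq_zero_or_pos A.card with h0 | h0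
      · exact absurd (by rw [h0]; simp) h.1
      · exact h0
    refine ⟨?_, ?_⟩
    · intro t ht
      simp only [sel, subset_empty] at ht
      obtain ⟨u, hu⟩ := hA
      exact ⟨u, hu, by rw [ht]; simp [sel]⟩
    · have : S.count true = 0 := by
        rw [List.count_eq_zero]
        intro h2
        exact absurd (h.2 _ h2) (by decide)
      rw [this]
      simp [sel]
  | cons g l ih =>
    have hgl : g ∉ l := (List.nodup_cons.mp hl).1
    have hl' : l.Nodup := (List.nodup_cons.mp hl).2
    have h0 : av0 g A ⊆ A := filter_subset _ _
    have h1 : av1 g A ⊆ A := filter_subset _ _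
    match S with
    | [] =>
      simp only [toTr, Tr.Osh] at h
      refine ⟨?_, by simp [sel]⟩
      have key : ∀ B ⊆ A, (toTr l B).Osh [] → A.Shatters (sel (g :: l) []) := by
        intro B hB hO
        obtain ⟨u, hu, _⟩ := (ih hl' B [] hO).1 (Finset.Subset.refl _)
        intro t ht
        simp only [sel, subset_empty] at ht
        exact ⟨u, hB hu, by rw [ht]; simp [sel]⟩
      rcases h with h | h
      · exact key _ h0 h
      · exact key _ h1 h
    | false :: S =>
      simp only [toTr, Tr.Osh] at h
      rw [List.count_cons_of_ne (by decide)]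
      simp only [sel]
      rcases h with h | h
      · have := ih hl' _ S h
        exact ⟨this.1.mono_left h0, this.2⟩
      · have := ih hl' _ S h
        exact ⟨this.1.mono_left h1, this.2⟩
    | true :: S =>
      simp only [toTr, Tr.Osh] at h
      rw [List.count_cons_self]
      simp only [sel]
      have hs0 := ih hl' _ S h.1
      have hs1 := ih hl' _ S h.2
      have hg : g ∉ sel l S := fun h' => hgl (sel_sub l S g h')
      refine ⟨?_, by rw [card_insert_of_notMem hg, hs0.2]⟩
      intro t ht
      by_cases hgt : g ∈ t
      · have h2 : t.erase g ⊆ sel l S := by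
          intro x hx
          rw [mem_erase] at hx
          exact mem_of_mem_insert_of_ne (ht hx.2) hx.1
        obtain ⟨u, hu, hut⟩ := hs1.1 h2
        have hgu : g ∈ u := (mem_filter.mp hu).2
        refine ⟨u, h1 hu, ?_⟩
        rw [insert_inter_of_mem hgu, hut, insert_erase hgt]
      · have h2 : t ⊆ sel l S := by
          intro x hx
          refine mem_of_mem_insert_of_ne (ht hx) ?_
          rintro rfl
          exact hgt hx
        obtain ⟨u, hu, hut⟩ := hs0.1 h2
        have hgu : g ∉ u := (mem_filter.mp hu).2
        refine ⟨u, h0 hu, ?_⟩
        rw [insert_inter_of_notMem hgu, hut]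

/-- the total loss is bounded in terms of the VC dimension -/
theorem loss_le (l : List α) (hl : l.Nodup) (A : Finset (Finset α)) (d : ℕ) (hd : A.vcDim ≤ d) :
    ∑ i ∈ range l.length, wt gm l A i ^ 2 ≤ Tr.Kd d * (A.card : ℝ) ^ 2 := by
  have h := Tr.sum_sg_sq_le d (toTr l A) (nn_toTr l A) (fun S hS => by
    have h1 := osh_toTr l hl A S hS
    rw [← h1.2]
    exact h1.1.card_le_vcDim.trans hd) l.length
  rw [mass_toTr] at h
  simpa only [sg_toTr] using h

end trie

end Run7.h223.UC
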