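import Mathlib
import Pool.Agent.Run7.h223.UCTree

set_option autoImplicit false

/-!
# The union-closed sets conjecture for families of small VC dimension
-/

namespace Run7.h223.UC

open Finset Real Pool.Agent.H117R2

/-- the total weight of the elements of the list that a set avoids -/
noncomputable def nu (l : List ℕ) (w : ℕ → ℝ) (a : Finset ℕ) : ℝ :=
  ∑ i ∈ range l.length, if l.getD i 0 ∈ a then 0 else w i

theorem nu_nonneg {l : List ℕ} {w : ℕ → ℝ} (hw : ∀ i, 0 ≤ w i) (a : Finset ℕ) :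
    0 ≤ nu l w a := by
  unfold nu
  refine sum_nonneg fun i _ => ?_
  split_ifs
  · exact le_rfl
  · exact hw i

theorem av_getD (l : List ℕ) (A : Finset (Finset ℕ)) (i : ℕ) (hi : i < l.length) :
    av l A i = ((av0 (l.getD i 0) A).card : ℝ) := by
  rw [av_eq l A i hi, List.getD_eq_getElem _ _ hi]
  rfl

theorem sum_nu (l : List ℕ) (w : ℕ → ℝ) (S : Finset (Finset ℕ)) :
    ∑ a ∈ S, nu l w a = ∑ i ∈ range l.length, av l S i * w i := by
  unfold nu
  rw [sum_comm]
  refine sum_congr rfl fun i hi => ?_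
  rw [av_getD l S i (mem_range.mp hi)]
  unfold av0
  rw [card_filter, Nat.cast_sum, sum_mul]
  refine sum_congr rfl fun a _ => ?_
  split_ifs <;> simp_all

theorem sum_conv_nu (l : List ℕ) (w : ℕ → ℝ) (A : Finset (Finset ℕ))
    (huc : ∀ X ∈ A, ∀ Y ∈ A, X ∪ Y ∈ A) :
    ∑ S ∈ A, conv A A S * nu l w S = ∑ i ∈ range l.length, av l A i ^ 2 * w i := by
  unfold nu
  simp only [mul_sum]
  rw [sum_comm]
  refine sum_congr rfl fun i hi => ?_
  rw [av_getD l A i (mem_range.mp hi)]
  have h0 : ∀ X ∈ av0 (l.getD i 0) A, ∀ Y ∈ av0 (l.getD i 0) A, X ∪ Y ∈ A := fun X hX Y hY =>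
    huc X (filter_subset _ _ hX) Y (filter_subset _ _ hY)
  rw [sq, ← sum_conv A _ _ h0, sum_mul]
  refine sum_congr rfl fun S _ => ?_
  rw [← conv_avoid]
  split_ifs <;> simp

/-- the basic inequality for a subfamily -/
theorem basic {K ε : ℝ} (hK : 0 ≤ K) (l : List ℕ) (A S : Finset (Finset ℕ))
    (hSA : S ⊆ A) (huc : ∀ X ∈ A, ∀ Y ∈ A, X ∪ Y ∈ A)
    (hsep : ∀ X ∈ A, ∀ Y ∈ A, (∀ g ∈ l, g ∈ X ↔ g ∈ Y) → X = Y)
    (hf : ∀ i < l.length, (1 / 2 - ε) * A.card ≤ av l A i)
    (hlS : ∑ i ∈ range l.length, wt gm l S i ^ 2 ≤ K * (S.card : ℝ) ^ 2)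
    (hlA : ∑ i ∈ range l.length, wt gm l A i ^ 2 ≤ K * (A.card : ℝ) ^ 2) :
    ∑ i ∈ range l.length, av l S i * wt E2 l A i ≤
      A.card * S.card * (log A.card - (1 / 2 - ε) * log S.card + 2 * K) := by
  have hmain := main_ineq twoPoint A l S A (fun X hX Y hY => huc X (hSA hX) Y hY)
  have hent := ent_le (U := A) (f := conv S A) (fun X _ => conv_nonneg S A X)
  rw [sum_conv A S A (fun X hX Y hY => huc X (hSA hX) Y hY)] at hent
  have hsum := sum_eta l S (fun X hX Y hY => hsep X (hSA hX) Y (hSA hY))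
  have hloss : ∑ i ∈ range l.length, wt gm l S i * wt gm l A i ≤ K * (S.card * A.card) := by
    refine (Real.sum_mul_le_sqrt_mul_sqrt _ _ _).trans ?_
    have h1 : √(∑ i ∈ range l.length, wt gm l S i ^ 2) ≤ √K * S.card := by
      rw [Real.sqrt_le_left (by positivity), mul_pow, sq_sqrt hK]
      exact hlS
    have h2 : √(∑ i ∈ range l.length, wt gm l A i ^ 2) ≤ √K * A.card := by
      rw [Real.sqrt_le_left (by positivity), mul_pow, sq_sqrt hK]
      exact hlA
    have h3 := mul_le_mul h1 h2 (sqrt_nonneg _) (by positivity)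
    have h4 : √K * (S.card : ℝ) * (√K * A.card) = (√K * √K) * (S.card * A.card) := by ring
    rw [h4, Real.mul_self_sqrt hK] at h3
    exact h3
  have hav : ∀ i ∈ range l.length, (1 / 2 - ε) * A.card * wt E2 l S i ≤
      av l A i * wt E2 l S i := fun i hi =>
    mul_le_mul_of_nonneg_right (hf i (mem_range.mp hi)) (eta_nonneg l S i)
  have hav2 := sum_le_sum hav
  rw [← mul_sum, hsum] at hav2
  rw [sum_add_distrib] at hmain
  have e : (A.card : ℝ) * S.card * (log A.card - (1 / 2 - ε) * log S.card + 2 * K) =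
      (S.card : ℝ) * A.card * log A.card - (1 / 2 - ε) * A.card * (S.card * log S.card) +
        2 * (K * (S.card * A.card)) := by ring
  rw [e]
  linarith

/-- the entropy of unions is small when they concentrate on a small subfamily -/
theorem ent_event (A B : Finset (Finset ℕ)) (hBA : B ⊆ A) (f : Finset ℕ → ℝ)
    (hf : ∀ S, 0 ≤ f S) (F : ℝ) (hF : F = ∑ S ∈ A, f S) :
    ent A f ≤ F * log 2 + (F - ∑ S ∈ B, f S) * log A.card + (∑ S ∈ B, f S) * log B.card := by
  classical
  have hsplit := ent_split A f (fun S => S ∈ B)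
  have h1 : ∑ S ∈ A, (if S ∈ B then f S else 0) = ∑ S ∈ B, f S := by
    rw [← sum_filter]
    congr 1
    ext S
    rw [mem_filter]
    exact ⟨fun h => h.2, fun h => ⟨hBA h, h⟩⟩
  have h2 : ∑ S ∈ A, (if S ∈ B then 0 else f S) = F - ∑ S ∈ B, f S := by
    rw [hF, ← h1, ← sum_sub_distrib]
    refine sum_congr rfl fun S _ => ?_
    split_ifs <;> simp
  have h3 : ent A (fun S => if S ∈ B then f S else 0) ≤ (∑ S ∈ B, f S) * log B.card := by
    have h4 : ent A (fun S => if S ∈ B then f S else 0) = ent B f := by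
      unfold ent
      rw [h1]
      congr 1
      have h5 : ∀ S ∈ A, negMulLog (if S ∈ B then f S else 0) =
          if S ∈ B then negMulLog (f S) else 0 := by
        intro S _
        split_ifs <;> simp
      rw [sum_congr rfl h5, ← sum_filter]
      congr 1
      ext S
      rw [mem_filter]
      exact ⟨fun h => h.2, fun h => ⟨hBA h, h⟩⟩
    rw [h4]
    exact ent_le fun S _ => hf S
  have h4 : ent A (fun S => if S ∈ B then 0 else f S) ≤ (F - ∑ S ∈ B, f S) * log A.card := by
    have h5 := ent_le (U := A) (f := fun S => if S ∈ B then 0 else f S) (fun S _ => by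
      split_ifs
      · exact le_rfl
      · exact hf S)
    rw [h2] at h5
    exact h5
  have h5 : E2 (∑ S ∈ A, (if S ∈ B then 0 else f S)) (∑ S ∈ A, (if S ∈ B then f S else 0)) ≤
      F * log 2 := by
    rw [h1, h2]
    have h6 : 0 ≤ ∑ S ∈ B, f S := sum_nonneg fun S _ => hf S
    have h7 : 0 ≤ F - ∑ S ∈ B, f S := by
      rw [← h2]
      refine sum_nonneg fun S _ => ?_
      split_ifs
      · exact le_rfl
      · exact hf S
    have h8 := E2_gibbs (M := 1) (N := 1) h7 h6 zero_le_one zero_le_one (fun _ => one_pos)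
      (fun _ => one_pos)
    rw [log_one, mul_zero, mul_zero, add_zero, add_zero, one_add_one_eq_two] at h8
    have e : F - ∑ S ∈ B, f S + ∑ S ∈ B, f S = F := by ring
    rwa [e] at h8
  linarith

/-- numerical part -/
theorem numeric {K y L : ℝ} (hK : 10 ^ 4 ≤ K) (hy : 1000 * K ≤ y) (hL : L = exp y)
    {m b p ε : ℝ} (hm : 0 < m) (hb : 0 ≤ b) (hε : ε = y / (5 * L))
    (h1 : b * ((1 / 2 + ε - 7 / 16) * L - 1 / 2) ≤ (2 * ε * L + 2 * K) * m)
    (h2 : 7 / 16 * L * (1 - p) ≤ (1 / 4 + ε / 2) * L + 3 / 2 * K)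
    (hp0 : b = 0 → p = 0)
    (h3 : 0 < b → p * (log m - log b) ≤ 2 * ε * L + 2 * K + log 2) : False := by
  have hy7 : 10 ^ 7 ≤ y := by linarith
  have hLy : y ^ 2 / 2 ≤ L := by
    rw [hL]
    have := quadratic_le_exp_of_nonneg (x := y) (by linarith)
    linarith
  have hL0 : 0 < L := by rw [hL]; exact exp_pos _
  have hεL : ε * L = y / 5 := by rw [hε]; field_simp
  have hy2 : 10 ^ 7 * y ≤ y ^ 2 := by nlinarith
  have hLbig : 10 ^ 6 * y ≤ L := by nlinarith
  have hε0 : 0 ≤ ε := by rw [hε]; positivity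
  have hp : 428 / 1000 ≤ p := by
    have h4 : ε / 2 * L = y / 10 := by linarith
    have h5 : 7 / 16 * L * (1 - p) ≤ 1 / 4 * L + y / 10 + 3 / 2 * K := by linarith
    have h6 : 7 / 16 * L * (1 - p) ≤ (1 / 4 + 1 / 10 ^ 5) * L := by nlinarith
    have h7 : L * (7 / 16 * (1 - p)) ≤ L * (1 / 4 + 1 / 10 ^ 5) := by linarith
    have h8 := le_of_mul_le_mul_left h7 hL0
    linarith
  rcases hb.eq_or_lt with hb0 | hb0
  · have := hp0 hb0.symm
    linarith
  have h4 := h3 hb0
  -- bound for b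
  have h5 : b * (L / 16 - 1 / 2) ≤ (402 / 1000 * y) * m := by
    have h6 : b * (L / 16 - 1 / 2) ≤ b * ((1 / 2 + ε - 7 / 16) * L - 1 / 2) := by
      apply mul_le_mul_of_nonneg_left _ hb
      nlinarith
    have h7 : (2 * ε * L + 2 * K) * m ≤ (402 / 1000 * y) * m := by
      apply mul_le_mul_of_nonneg_right _ hm.le
      linarith
    linarith
  have h6 : b * L ≤ 7 * y * m := by
    have h7 : L / 16 * (1 - 1 / 10 ^ 6) ≤ L / 16 - 1 / 2 := by nlinarith
    have h8 := mul_le_mul_of_nonneg_left h7 hb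
    nlinarith [mul_pos (by linarith : 0 < y) hm, mul_pos hb0 hL0]
  have h7 : y - log (7 * y) ≤ log m - log b := by
    have h8 : log (b * L) ≤ log (7 * y * m) := log_le_log (by positivity) h6
    rw [log_mul hb0.ne' hL0.ne', log_mul (by positivity) hm.ne', hL, log_exp] at h8
    linarith
  have h8 : log (7 * y) ≤ y / 500 := by
    have h9 : log (7 * y) = 2 * log (√(7 * y)) := by
      rw [log_sqrt (by positivity)]; ring
    have h10 : log (√(7 * y)) ≤ √(7 * y) - 1 :=
      log_le_sub_one_of_pos (sqrt_pos.mpr (by positivity))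
    have h11 : √(7 * y) ≤ y / 1000 := by
      rw [Real.sqrt_le_left (by positivity)]
      nlinarith
    linarith
  have h9 : 998 / 1000 * y ≤ log m - log b := by linarith
  have h10 : 428 / 1000 * (998 / 1000 * y) ≤ p * (log m - log b) :=
    mul_le_mul hp h9 (by positivity) (by linarith)
  have h11 : log 2 ≤ 1 := by
    have := log_two_lt_d9
    linarith
  nlinarith

/-- **Main theorem.** -/
theorem uc_small (A : Finset (Finset ℕ)) (huc : ∀ X ∈ A, ∀ Y ∈ A, X ∪ Y ∈ A)
    (h : (10 : ℝ) ^ (3 * A.vcDim + 7) ≤ log (log A.card)) :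
    ∃ i : ℕ, (1 / 2 + log (log A.card) / (5 * log A.card)) * A.card ≤
      ((A.filter (fun X => i ∈ X)).card : ℝ) := by
  classical
  by_contra hcon
  push Not at hcon
  obtain ⟨K, hKdef⟩ : ∃ K, K = Tr.Kd A.vcDim := ⟨_, rfl⟩
  have hK4 : 10 ^ 4 ≤ K := hKdef ▸ Tr.Kd_ge _
  have hK0 : 0 ≤ K := by linarith
  have hKy : 1000 * K ≤ log (log A.card) := by
    have : 1000 * K = (10 : ℝ) ^ (3 * A.vcDim + 7) := by
      rw [hKdef]
      unfold Tr.Kd
      rw [pow_add, pow_mul]
      norm_num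
      ring
    rw [this]
    exact h
  obtain ⟨L, hL⟩ : ∃ L, L = log (A.card : ℝ) := ⟨_, rfl⟩
  obtain ⟨y, hy⟩ : ∃ y, y = log L := ⟨_, rfl⟩
  rw [← hL, ← hy] at hKy
  have hy7 : 10 ^ 7 ≤ y := by linarith
  have hL0 : 0 < L := by
    by_contra hle
    push Not at hle
    have hA1 : (A.card : ℝ) ≤ 1 ∨ 1 < (A.card : ℝ) := le_or_gt _ _
    have hLn : 0 ≤ L := by rw [hL]; exact log_natCast_nonneg _
    have : L = 0 := le_antisymm hle hLn
    rw [this, log_zero] at hy
    linarith
  have hLexp : L = exp y := by rw [hy, exp_log hL0]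
  obtain ⟨m, hm⟩ : ∃ m, m = (A.card : ℝ) := ⟨_, rfl⟩
  have hm0 : 0 < m := by
    rcases Nat.eq_zero_or_pos A.card with h0 | h0
    · rw [h0] at hL
      simp at hL
      linarith
    · rw [hm]; exact_mod_cast h0
  have hLm : L = log m := by rw [hL, hm]
  obtain ⟨ε, hε⟩ : ∃ ε, ε = y / (5 * L) := ⟨_, rfl⟩
  have hε0 : 0 ≤ ε := by rw [hε]; positivity
  rw [← hL, ← hy, ← hε, ← hm] at hcon
  obtain ⟨l, hl⟩ : ∃ l, l = (A.sup id).toList := ⟨_, rfl⟩
  have hnodup : l.Nodup := by rw [hl]; exact nodup_toList _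
  have hsep : ∀ X ∈ A, ∀ Y ∈ A, (∀ g ∈ l, g ∈ X ↔ g ∈ Y) → X = Y := by
    rw [hl]; exact sep_aux A
  have hloss : ∀ S ⊆ A, ∑ i ∈ range l.length, wt gm l S i ^ 2 ≤ K * (S.card : ℝ) ^ 2 := by
    intro S hS
    rw [hKdef]
    exact loss_le l hnodup S A.vcDim (vcDim_mono hS)
  have hf : ∀ i < l.length, (1 / 2 - ε) * A.card ≤ av l A i := by
    intro i hi
    rw [av_getD l A i hi]
    have h1 := card_av (l.getD i 0) A
    have h2 := hcon (l.getD i 0)
    unfold av1 at h1
    rw [← hm] at h1 ⊢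
    linarith
  have hη0 : ∀ i, 0 ≤ wt E2 l A i := fun i => eta_nonneg l A i
  have hsum := sum_eta l A hsep
  rw [← hm, ← hLm] at hsum
  -- mean values
  have hlow : (1 / 2 - ε) * m * (m * L) ≤ ∑ i ∈ range l.length, av l A i * wt E2 l A i := by
    rw [← hsum, mul_sum]
    refine sum_le_sum fun i hi => ?_
    have := hf i (mem_range.mp hi)
    rw [← hm] at this
    exact mul_le_mul_of_nonneg_right this (hη0 i)
  have hbasicA := main_ineq twoPoint A l A A huc
  have hlossA := hloss A (Finset.Subset.refl A)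
  rw [← hm] at hlossA
  have e1 : ∑ i ∈ range l.length, (av l A i * wt E2 l A i + av l A i * wt E2 l A i) =
      2 * ∑ i ∈ range l.length, av l A i * wt E2 l A i := by
    rw [mul_sum]
    exact sum_congr rfl fun i _ => by ring
  have e2 : ∑ i ∈ range l.length, wt gm l A i * wt gm l A i =
      ∑ i ∈ range l.length, wt gm l A i ^ 2 := sum_congr rfl fun i _ => by ring
  rw [e1, e2] at hbasicA
  have hentA := ent_le (U := A) (f := conv A A) (fun S _ => conv_nonneg A A S)
  have hconvA := sum_conv A A A huc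
  rw [hconvA, ← hm, ← hLm] at hentA
  have hup : ∑ i ∈ range l.length, av l A i * wt E2 l A i ≤ m ^ 2 * (L / 2 + K) := by
    nlinarith
  -- the set of members that avoid little
  obtain ⟨B, hB⟩ : ∃ B, B = A.filter (fun a => nu l (fun i => wt E2 l A i) a < 7 / 16 * (m * L)) :=
    ⟨_, rfl⟩
  have hBA : B ⊆ A := by rw [hB]; exact filter_subset _ _
  have hSA : A \ B ⊆ A := sdiff_subset
  obtain ⟨b, hb⟩ : ∃ b, b = (B.card : ℝ) := ⟨_, rfl⟩
  have hb0 : 0 ≤ b := by rw [hb]; exact Nat.cast_nonneg _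
  have hs : ((A \ B).card : ℝ) = m - b := by
    rw [card_sdiff_of_subset hBA, Nat.cast_sub (card_le_card hBA), hm, hb]
  have hbm : b ≤ m := by rw [hb, hm]; exact_mod_cast card_le_card hBA
  have hbasicS := basic (ε := ε) hK0 l A (A \ B) hSA huc hsep hf (hloss _ hSA)
    (hloss A (Finset.Subset.refl A))
  rw [← hm, ← hLm, hs] at hbasicS
  have hslog : (m - b) * L - b ≤ (m - b) * log (m - b) := by
    rcases (by linarith : 0 ≤ m - b).eq_or_lt with h0 | h0
    · rw [← h0]
      simp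
      exact hb0
    · have h1 : log (m / (m - b)) ≤ m / (m - b) - 1 := log_le_sub_one_of_pos (div_pos hm0 h0)
      rw [log_div hm0.ne' h0.ne'] at h1
      have h2 := mul_le_mul_of_nonneg_left h1 h0.le
      have h3 : (m - b) * (m / (m - b) - 1) = b := by
        have h0' : m - b ≠ 0 := h0.ne'
        field_simp
        ring
      rw [h3] at h2
      rw [hLm]
      linarith
  have hsumsplit : ∑ i ∈ range l.length, av l A i * wt E2 l A i =
      ∑ i ∈ range l.length, av l B i * wt E2 l A i +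
      ∑ i ∈ range l.length, av l (A \ B) i * wt E2 l A i := by
    have h1 := sum_nu l (fun i => wt E2 l A i) A
    have h2 := sum_nu l (fun i => wt E2 l A i) B
    have h3 := sum_nu l (fun i => wt E2 l A i) (A \ B)
    rw [← h1, ← h2, ← h3, ← sum_sdiff hBA]
    ring
  have hBle : ∑ i ∈ range l.length, av l B i * wt E2 l A i ≤ b * (7 / 16 * (m * L)) := by
    have h2 := sum_nu l (fun i => wt E2 l A i) B
    rw [← h2]
    have h3 : ∀ a ∈ B, nu l (fun i => wt E2 l A i) a ≤ 7 / 16 * (m * L) := by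
      intro a ha
      rw [hB, mem_filter] at ha
      exact ha.2.le
    have h4 := sum_le_sum h3
    rw [sum_const, nsmul_eq_mul, ← hb] at h4
    exact h4
  have h1 : b * ((1 / 2 + ε - 7 / 16) * L - 1 / 2) ≤ (2 * ε * L + 2 * K) * m := by
    have hε2 : 0 ≤ 1 / 2 - ε := by
      have hLy : y ^ 2 / 2 ≤ L := by
        rw [hLexp]
        have := quadratic_le_exp_of_nonneg (x := y) (by linarith)
        linarith
      rw [hε, sub_nonneg, div_le_iff₀ (by positivity)]
      nlinarith
    have h2 : (1 / 2 - ε) * m * (m * L) ≤ b * (7 / 16 * (m * L)) +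
        m * (m - b) * (L - (1 / 2 - ε) * log (m - b) + 2 * K) := by
      linarith
    have h3 : (1 / 2 - ε) * ((m - b) * L - b) ≤ (1 / 2 - ε) * ((m - b) * log (m - b)) :=
      mul_le_mul_of_nonneg_left hslog hε2
    have h4 : m * ((1 / 2 - ε) * (m * L)) ≤ m * (b * (7 / 16 * L) +
        (m - b) * L - (1 / 2 - ε) * ((m - b) * L - b) + 2 * K * (m - b)) := by
      have h5 := mul_le_mul_of_nonneg_left h3 hm0.le
      linarith
    have h5 := le_of_mul_le_mul_left h4 hm0
    have h6 : 0 ≤ ε * b := by positivity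
    have h7 : 0 ≤ K * b := by positivity
    linarith
  -- the unions avoid little
  obtain ⟨F, hF⟩ : ∃ F, F = ∑ S ∈ B, conv A A S := ⟨_, rfl⟩
  have hF0 : 0 ≤ F := by rw [hF]; exact sum_nonneg fun S _ => conv_nonneg _ _ _
  obtain ⟨p, hp⟩ : ∃ p, p = F / m ^ 2 := ⟨_, rfl⟩
  have hFp : F = p * m ^ 2 := by rw [hp]; field_simp
  have h2 : 7 / 16 * L * (1 - p) ≤ (1 / 4 + ε / 2) * L + 3 / 2 * K := by
    have h3 : ∑ i ∈ range l.length, av l A i ^ 2 * wt E2 l A i ≤
        (3 / 2 - ε) * m * ∑ i ∈ range l.length, av l A i * wt E2 l A i -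
          (1 / 2 - ε) * m ^ 2 * (m * L) := by
      rw [← hsum, mul_sum, mul_sum, ← sum_sub_distrib]
      refine sum_le_sum fun i hi => ?_
      have h4 := hf i (mem_range.mp hi)
      have h5 : av l A i ≤ m := by
        rw [av_getD l A i (mem_range.mp hi), hm]
        exact_mod_cast card_le_card (filter_subset _ _)
      rw [← hm] at h4
      have h6 : av l A i ^ 2 ≤ (3 / 2 - ε) * m * av l A i - (1 / 2 - ε) * m ^ 2 := by
        nlinarith [mul_nonneg (by linarith : 0 ≤ m - av l A i)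
          (by linarith : 0 ≤ av l A i - (1 / 2 - ε) * m)]
      have h7 := mul_le_mul_of_nonneg_right h6 (hη0 i)
      linarith
    have h4 : 7 / 16 * (m * L) * (m ^ 2 - F) ≤
        ∑ S ∈ A, conv A A S * nu l (fun i => wt E2 l A i) S := by
      have h5 : m ^ 2 - F = ∑ S ∈ A \ B, conv A A S := by
        have h6 : ∑ S ∈ A \ B, conv A A S + ∑ S ∈ B, conv A A S = ∑ S ∈ A, conv A A S :=
          sum_sdiff hBA
        rw [hconvA, ← hm, ← hF] at h6
        linarith
      rw [h5, mul_sum]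
      refine (sum_le_sum (g := fun S => conv A A S * nu l (fun i => wt E2 l A i) S)
        fun S hS => ?_).trans (sum_le_sum_of_subset_of_nonneg hSA fun S _ _ =>
          mul_nonneg (conv_nonneg _ _ _) (nu_nonneg hη0 _))
      rw [mem_sdiff, hB, mem_filter, not_and, not_lt] at hS
      have h6 := hS.2 hS.1
      have h7 := mul_le_mul_of_nonneg_left h6 (conv_nonneg A A S)
      linarith
    rw [sum_conv_nu l _ A huc] at h4
    have h5 : (3 / 2 - ε) * m * ∑ i ∈ range l.length, av l A i * wt E2 l A i ≤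
        (3 / 2 - ε) * m * (m ^ 2 * (L / 2 + K)) := by
      apply mul_le_mul_of_nonneg_left hup
      have : ε ≤ 1 := by
        have hLy : y ^ 2 / 2 ≤ L := by
          rw [hLexp]
          have := quadratic_le_exp_of_nonneg (x := y) (by linarith)
          linarith
        rw [hε, div_le_iff₀ (by positivity)]
        nlinarith
      have h6 : 0 ≤ 3 / 2 - ε := by linarith
      positivity
    have h6 : m ^ 3 * (7 / 16 * L * (1 - p)) ≤ m ^ 3 * ((1 / 4 + ε / 2) * L + 3 / 2 * K) := by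
      rw [hFp] at h4
      have h7 : 0 ≤ m ^ 3 * (ε * K) := by positivity
      nlinarith
    exact le_of_mul_le_mul_left h6 (by positivity)
  have hp0 : b = 0 → p = 0 := by
    intro hb'
    rw [hb, Nat.cast_eq_zero, card_eq_zero] at hb'
    rw [hp, hF, hb']
    simp
  have h3 : 0 < b → p * (log m - log b) ≤ 2 * ε * L + 2 * K + log 2 := by
    intro _
    have h4 := ent_event A B hBA (conv A A) (conv_nonneg A A) (m ^ 2) (by rw [hconvA, hm]; ring)
    rw [← hF, ← hm, ← hb, hFp] at h4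
    have h5 : 2 * ((1 / 2 - ε) * m * (m * L)) - 2 * (K * m ^ 2) ≤ ent A (conv A A) := by linarith
    have h6 : m ^ 2 * (p * (log m - log b)) ≤ m ^ 2 * (2 * ε * L + 2 * K + log 2) := by
      rw [← hLm] at h4 ⊢
      nlinarith
    exact le_of_mul_le_mul_left h6 (by positivity)
  exact numeric hK4 hKy hLexp hm0 hb0 hε h1 h2 hp0 h3

end Run7.h223.UC
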